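import Pool.Agent.Helper59.Wav.Nec
import Pool.Agent.Helper54.Wav.Stmt2

/-!
# Project WV (MP_d629b1_an): definitions

Well-localized orthonormal wavelets for expansive matrices without a rational power.
Everything is on the frequency side: `Ψ l` is the Fourier transform of the generator `ψ l`, and
`B = Aᵀ`.
-/

set_option autoImplicit false

open MeasureTheory
open scoped FourierTransform RealInnerProductSpace Matrix ComplexConjugate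

noncomputable section

namespace Pool.Agent.Helper56.WV

open Wav

/-! ### Abstract part -/

section abstract

variable {E : Type} [AddCommGroup E]

/-- `Γ a` and `Γ b` have a common nonzero element. -/
def Meet (Γ : ℤ → AddSubgroup E) (a b : ℤ) : Prop := ∃ v : E, v ≠ 0 ∧ v ∈ Γ a ∧ v ∈ Γ b

/-- `Γ a`, `Γ b`, `Γ c` have a common nonzero element. -/
def Meet3 (Γ : ℤ → AddSubgroup E) (a b c : ℤ) : Prop :=
  ∃ v : E, v ≠ 0 ∧ v ∈ Γ a ∧ v ∈ Γ b ∧ v ∈ Γ c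

/-- If three of the groups have a common nonzero element, then every common element of two of them
has a positive multiple in the third. -/
def Aligned (Γ : ℤ → AddSubgroup E) : Prop :=
  ∀ a b c : ℤ, a ≠ b → a ≠ c → b ≠ c → Meet3 Γ a b c →
    ∀ u : E, u ∈ Γ a → u ∈ Γ b → ∃ m : ℕ, 0 < m ∧ m • u ∈ Γ c

/-- There are four of the groups which meet pairwise, such that three of the four triples have only
the zero element in common. -/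
def Tetra (Γ : ℤ → AddSubgroup E) : Prop :=
  ∃ a b c d : ℤ, a ≠ b ∧ a ≠ c ∧ a ≠ d ∧ b ≠ c ∧ b ≠ d ∧ c ≠ d ∧
    Meet Γ a b ∧ Meet Γ a c ∧ Meet Γ a d ∧ Meet Γ b c ∧ Meet Γ b d ∧ Meet Γ c d ∧
    ¬ Meet3 Γ a b c ∧ ¬ Meet3 Γ a b d ∧ ¬ Meet3 Γ a c d

/-- The kernels `P j` (matrices indexed by the points of `E`) of mutually orthogonal projections
with sum one; `P j` is supported on pairs which differ by an element of `Γ j`. -/
structure KSys (Γ : ℤ → AddSubgroup E) (P : ℤ → E → E → ℂ) : Prop where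
  supp : ∀ j ξ η, P j ξ η ≠ 0 → η - ξ ∈ Γ j
  herm : ∀ j ξ η, P j η ξ = conj (P j ξ η)
  nonneg : ∀ j ξ, 0 ≤ (P j ξ ξ).re ∧ (P j ξ ξ).im = 0
  pos : ∀ j ξ η, P j ξ ξ = 0 → P j ξ η = 0
  bd : ∃ K : ℝ, ∀ j ξ η, ‖P j ξ η‖ ≤ K
  s1 : ∀ j ξ, Summable fun γ : Γ j => ‖P j ξ (ξ + γ)‖
  s2 : ∀ ξ, ∃ s : ℤ → ℝ, Summable s ∧ ∀ j η, ‖P j ξ η‖ ≤ s j
  idem : ∀ j ξ η, ∑' γ : Γ j, P j ξ (ξ + γ) * P j (ξ + γ) η = P j ξ η
  orth : ∀ i j, i ≠ j → ∀ ξ η, ∑' γ : Γ i, P i ξ (ξ + γ) * P j (ξ + γ) η = 0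
  comp : ∀ ξ η, ξ ≠ η → ∑' j, P j ξ η = 0
  diag : ∀ ξ, ∑' j, P j ξ ξ = 1 ∨ ∀ j η, P j ξ η = 0

end abstract

/-! ### Concrete part -/

variable {n L : ℕ}

lemma act_zero (M : Matrix (Fin n) (Fin n) ℝ) : act M (0 : E n) = 0 := by
  rw [act_eq]; exact map_zero _

lemma act_neg (M : Matrix (Fin n) (Fin n) ℝ) (x : E n) : act M (-x) = -act M x := by
  rw [act_eq]; exact map_neg _ _

lemma ivec_zero : ivec (0 : Fin n → ℤ) = 0 := by
  ext a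
  simp [ivec]

lemma ivec_add (k q : Fin n → ℤ) : ivec (k + q) = ivec k + ivec q := by
  ext a
  simp [ivec]

lemma ivec_neg (k : Fin n → ℤ) : ivec (-k) = -ivec k := by
  ext a
  simp [ivec]

/-- The lattice `B^j ℤⁿ`, `B = Aᵀ`, as an additive group; its carrier is `WavN.Lat A j`. -/
def Gam (A : Matrix (Fin n) (Fin n) ℝ) (j : ℤ) : AddSubgroup (E n) where
  carrier := WavN.Lat A j
  zero_mem' := ⟨0, by simp only; rw [ivec_zero, act_zero]⟩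
  add_mem' := by
    rintro _ _ ⟨p, rfl⟩ ⟨q, rfl⟩
    refine ⟨p + q, ?_⟩
    simp only
    rw [ivec_add, act_add]
  neg_mem' := by
    rintro _ ⟨p, rfl⟩
    refine ⟨-p, ?_⟩
    simp only
    rw [ivec_neg, act_neg]

lemma mem_Gam {A : Matrix (Fin n) (Fin n) ℝ} {j : ℤ} {x : E n} :
    x ∈ Gam A j ↔ x ∈ WavN.Lat A j := Iff.rfl

lemma mem_Gam' {A : Matrix (Fin n) (Fin n) ℝ} {j : ℤ} {x : E n} :
    x ∈ Gam A j ↔ ∃ p : Fin n → ℤ, act (Aᵀ ^ j) (ivec p) = x := Iff.rfl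

/-- The function `ξ ↦ Ψ l (B^(-j) ξ)`. -/
def sc (A : Matrix (Fin n) (Fin n) ℝ) (Ψ : Fin L → E n → ℂ) (j : ℤ) (l : Fin L) (ξ : E n) : ℂ :=
  Ψ l (act (Aᵀ ^ (-j)) ξ)

open Classical in
/-- The kernel of the projection onto the scale `j`. -/
def ker (A : Matrix (Fin n) (Fin n) ℝ) (Ψ : Fin L → E n → ℂ) (j : ℤ) (ξ η : E n) : ℂ :=
  if η - ξ ∈ Gam A j then ∑ l, sc A Ψ j l ξ * conj (sc A Ψ j l η) else 0

/-- The diagonal of the kernel. -/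
def dg (A : Matrix (Fin n) (Fin n) ℝ) (Ψ : Fin L → E n → ℂ) (j : ℤ) (ξ : E n) : ℝ :=
  ∑ l, ‖sc A Ψ j l ξ‖ ^ 2

/-- The Fourier transforms `Ψ l` of the generators of a well-localized orthonormal wavelet. -/
structure WSys (A : Matrix (Fin n) (Fin n) ℝ) (Ψ : Fin L → E n → ℂ) (N : ℝ) : Prop where
  one_le : 1 ≤ n
  exp : Expansive A
  hN : (n : ℝ) + 1 < N
  smooth : ∀ l, ContDiff ℝ 1 (Ψ l)
  bound : ∃ K : ℝ, 0 < K ∧ ∀ l ξ, ‖Ψ l ξ‖ ≤ K * (1 + ‖ξ‖) ^ (-N)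
  dbound : ∃ K : ℝ, 0 < K ∧ ∀ l ξ, ‖fderiv ℝ (Ψ l) ξ‖ ≤ K
  basis : ∃ b : HilbertBasis (Fin L × ℤ × (Fin n → ℤ)) ℂ (Lp ℂ 2 (volume : Measure (E n))),
    ∀ l j k, (b (l, j, k) : E n → ℂ) =ᵐ[volume] faff A (Ψ l) j k

/-- The common vectors of the lattices of scale `i` and `j`. -/
abbrev Cm (A : Matrix (Fin n) (Fin n) ℝ) (i j : ℤ) : Type :=
  {γ : E n // γ ∈ Gam A i ∧ γ ∈ Gam A j}

/-- The periodic function `∑_γ conj (Ψ l' (B^(-j) (ξ + γ))) ∂_u Ψ l (ξ + γ)`, over the common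
vectors `γ` of `ℤⁿ` and `B^j ℤⁿ`. -/
def XX (A : Matrix (Fin n) (Fin n) ℝ) (Ψ : Fin L → E n → ℂ) (j : ℤ) (u : E n) (l' l : Fin L)
    (ξ : E n) : ℂ :=
  ∑' γ : Cm A 0 j, conj (sc A Ψ j l' (ξ + γ)) * fderiv ℝ (Ψ l) (ξ + γ) u

/-- The current from the scale `0` to the scale `j`, in the direction `u`. -/
def fj (A : Matrix (Fin n) (Fin n) ℝ) (Ψ : Fin L → E n → ℂ) (j : ℤ) (u ξ : E n) : ℂ :=
  if j = 0 then 0 else ∑ l, ∑ l', sc A Ψ j l' ξ * conj (Ψ l ξ) * XX A Ψ j u l' l ξ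

end Pool.Agent.Helper56.WV
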