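import Pool.Agent.Helper56.WV.St

/-!
# Project WV (MP_d629b1_an): all scales present at a point are aligned
-/

set_option autoImplicit false

open MeasureTheory
open scoped FourierTransform RealInnerProductSpace Matrix ComplexConjugate

noncomputable section

namespace Pool.Agent.Helper56.WV

open Wav

section

variable {E : Type} [AddCommGroup E] {Γ : ℤ → AddSubgroup E} {P : ℤ → E → E → ℂ}

lemma AL_left (hK : KSys Γ P) {j : ℤ} {x y : E} (h : P j x y ≠ 0) : P j x x ≠ 0 := fun h0 =>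
  h (hK.pos j x y h0)

lemma AL_herm (hK : KSys Γ P) {j : ℤ} {x y : E} (h : P j x y ≠ 0) : P j y x ≠ 0 := by
  rw [hK.herm j x y]
  intro h0
  exact h ((map_eq_zero _).1 h0)

lemma AL_right (hK : KSys Γ P) {j : ℤ} {x y : E} (h : P j x y ≠ 0) : P j y y ≠ 0 :=
  AL_left hK (AL_herm hK h)

lemma AL_meet (hMT : St_MT) (hK : KSys Γ P) {a b : ℤ} {x : E} (hab : a ≠ b)
    (ha : P a x x ≠ 0) (hb : P b x x ≠ 0) : Meet Γ a b := by
  obtain ⟨y, hy, h1, h2⟩ := hMT E Γ P hK a b x hab ha hb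
  exact ⟨y - x, sub_ne_zero.2 hy, hK.supp a x y h1, hK.supp b x y (AL_herm hK h2)⟩

lemma AL_other (hK : KSys Γ P) {a : ℤ} {x y : E} (hxy : x ≠ y) (h : P a x y ≠ 0) :
    ∃ c, c ≠ a ∧ P c x y ≠ 0 := by
  by_contra hcon
  push Not at hcon
  have h1 := hK.comp x y hxy
  rw [tsum_eq_single a hcon] at h1
  exact h h1

end

theorem p_AL (hMT : St_MT) (hOFF : St_OFF) : St_AL := by
  intro E _ Γ P htf hK hA hT a b c x hab ha hb hc
  by_contra hcon
  push Not at hcon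
  obtain ⟨hca, hcb, hn⟩ := hcon
  obtain ⟨y, hy, hay, hby⟩ := hMT E Γ P hK a b x hab ha hb
  have ya : y - x ∈ Γ a := hK.supp a x y hay
  have yb : y - x ∈ Γ b := hK.supp b x y (AL_herm hK hby)
  have hmab : Meet Γ a b := ⟨y - x, sub_ne_zero.2 hy, ya, yb⟩
  obtain ⟨z, za, zb, hz1, hz2⟩ := hOFF E Γ P htf hK hA a b c x y hab hmab ya yb hay hca hcb hn hc
  have hzx : x ≠ z := by
    rintro rfl
    refine zb 1 one_pos ?_
    rw [sub_self, smul_zero]
    exact AddSubgroup.zero_mem _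
  have zb1 : z - x ∉ Γ b := by
    intro h
    refine zb 1 one_pos ?_
    rwa [one_smul]
  have hzy : z ≠ y := by
    rintro rfl
    exact zb1 yb
  obtain ⟨c1, hc1a, hc1⟩ := AL_other hK hzx hz1
  obtain ⟨c2, hc2a, hc2⟩ := AL_other hK hzy hz2
  have s1 : z - x ∈ Γ c1 := hK.supp c1 x z hc1
  have s2 : y - z ∈ Γ c2 := hK.supp c2 z y hc2
  have s3 : y - z ∈ Γ a := hK.supp a z y hz2
  have hc1b : c1 ≠ b := by
    rintro rfl
    exact zb1 s1
  have hc2b : c2 ≠ b := by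
    rintro rfl
    apply zb1
    have : z - x = (y - x) - (y - z) := by abel
    rw [this]
    exact AddSubgroup.sub_mem _ yb s2
  have hc12 : c1 ≠ c2 := by
    rintro rfl
    have h1 : y - x ∈ Γ c1 := by
      have : y - x = (z - x) + (y - z) := by abel
      rw [this]
      exact AddSubgroup.add_mem _ s1 s2
    obtain ⟨m, hm, hm'⟩ := hA c1 a b hc1a hc1b hab ⟨y - x, sub_ne_zero.2 hy, h1, ya, yb⟩
      (z - x) s1 za
    exact zb m hm hm'
  have n1 : ¬ Meet3 Γ a b c1 := by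
    rintro ⟨v, hv, v1, v2, v3⟩
    obtain ⟨m, hm, hm'⟩ := hA a c1 b hc1a.symm hab hc1b ⟨v, hv, v1, v3, v2⟩ (z - x) za s1
    exact zb m hm hm'
  have n2 : ¬ Meet3 Γ a b c2 := by
    rintro ⟨v, hv, v1, v2, v3⟩
    obtain ⟨m, hm, hm'⟩ := hA a c2 b hc2a.symm hab hc2b ⟨v, hv, v1, v3, v2⟩ (y - z) s3 s2
    apply zb m hm
    have : m • (z - x) = m • (y - x) - m • (y - z) := by
      rw [← smul_sub]
      congr 1
      abel
    rw [this]
    exact AddSubgroup.sub_mem _ (AddSubgroup.nsmul_mem _ yb m) hm'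
  have n3 : ¬ Meet3 Γ a c1 c2 := by
    intro h
    obtain ⟨m, hm, hm'⟩ := hA a c1 c2 hc1a.symm hc2a.symm hc12 h (z - x) za s1
    apply n2
    refine ⟨m • (y - x), ?_, AddSubgroup.nsmul_mem _ ya m, AddSubgroup.nsmul_mem _ yb m, ?_⟩
    · intro h0
      exact sub_ne_zero.2 hy (htf m _ hm h0)
    · have : m • (y - x) = m • (z - x) + m • (y - z) := by
        rw [← smul_add]
        congr 1
        abel
      rw [this]
      exact AddSubgroup.add_mem _ hm' (AddSubgroup.nsmul_mem _ s2 m)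
  apply hT
  exact ⟨a, b, c1, c2, hab, hc1a.symm, hc2a.symm, hc1b.symm, hc2b.symm, hc12, hmab,
    ⟨z - x, sub_ne_zero.2 hzx.symm, za, s1⟩, ⟨y - z, sub_ne_zero.2 hzy.symm, s3, s2⟩,
    AL_meet hMT hK hc1b.symm hb (AL_left hK hc1),
    AL_meet hMT hK hc2b.symm (AL_left hK hby) (AL_right hK hc2),
    AL_meet hMT hK hc12 (AL_right hK hc1) (AL_left hK hc2), n1, n2, n3⟩

end Pool.Agent.Helper56.WV
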