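import Pool.Agent.Helper56.WV.St

/-!
# Project WV (MP_d629b1_an): module B1

The gradient of `w = p_0` is the sum of the currents.
-/

set_option autoImplicit false

open MeasureTheory Set
open scoped RealInnerProductSpace Matrix ComplexConjugate

noncomputable section

namespace Pool.Agent.Helper56.WV.B1

open Wav

variable {n L : ℕ}

lemma act_zpow_zero (M : Matrix (Fin n) (Fin n) ℝ) (x : E n) : act (M ^ (0 : ℤ)) x = x := by
  simp [act]

lemma sc_scale_zero (A : Matrix (Fin n) (Fin n) ℝ) (Ψ : Fin L → E n → ℂ) (l : Fin L) (ξ : E n) :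
    sc A Ψ 0 l ξ = Ψ l ξ := by
  simp [sc, act]

lemma ivec_mem_zero (A : Matrix (Fin n) (Fin n) ℝ) (p : Fin n → ℤ) : ivec p ∈ Gam A 0 :=
  mem_Gam'.mpr ⟨p, act_zpow_zero _ _⟩

lemma ivec_inj {p q : Fin n → ℤ} (h : (ivec p : E n) = ivec q) : p = q := by
  funext i
  have := congrArg (fun x : E n => x.ofLp i) h
  simpa [ivec] using this

/-- The index of a common vector in the lattice of scale `j`. -/
def qi (A : Matrix (Fin n) (Fin n) ℝ) (j : ℤ) (γ : Cm A 0 j) : Fin n → ℤ :=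
  (mem_Gam'.mp γ.2.2).choose

lemma qi_spec (A : Matrix (Fin n) (Fin n) ℝ) (j : ℤ) (γ : Cm A 0 j) :
    act (Aᵀ ^ j) (ivec (qi A j γ)) = γ.1 := (mem_Gam'.mp γ.2.2).choose_spec

lemma qi_inj (A : Matrix (Fin n) (Fin n) ℝ) (j : ℤ) : Function.Injective (qi A j) := by
  intro γ δ h
  apply Subtype.ext
  rw [← qi_spec A j γ, ← qi_spec A j δ, h]

/-- The common vectors as integer vectors. -/
def eqv (A : Matrix (Fin n) (Fin n) ℝ) (j : ℤ) :
    {p : Fin n → ℤ // (ivec p : E n) ∈ Gam A j} ≃ Cm A 0 j := by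
  refine Equiv.ofBijective (fun p => ⟨ivec p.1, ivec_mem_zero A p.1, p.2⟩) ⟨?_, ?_⟩
  · intro p q h
    apply Subtype.ext
    exact ivec_inj (congrArg Subtype.val h)
  · intro γ
    obtain ⟨p, hp⟩ := mem_Gam'.mp γ.2.1
    rw [act_zpow_zero] at hp
    exact ⟨⟨p, hp ▸ γ.2.2⟩, Subtype.ext hp⟩

lemma eqv_coe (A : Matrix (Fin n) (Fin n) ℝ) (j : ℤ)
    (p : {p : Fin n → ℤ // (ivec p : E n) ∈ Gam A j}) : ((eqv A j p : Cm A 0 j) : E n) = ivec p.1 :=
  rfl

lemma sum_Cm {A : Matrix (Fin n) (Fin n) ℝ} {Ψ : Fin L → E n → ℂ} {K : ℝ} {j : ℤ} {l : Fin L}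
    {ξ : E n}
    (hs : Summable (fun p : Fin n → ℤ => ‖sc A Ψ j l (ξ + act (Aᵀ ^ j) (ivec p))‖))
    (hb : ∑' p : Fin n → ℤ, ‖sc A Ψ j l (ξ + act (Aᵀ ^ j) (ivec p))‖ ≤ K) :
    Summable (fun γ : Cm A 0 j => ‖sc A Ψ j l (ξ + γ)‖) ∧
      ∑' γ : Cm A 0 j, ‖sc A Ψ j l (ξ + γ)‖ ≤ K := by
  have e : ∀ γ : Cm A 0 j, ‖sc A Ψ j l (ξ + γ)‖ =
      ‖sc A Ψ j l (ξ + act (Aᵀ ^ j) (ivec (qi A j γ)))‖ := by
    intro γ
    rw [qi_spec]
  have h1 : Summable (fun γ : Cm A 0 j => ‖sc A Ψ j l (ξ + γ)‖) := by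
    simp only [e]
    exact hs.comp_injective (qi_inj A j)
  refine ⟨h1, le_trans ?_ hb⟩
  refine h1.tsum_le_tsum_of_inj (qi A j) (qi_inj A j) (fun _ _ => norm_nonneg _) ?_ hs
  intro γ
  exact (e γ).le

end Pool.Agent.Helper56.WV.B1

namespace Pool.Agent.Helper56.WV

open Wav B1

/-- **B1.** -/
theorem p_B1 (hGW : St_GW) (hDY : St_DY) (hLS : St_LS) (hSB : St_SB) (hI0 : St_I0) : St_B1 := by
  classical
  intro n L A Ψ N W u ξ hξ
  obtain ⟨K1, hK1, hLSb⟩ := hLS n L A Ψ N W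
  obtain ⟨K2, hK2, hSBb⟩ := hSB n L A Ψ N W
  obtain ⟨K3, hK3, hbd⟩ := W.bound
  obtain ⟨K4, hK4, hdb⟩ := W.dbound
  have hI := hI0 n L A Ψ N W
  have hN0 : 0 ≤ N := by
    have := W.hN
    have h0 : (0 : ℝ) ≤ n := Nat.cast_nonneg n
    linarith
  have hΨ : ∀ l (ζ : E n), ‖Ψ l ζ‖ ≤ K3 := by
    intro l ζ
    refine (hbd l ζ).trans ?_
    have : (1 + ‖ζ‖) ^ (-N) ≤ 1 :=
      Real.rpow_le_one_of_one_le_of_nonpos (by linarith [norm_nonneg ζ]) (by linarith)
    calc K3 * (1 + ‖ζ‖) ^ (-N) ≤ K3 * 1 := mul_le_mul_of_nonneg_left this hK3.le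
      _ = K3 := mul_one _
  have hdΨ : ∀ l (ζ : E n), ‖fderiv ℝ (Ψ l) ζ u‖ ≤ K4 * ‖u‖ := fun l ζ =>
    ((fderiv ℝ (Ψ l) ζ).le_opNorm u).trans (mul_le_mul_of_nonneg_right (hdb l ζ) (norm_nonneg u))
  set a : E n → ℂ := fun γ => ∑ l, fderiv ℝ (Ψ l) (ξ + γ) u * conj (Ψ l ξ) with ha
  set Ka : ℝ := ∑ _l : Fin L, K4 * ‖u‖ * K3 with hKa
  have hKa0 : 0 ≤ Ka := Finset.sum_nonneg fun _ _ => by positivity
  have ha_le : ∀ γ, ‖a γ‖ ≤ Ka := by
    intro γ
    refine (norm_sum_le _ _).trans (Finset.sum_le_sum fun l _ => ?_)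
    rw [norm_mul, RCLike.norm_conj]
    exact mul_le_mul (hdΨ l _) (hΨ l ξ) (norm_nonneg _) (by positivity)
  -- the summands
  set F : ℤ → (Fin n → ℤ) → ℂ := fun j p => a (ivec p) * ker A Ψ j ξ (ξ + ivec p) with hF
  set g : ℤ → E n → ℂ := fun j γ => a γ * ∑ l', sc A Ψ j l' ξ * conj (sc A Ψ j l' (ξ + γ)) with hg
  have hFind : ∀ j, F j = indicator {p : Fin n → ℤ | (ivec p : E n) ∈ Gam A j}
      (fun p => g j (ivec p)) := by
    intro j
    funext p
    simp only [hF, hg, ker, add_sub_cancel_left, indicator, mem_ofPred_eq]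
    split_ifs
    · rfl
    · rw [mul_zero]
  have hgle : ∀ j (γ : E n), ‖g j γ‖ ≤ Ka * ∑ l', ‖sc A Ψ j l' ξ‖ * ‖sc A Ψ j l' (ξ + γ)‖ := by
    intro j γ
    simp only [hg, norm_mul]
    refine mul_le_mul (ha_le γ) ?_ (norm_nonneg _) hKa0
    refine (norm_sum_le _ _).trans (Finset.sum_le_sum fun l _ => ?_)
    rw [norm_mul, RCLike.norm_conj]
  have hCm : ∀ j l, Summable (fun γ : Cm A 0 j => ‖sc A Ψ j l (ξ + γ)‖) ∧
      ∑' γ : Cm A 0 j, ‖sc A Ψ j l (ξ + γ)‖ ≤ K1 := fun j l =>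
    sum_Cm (hLSb j l ξ).1 (hLSb j l ξ).2
  have hbound_s : ∀ j, Summable (fun γ : Cm A 0 j =>
      Ka * ∑ l', ‖sc A Ψ j l' ξ‖ * ‖sc A Ψ j l' (ξ + γ)‖) := by
    intro j
    refine Summable.mul_left _ ?_
    exact summable_sum fun l _ => ((hCm j l).1).mul_left _
  have hgs : ∀ j, Summable (fun γ : Cm A 0 j => ‖g j γ‖) := fun j =>
    Summable.of_nonneg_of_le (fun _ => norm_nonneg _) (fun γ => hgle j γ) (hbound_s j)
  have hgt : ∀ j, ∑' γ : Cm A 0 j, ‖g j γ‖ ≤ Ka * ∑ l', ‖sc A Ψ j l' ξ‖ * K1 := by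
    intro j
    refine (Summable.tsum_le_tsum (fun γ : Cm A 0 j => hgle j γ) (hgs j) (hbound_s j)).trans ?_
    rw [tsum_mul_left]
    refine mul_le_mul_of_nonneg_left ?_ hKa0
    rw [Summable.tsum_finsetSum (fun l _ => ((hCm j l).1).mul_left _)]
    refine Finset.sum_le_sum fun l _ => ?_
    rw [tsum_mul_left]
    exact mul_le_mul_of_nonneg_left (hCm j l).2 (norm_nonneg _)
  -- transfer to integer vectors
  have hnormind : ∀ j, (fun p => ‖F j p‖) = indicator {p : Fin n → ℤ | (ivec p : E n) ∈ Gam A j}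
      (fun p => ‖g j (ivec p)‖) := by
    intro j
    funext p
    rw [hFind j, norm_indicator_eq_indicator_norm]
  have hFs : ∀ j, Summable (fun p => ‖F j p‖) := by
    intro j
    rw [hnormind j, ← summable_subtype_iff_indicator]
    have := ((eqv A j).summable_iff).mpr (hgs j)
    exact this
  have hFt : ∀ j, ∑' p, ‖F j p‖ = ∑' γ : Cm A 0 j, ‖g j γ‖ := by
    intro j
    rw [hnormind j, ← tsum_subtype, ← (eqv A j).tsum_eq (fun γ : Cm A 0 j => ‖g j γ‖)]
    rfl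
  have hFt' : ∀ j, ∑' p, F j p = ∑' γ : Cm A 0 j, g j γ := by
    intro j
    rw [hFind j, ← tsum_subtype, ← (eqv A j).tsum_eq (fun γ : Cm A 0 j => g j γ)]
    rfl
  have hprodn : Summable (fun x : ℤ × (Fin n → ℤ) => ‖F x.1 x.2‖) := by
    rw [summable_prod_of_nonneg (fun _ => norm_nonneg _)]
    refine ⟨fun j => hFs j, ?_⟩
    refine Summable.of_nonneg_of_le (fun j => tsum_nonneg fun _ => norm_nonneg _)
      (fun j => (hFt j).le.trans (hgt j)) ?_
    refine Summable.mul_left _ ?_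
    exact summable_sum fun l _ => ((hSBb l ξ).1).mul_right _
  have hprod : Summable (fun x : ℤ × (Fin n → ℤ) => F x.1 x.2) := hprodn.of_norm
  have hcomm : ∑' j, ∑' p, F j p = ∑' p, ∑' j, F j p :=
    (Summable.tsum_comm (f := F) hprod).symm
  have hGs : Summable (fun j => ∑' p, F j p) := hprod.prod
  -- the sum over the scales
  have hP : ∀ p : Fin n → ℤ, ∑' j, F j p = if p = 0 then a 0 else 0 := by
    intro p
    simp only [hF]
    rw [tsum_mul_left]
    by_cases hp : p = 0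
    · subst hp
      rw [ivec_zero, add_zero, hGW n L A Ψ N W ξ ξ hξ hξ]
      simp
    · have hp' : (ivec p : E n) ≠ 0 := fun h => hp (WavN.ivec_eq_zero h)
      rw [if_neg hp]
      by_cases h0 : ξ + ivec p = 0
      · have : ∀ j, ker A Ψ j ξ (ξ + ivec p) = 0 := by
          intro j
          rw [h0]
          unfold ker
          split_ifs
          · refine Finset.sum_eq_zero fun l _ => ?_
            have : sc A Ψ j l 0 = 0 := by
              unfold sc
              rw [act_zero, hI l]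
            rw [this, map_zero, mul_zero]
          · rfl
        simp only [this, tsum_zero, mul_zero]
      · rw [hGW n L A Ψ N W ξ (ξ + ivec p) hξ h0, if_neg ?_, mul_zero]
        intro h
        exact hp' (by simpa using h)
  have ha0 : ∑' j, ∑' p, F j p = a 0 := by
    rw [hcomm]
    simp only [hP]
    exact tsum_ite_eq 0 _
  -- the terms
  have hterm : ∀ j, ∑' p, F j p = ∑ l, ∑ l', sc A Ψ j l' ξ * conj (Ψ l ξ) * XX A Ψ j u l' l ξ := by
    intro j
    rw [hFt' j]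
    have hsum : ∀ l l' : Fin L, Summable (fun γ : Cm A 0 j =>
        conj (sc A Ψ j l' (ξ + γ)) * fderiv ℝ (Ψ l) (ξ + γ) u) := by
      intro l l'
      refine Summable.of_norm_bounded (((hCm j l').1).mul_right (K4 * ‖u‖)) fun γ => ?_
      rw [norm_mul, RCLike.norm_conj]
      exact mul_le_mul_of_nonneg_left (hdΨ l _) (norm_nonneg _)
    have e : ∀ γ : Cm A 0 j, g j γ = ∑ l, ∑ l', sc A Ψ j l' ξ * conj (Ψ l ξ) *
        (conj (sc A Ψ j l' (ξ + γ)) * fderiv ℝ (Ψ l) (ξ + γ) u) := by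
      intro γ
      simp only [hg, ha]
      rw [Finset.sum_mul]
      refine Finset.sum_congr rfl fun l _ => ?_
      rw [Finset.mul_sum]
      refine Finset.sum_congr rfl fun l' _ => ?_
      ring
    simp only [e]
    rw [Summable.tsum_finsetSum (fun l _ => summable_sum fun l' _ => (hsum l l').mul_left _)]
    refine Finset.sum_congr rfl fun l _ => ?_
    rw [Summable.tsum_finsetSum (fun l' _ => (hsum l l').mul_left _)]
    refine Finset.sum_congr rfl fun l' _ => ?_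
    rw [tsum_mul_left]
    rfl
  -- the term of scale zero
  set T : ℂ := ∑ l, ∑ l', sc A Ψ 0 l' ξ * conj (Ψ l ξ) * XX A Ψ 0 u l' l ξ with hT
  have hY : ∀ l' l : Fin L, XX A Ψ 0 u l' l ξ =
      ∑' p : Fin n → ℤ, conj (Ψ l' (ξ + ivec p)) * fderiv ℝ (Ψ l) (ξ + ivec p) u := by
    intro l' l
    unfold XX
    rw [← (eqv A 0).tsum_eq (fun γ : Cm A 0 0 => conj (sc A Ψ 0 l' (ξ + γ)) *
      fderiv ℝ (Ψ l) (ξ + γ) u)]
    simp only [eqv_coe, sc_scale_zero]
    have huniv : {p : Fin n → ℤ | (ivec p : E n) ∈ Gam A 0} = univ :=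
      eq_univ_of_forall fun p => ivec_mem_zero A p
    have h1 := tsum_subtype {p : Fin n → ℤ | (ivec p : E n) ∈ Gam A 0}
      (fun p => conj (Ψ l' (ξ + ivec p)) * fderiv ℝ (Ψ l) (ξ + ivec p) u)
    rw [huniv, indicator_univ] at h1
    rw [← h1]
    rw [← huniv]
    rfl
  have hTre : T.re = 0 := by
    have hconj : conj T = -T := by
      rw [hT, map_sum, ← Finset.sum_neg_distrib]
      simp only [map_sum, ← Finset.sum_neg_distrib, map_mul, Complex.conj_conj, sc_scale_zero]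
      rw [Finset.sum_comm]
      refine Finset.sum_congr rfl fun l _ => Finset.sum_congr rfl fun l' _ => ?_
      have h1 := hDY n L A Ψ N W l' l u ξ
      rw [← hY, ← hY] at h1
      rw [h1, map_neg, Complex.conj_conj]
      ring
    have := congrArg Complex.re hconj
    rw [Complex.conj_re, Complex.neg_re] at this
    linarith
  have hfj : (fun j => fj A Ψ j u ξ) = fun j => (∑' p, F j p) - if j = 0 then T else 0 := by
    funext j
    rw [hterm j]
    unfold fj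
    split_ifs with h
    · subst h
      rw [hT, sub_self]
    · rw [sub_zero]
  have hTs : Summable (fun j : ℤ => if j = 0 then T else 0) :=
    summable_of_ne_finset_zero (s := {0}) fun j hj => if_neg (by simpa using hj)
  have hsumfj : ∑' j, fj A Ψ j u ξ = a 0 - T := by
    rw [hfj, hGs.tsum_sub hTs, ha0, tsum_ite_eq]
  -- the gradient
  have hgrad : fderiv ℝ (fun ζ => dg A Ψ 0 ζ) ξ u = 2 * (a 0).re := by
    have e : (fun ζ => dg A Ψ 0 ζ) = fun ζ => ∑ l, ‖Ψ l ζ‖ ^ 2 := by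
      funext ζ
      simp only [dg, sc_scale_zero]
    have hd : ∀ l, HasFDerivAt (fun ζ => ‖Ψ l ζ‖ ^ 2)
        (2 • (innerSL ℝ (Ψ l ξ)).comp (fderiv ℝ (Ψ l) ξ)) ξ := fun l =>
      ((W.smooth l).differentiable one_ne_zero ξ).hasFDerivAt.norm_sq
    have hs := HasFDerivAt.fun_sum (u := Finset.univ) fun l (_ : l ∈ Finset.univ) => hd l
    rw [e, hs.fderiv]
    simp only [ha, add_zero]
    rw [Complex.re_sum, Finset.mul_sum, _root_.sum_apply]
    refine Finset.sum_congr rfl fun l _ => ?_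
    simp only [_root_.smul_apply, ContinuousLinearMap.comp_apply, innerSL_apply_apply,
      Complex.inner, nsmul_eq_mul]
    simp only [Complex.mul_re, Complex.conj_re, Complex.conj_im]
    push_cast
    ring
  rw [hgrad, hsumfj, Complex.sub_re, hTre, sub_zero]

end Pool.Agent.Helper56.WV
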