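import Pool.Agent.Helper56.WV.M_B1

/-!
# Project WV (MP_d629b1_an): module B3

The coset law.
-/

set_option autoImplicit false

open MeasureTheory Set
open scoped RealInnerProductSpace Matrix ComplexConjugate

noncomputable section

namespace Pool.Agent.Helper56.WV.B3

open Wav B1

variable {n L : ℕ}

/-- The index of a common vector in the integer lattice. -/
def q0 (A : Matrix (Fin n) (Fin n) ℝ) (j : ℤ) (γ : Cm A 0 j) : Fin n → ℤ :=
  (mem_Gam'.mp γ.2.1).choose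

lemma q0_spec (A : Matrix (Fin n) (Fin n) ℝ) (j : ℤ) (γ : Cm A 0 j) :
    act (Aᵀ ^ (0 : ℤ)) (ivec (q0 A j γ)) = γ.1 := (mem_Gam'.mp γ.2.1).choose_spec

lemma q0_inj (A : Matrix (Fin n) (Fin n) ℝ) (j : ℤ) : Function.Injective (q0 A j) := by
  intro γ δ h
  apply Subtype.ext
  rw [← q0_spec A j γ, ← q0_spec A j δ, h]

lemma countable_Cm (A : Matrix (Fin n) (Fin n) ℝ) (j : ℤ) : Countable (Cm A 0 j) :=
  (q0_inj A j).countable

/-- Negation on the common vectors. -/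
def negE (A : Matrix (Fin n) (Fin n) ℝ) (i j : ℤ) : Cm A i j ≃ Cm A i j where
  toFun γ := ⟨-γ.1, neg_mem γ.2.1, neg_mem γ.2.2⟩
  invFun γ := ⟨-γ.1, neg_mem γ.2.1, neg_mem γ.2.2⟩
  left_inv γ := Subtype.ext (neg_neg _)
  right_inv γ := Subtype.ext (neg_neg _)

lemma negE_coe (A : Matrix (Fin n) (Fin n) ℝ) (i j : ℤ) (γ : Cm A i j) :
    ((negE A i j γ : Cm A i j) : E n) = -γ.1 := rfl

lemma sum_Cm0 {A : Matrix (Fin n) (Fin n) ℝ} {Ψ : Fin L → E n → ℂ} {K : ℝ} {j : ℤ} {l : Fin L}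
    {ξ : E n}
    (hs : Summable (fun p : Fin n → ℤ => ‖sc A Ψ 0 l (ξ + act (Aᵀ ^ (0 : ℤ)) (ivec p))‖))
    (hb : ∑' p : Fin n → ℤ, ‖sc A Ψ 0 l (ξ + act (Aᵀ ^ (0 : ℤ)) (ivec p))‖ ≤ K) :
    Summable (fun γ : Cm A 0 j => ‖Ψ l (ξ + γ)‖) ∧
      ∑' γ : Cm A 0 j, ‖Ψ l (ξ + γ)‖ ≤ K := by
  have e : ∀ γ : Cm A 0 j, ‖Ψ l (ξ + γ)‖ =
      ‖sc A Ψ 0 l (ξ + act (Aᵀ ^ (0 : ℤ)) (ivec (q0 A j γ)))‖ := by
    intro γ
    rw [q0_spec, sc_scale_zero]
  have h1 : Summable (fun γ : Cm A 0 j => ‖Ψ l (ξ + γ)‖) := by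
    simp only [e]
    exact hs.comp_injective (q0_inj A j)
  refine ⟨h1, le_trans ?_ hb⟩
  refine h1.tsum_le_tsum_of_inj (q0 A j) (q0_inj A j) (fun _ _ => norm_nonneg _) ?_ hs
  intro γ
  exact (e γ).le

/-- Decay of the dilated generators. -/
lemma sc_decay {A : Matrix (Fin n) (Fin n) ℝ} (hdet : A.det ≠ 0) {Ψ : Fin L → E n → ℂ} {K N : ℝ}
    (hN : 0 ≤ N) (hK : 0 ≤ K) (hb : ∀ l ξ, ‖Ψ l ξ‖ ≤ K * (1 + ‖ξ‖) ^ (-N)) (j : ℤ) :
    ∃ C : ℝ, 0 ≤ C ∧ ∀ (l : Fin L) (ξ : E n), ‖sc A Ψ j l ξ‖ ≤ C * (1 + ‖ξ‖) ^ (-N) := by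
  have hu : IsUnit (Aᵀ).det := by
    rw [Matrix.det_transpose]
    exact isUnit_iff_ne_zero.mpr hdet
  set M : Matrix (Fin n) (Fin n) ℝ := Aᵀ ^ j with hM
  set f : E n →L[ℝ] E n := LinearMap.toContinuousLinearMap (Matrix.toEuclideanLin M) with hf
  have hfa : ∀ x : E n, f x = act M x := fun x => rfl
  set c : ℝ := (‖f‖ + 1)⁻¹ with hc
  have hfp : 0 < ‖f‖ + 1 := by positivity
  have hc0 : 0 < c := inv_pos.mpr hfp
  have hc1 : c ≤ 1 := inv_le_one_of_one_le₀ (by linarith [norm_nonneg f])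
  have hcan : ∀ ξ : E n, act M (act (Aᵀ ^ (-j)) ξ) = ξ := by
    intro ξ
    rw [hM, ← act_mul, ← Matrix.zpow_add hu, add_neg_cancel, zpow_zero, act_one]
  have hlow : ∀ ξ : E n, c * ‖ξ‖ ≤ ‖act (Aᵀ ^ (-j)) ξ‖ := by
    intro ξ
    have h1 : ‖ξ‖ ≤ (‖f‖ + 1) * ‖act (Aᵀ ^ (-j)) ξ‖ := by
      have h2 := f.le_opNorm (act (Aᵀ ^ (-j)) ξ)
      rw [hfa, hcan] at h2
      nlinarith [norm_nonneg (act (Aᵀ ^ (-j)) ξ)]
    calc c * ‖ξ‖ ≤ c * ((‖f‖ + 1) * ‖act (Aᵀ ^ (-j)) ξ‖) := mul_le_mul_of_nonneg_left h1 hc0.le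
      _ = ‖act (Aᵀ ^ (-j)) ξ‖ := by
          rw [← mul_assoc, hc, inv_mul_cancel₀ hfp.ne', one_mul]
  refine ⟨K * c ^ (-N), by positivity, ?_⟩
  intro l ξ
  have hp : 0 < 1 + ‖ξ‖ := by linarith [norm_nonneg ξ]
  refine (hb l _).trans ?_
  rw [mul_assoc]
  refine mul_le_mul_of_nonneg_left ?_ hK
  rw [← Real.mul_rpow hc0.le hp.le]
  refine Real.rpow_le_rpow_of_nonpos (by positivity) ?_ (by linarith)
  have := hlow ξ
  nlinarith [norm_nonneg ξ]

lemma sc_cont {A : Matrix (Fin n) (Fin n) ℝ} {Ψ : Fin L → E n → ℂ} (j : ℤ) (l : Fin L)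
    (h : Continuous (Ψ l)) : Continuous (sc A Ψ j l) :=
  h.comp (Wav.N1.act_cont _)

end Pool.Agent.Helper56.WV.B3

namespace Pool.Agent.Helper56.WV

open Wav B1 B3

/-- **B3.** -/
theorem p_B3 (hI2 : St_I2) (hLS : St_LS) : St_B3 := by
  classical
  intro n L A Ψ N W j u d hd
  by_cases hj : j = 0
  · subst hj
    simp [fj]
  obtain ⟨K1, hK1, hLSb⟩ := hLS n L A Ψ N W
  obtain ⟨K3, hK3, hbd⟩ := W.bound
  obtain ⟨K4, hK4, hdb⟩ := W.dbound
  have hn0 : (0 : ℝ) ≤ n := Nat.cast_nonneg n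
  have hN1 : (n : ℝ) + 1 < N := W.hN
  have hN0 : 0 ≤ N := by linarith
  have hdet : A.det ≠ 0 := expansive_det W.exp
  obtain ⟨K5, hK5, hsc⟩ := sc_decay hdet hN0 hK3.le hbd j
  haveI : Countable (Cm A 0 j) := countable_Cm A j
  have hrle : ∀ ζ : E n, (1 + ‖ζ‖) ^ (-N) ≤ 1 := fun ζ =>
    Real.rpow_le_one_of_one_le_of_nonpos (by linarith [norm_nonneg ζ]) (by linarith)
  have hscb : ∀ l (ζ : E n), ‖sc A Ψ j l ζ‖ ≤ K5 := by
    intro l ζ
    refine (hsc l ζ).trans ?_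
    calc K5 * (1 + ‖ζ‖) ^ (-N) ≤ K5 * 1 := mul_le_mul_of_nonneg_left (hrle ζ) hK5
      _ = K5 := mul_one _
  have hdΨ : ∀ l (ζ : E n), ‖fderiv ℝ (Ψ l) ζ u‖ ≤ K4 * ‖u‖ := fun l ζ =>
    ((fderiv ℝ (Ψ l) ζ).le_opNorm u).trans (mul_le_mul_of_nonneg_right (hdb l ζ) (norm_nonneg u))
  have hΨc : ∀ l, Continuous (Ψ l) := fun l => (W.smooth l).continuous
  have hscc : ∀ l, Continuous (sc A Ψ j l) := fun l => sc_cont j l (hΨc l)
  have hdc : ∀ l, Continuous (fun ζ => fderiv ℝ (Ψ l) ζ u) := fun l =>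
    ((W.smooth l).continuous_fderiv one_ne_zero).clm_apply continuous_const
  set dd : E n → ℂ := fun ζ => ((⟪d, ζ⟫ : ℝ) : ℂ) with hdd
  have hddc : Continuous dd := Complex.continuous_ofReal.comp (continuous_const.inner continuous_id)
  set G : Fin L → Fin L → E n → ℂ := fun l l' ζ => sc A Ψ j l' ζ * conj (Ψ l ζ) with hG
  set H : Fin L → Fin L → E n → ℂ := fun l l' ζ =>
    conj (sc A Ψ j l' ζ) * fderiv ℝ (Ψ l) ζ u with hH
  have hGc : ∀ l l', Continuous (G l l') := fun l l' =>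
    (hscc l').mul (Complex.continuous_conj.comp (hΨc l))
  have hHc : ∀ l l', Continuous (H l l') := fun l l' =>
    (Complex.continuous_conj.comp (hscc l')).mul (hdc l)
  -- integrability of `H * dd`
  have hHint : ∀ l l', Integrable (fun ζ => H l l' ζ * dd ζ) := by
    intro l l'
    have hdom : Integrable (fun ζ : E n => (K5 * (K4 * ‖u‖) * ‖d‖) * (1 + ‖ζ‖) ^ (-(N - 1))) := by
      refine Integrable.const_mul ?_ _
      refine integrable_one_add_norm ?_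
      rw [finrank_euclideanSpace, Fintype.card_fin]
      linarith
    refine hdom.mono' ((hHc l l').mul hddc).aestronglyMeasurable
      (Filter.Eventually.of_forall fun ζ => ?_)
    have hp : (0 : ℝ) < 1 + ‖ζ‖ := by linarith [norm_nonneg ζ]
    have a3 : (1 + ‖ζ‖) ^ (-(N - 1)) = (1 + ‖ζ‖) ^ (-N) * (1 + ‖ζ‖) := by
      rw [show -(N - 1) = -N + 1 by ring, Real.rpow_add hp, Real.rpow_one]
    have a1 : ‖H l l' ζ‖ ≤ K5 * (1 + ‖ζ‖) ^ (-N) * (K4 * ‖u‖) := by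
      simp only [hH, norm_mul, RCLike.norm_conj]
      exact mul_le_mul (hsc l' ζ) (hdΨ l ζ) (norm_nonneg _) (by positivity)
    have a2 : ‖dd ζ‖ ≤ ‖d‖ * (1 + ‖ζ‖) := by
      simp only [hdd, Complex.norm_real]
      exact (norm_inner_le_norm d ζ).trans
        (mul_le_mul_of_nonneg_left (by linarith) (norm_nonneg d))
    rw [norm_mul, a3]
    calc ‖H l l' ζ‖ * ‖dd ζ‖ ≤ (K5 * (1 + ‖ζ‖) ^ (-N) * (K4 * ‖u‖)) * (‖d‖ * (1 + ‖ζ‖)) :=
          mul_le_mul a1 a2 (norm_nonneg _) (by positivity)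
      _ = _ := by ring
  -- the lattice sums of `Ψ`
  have hΨs : ∀ l (ζ : E n), Summable (fun γ : Cm A 0 j => ‖Ψ l (ζ - γ)‖) ∧
      ∑' γ : Cm A 0 j, ‖Ψ l (ζ - γ)‖ ≤ K1 := by
    intro l ζ
    have h := sum_Cm0 (j := j) (hLSb 0 l ζ).1 (hLSb 0 l ζ).2
    have e : (fun γ : Cm A 0 j => ‖Ψ l (ζ - γ)‖) =
        (fun γ : Cm A 0 j => ‖Ψ l (ζ + γ)‖) ∘ (negE A 0 j) := by
      funext γ
      simp only [Function.comp_apply, negE_coe, sub_eq_add_neg]
    rw [e]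
    refine ⟨((negE A 0 j).summable_iff).mpr h.1, ?_⟩
    rw [show (fun γ : Cm A 0 j => ‖Ψ l (ζ + γ)‖) ∘ (negE A 0 j) =
      fun γ => (fun γ : Cm A 0 j => ‖Ψ l (ζ + γ)‖) (negE A 0 j γ) from rfl,
      (negE A 0 j).tsum_eq (fun γ : Cm A 0 j => ‖Ψ l (ζ + γ)‖)]
    exact h.2
  have hGle : ∀ l l' (ζ : E n), ‖G l l' ζ‖ ≤ K5 * ‖Ψ l ζ‖ := by
    intro l l' ζ
    simp only [hG, norm_mul, RCLike.norm_conj]
    exact mul_le_mul_of_nonneg_right (hscb l' ζ) (norm_nonneg _)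
  have hΨb : ∀ l (ζ : E n), ‖Ψ l ζ‖ ≤ K3 := by
    intro l ζ
    refine (hbd l ζ).trans ?_
    calc K3 * (1 + ‖ζ‖) ^ (-N) ≤ K3 * 1 := mul_le_mul_of_nonneg_left (hrle ζ) hK3.le
      _ = K3 := mul_one _
  -- the translated summands
  set F : Cm A 0 j → E n → ℂ := fun γ ζ => ∑ l, ∑ l', G l l' (ζ - γ) * (H l l' ζ * dd ζ) with hF
  have hFint : ∀ γ, Integrable (F γ) := by
    intro γ
    refine integrable_finsetSum _ fun l _ => integrable_finsetSum _ fun l' _ => ?_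
    refine (hHint l l').bdd_mul (c := K5 * K3)
      ((hGc l l').comp (continuous_id.sub continuous_const)).aestronglyMeasurable ?_
    refine Filter.Eventually.of_forall fun ζ => ?_
    exact (hGle l l' _).trans (mul_le_mul_of_nonneg_left (hΨb l _) hK5)
  have hFsum : Summable (fun γ => ∫ ζ, ‖F γ ζ‖) := by
    refine summable_of_sum_le (c := ∫ ζ, ∑ l, ∑ l', (K5 * K1) * ‖H l l' ζ * dd ζ‖)
      (fun _ => integral_nonneg fun _ => norm_nonneg _) ?_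
    intro S
    rw [← integral_finsetSum _ (fun γ _ => (hFint γ).norm)]
    refine integral_mono (integrable_finsetSum _ fun γ _ => (hFint γ).norm)
      (integrable_finsetSum _ fun l _ => integrable_finsetSum _ fun l' _ =>
        ((hHint l l').norm.const_mul _)) ?_
    intro ζ
    simp only
    calc ∑ γ ∈ S, ‖F γ ζ‖ ≤ ∑ γ ∈ S, ∑ l, ∑ l', K5 * ‖Ψ l (ζ - γ)‖ * ‖H l l' ζ * dd ζ‖ := by
          refine Finset.sum_le_sum fun γ _ => ?_
          refine (norm_sum_le _ _).trans (Finset.sum_le_sum fun l _ => ?_)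
          refine (norm_sum_le _ _).trans (Finset.sum_le_sum fun l' _ => ?_)
          rw [norm_mul]
          exact mul_le_mul_of_nonneg_right (hGle l l' _) (norm_nonneg _)
      _ = ∑ l, ∑ l', (K5 * ∑ γ ∈ S, ‖Ψ l (ζ - γ)‖) * ‖H l l' ζ * dd ζ‖ := by
          rw [Finset.sum_comm]
          refine Finset.sum_congr rfl fun l _ => ?_
          rw [Finset.sum_comm]
          refine Finset.sum_congr rfl fun l' _ => ?_
          rw [Finset.mul_sum, Finset.sum_mul]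
      _ ≤ _ := by
          refine Finset.sum_le_sum fun l _ => Finset.sum_le_sum fun l' _ => ?_
          refine mul_le_mul_of_nonneg_right ?_ (norm_nonneg _)
          refine mul_le_mul_of_nonneg_left ?_ hK5
          exact ((hΨs l ζ).1.sum_le_tsum S (fun _ _ => norm_nonneg _)).trans (hΨs l ζ).2
  -- the sum of the translated summands vanishes
  have hG0 : ∀ l l' (ζ : E n), ∑' γ : Cm A 0 j, G l l' (ζ - γ) = 0 := by
    intro l l' ζ
    have h := (hI2 n L A Ψ N W 0 j (Ne.symm hj) l l' ζ).2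
    have h2 := congrArg conj h
    rw [map_zero, Complex.conj_tsum] at h2
    rw [← (negE A 0 j).tsum_eq (fun γ : Cm A 0 j => conj (sc A Ψ 0 l (ζ + γ) *
      conj (sc A Ψ j l' (ζ + γ))))] at h2
    rw [← h2]
    refine tsum_congr fun γ => ?_
    simp only [hG, negE_coe, ← sub_eq_add_neg, map_mul, Complex.conj_conj, sc_scale_zero]
    ring
  have hGs : ∀ l l' (ζ : E n), Summable (fun γ : Cm A 0 j => G l l' (ζ - γ)) := by
    intro l l' ζ
    exact Summable.of_norm_bounded ((hΨs l ζ).1.mul_left K5) fun γ => hGle l l' _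
  have hF0 : ∀ ζ, ∑' γ, F γ ζ = 0 := by
    intro ζ
    simp only [hF]
    rw [Summable.tsum_finsetSum
      (fun l _ => summable_sum fun l' _ => (hGs l l' ζ).mul_right _)]
    refine Finset.sum_eq_zero fun l _ => ?_
    rw [Summable.tsum_finsetSum (fun l' _ => (hGs l l' ζ).mul_right _)]
    refine Finset.sum_eq_zero fun l' _ => ?_
    rw [tsum_mul_right, hG0, zero_mul]
  have hsumF : ∑' γ, ∫ ζ, F γ ζ = 0 := by
    rw [integral_tsum_of_summable_integral_norm hFint hFsum]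
    simp only [hF0, integral_zero]
  -- the original summands
  set f : Cm A 0 j → E n → ℂ := fun γ ξ => F γ (ξ + γ) with hf
  have hfint : ∀ γ, Integrable (f γ) := fun γ => (hFint γ).comp_add_right _
  have hfF : ∀ γ, ∫ ξ, f γ ξ = ∫ ζ, F γ ζ := fun γ => integral_add_right_eq_self (F γ) _
  have hfF' : ∀ γ, ∫ ξ, ‖f γ ξ‖ = ∫ ζ, ‖F γ ζ‖ := fun γ =>
    integral_add_right_eq_self (fun ζ => ‖F γ ζ‖) _
  have hfsum : Summable (fun γ => ∫ ξ, ‖f γ ξ‖) := by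
    simp only [hfF']
    exact hFsum
  have hmain : ∫ ξ, ∑' γ, f γ ξ = 0 := by
    rw [← integral_tsum_of_summable_integral_norm hfint hfsum]
    simp only [hfF]
    exact hsumF
  rw [← hmain]
  refine integral_congr_ae (Filter.Eventually.of_forall fun ξ => ?_)
  simp only
  have hHs : ∀ l l', Summable (fun γ : Cm A 0 j => H l l' (ξ + γ)) := by
    intro l l'
    refine Summable.of_norm_bounded
      (((sum_Cm (hLSb j l' ξ).1 (hLSb j l' ξ).2).1).mul_right (K4 * ‖u‖)) fun γ => ?_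
    simp only [hH, norm_mul, RCLike.norm_conj]
    exact mul_le_mul_of_nonneg_left (hdΨ l _) (norm_nonneg _)
  have hfe : ∀ γ : Cm A 0 j, f γ ξ = ∑ l, ∑ l', (G l l' ξ * dd ξ) * H l l' (ξ + γ) := by
    intro γ
    simp only [hf, hF, add_sub_cancel_right]
    have hdγ : dd (ξ + γ) = dd ξ := by
      simp only [hdd]
      rw [inner_add_right, hd γ.1 γ.2.1 γ.2.2, add_zero]
    rw [hdγ]
    refine Finset.sum_congr rfl fun l _ => Finset.sum_congr rfl fun l' _ => ?_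
    ring
  simp only [hfe]
  rw [Summable.tsum_finsetSum
    (fun l _ => summable_sum fun l' _ => (hHs l l').mul_left _)]
  unfold fj
  rw [if_neg hj, Finset.sum_mul]
  refine Finset.sum_congr rfl fun l _ => ?_
  rw [Summable.tsum_finsetSum (fun l' _ => (hHs l l').mul_left _), Finset.sum_mul]
  refine Finset.sum_congr rfl fun l' _ => ?_
  rw [tsum_mul_left]
  simp only [hG, hH, XX, hdd]
  ring

end Pool.Agent.Helper56.WV
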