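import Pool.Agent.Helper56.WV.M_B1

/-!
# Project WV (MP_d629b1_an): module B4

Bound for the currents.
-/

set_option autoImplicit false

open MeasureTheory Set
open scoped RealInnerProductSpace Matrix ComplexConjugate

noncomputable section

namespace Pool.Agent.Helper56.WV

open Wav B1

/-- **B4.** -/
theorem p_B4 (hLS : St_LS) (hSB : St_SB) : St_B4 := by
  classical
  intro n L A Ψ N W
  obtain ⟨K1, hK1, hLSb⟩ := hLS n L A Ψ N W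
  obtain ⟨K2, hK2, hSBb⟩ := hSB n L A Ψ N W
  obtain ⟨K3, hK3, hbd⟩ := W.bound
  obtain ⟨K4, hK4, hdb⟩ := W.dbound
  have hC0 : 0 ≤ ∑ _l : Fin L, ∑ _l' : Fin L, K2 * K3 * K4 * K1 :=
    Finset.sum_nonneg fun _ _ => Finset.sum_nonneg fun _ _ => by positivity
  refine ⟨(∑ _l : Fin L, ∑ _l' : Fin L, K2 * K3 * K4 * K1) + 1, by linarith, ?_⟩
  intro u ξ
  have hdΨ : ∀ l (ζ : E n), ‖fderiv ℝ (Ψ l) ζ u‖ ≤ K4 * ‖u‖ := fun l ζ =>
    ((fderiv ℝ (Ψ l) ζ).le_opNorm u).trans (mul_le_mul_of_nonneg_right (hdb l ζ) (norm_nonneg u))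
  have hXX : ∀ j (l' l : Fin L), ‖XX A Ψ j u l' l ξ‖ ≤ K1 * (K4 * ‖u‖) := by
    intro j l' l
    have h1 := sum_Cm (hLSb j l' ξ).1 (hLSb j l' ξ).2
    have hle : ∀ γ : Cm A 0 j, ‖conj (sc A Ψ j l' (ξ + γ)) * fderiv ℝ (Ψ l) (ξ + γ) u‖ ≤
        ‖sc A Ψ j l' (ξ + γ)‖ * (K4 * ‖u‖) := by
      intro γ
      rw [norm_mul, RCLike.norm_conj]
      exact mul_le_mul_of_nonneg_left (hdΨ l _) (norm_nonneg _)
    have h2 := h1.1.mul_right (K4 * ‖u‖)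
    have h3 : Summable (fun γ : Cm A 0 j =>
        ‖conj (sc A Ψ j l' (ξ + γ)) * fderiv ℝ (Ψ l) (ξ + γ) u‖) :=
      Summable.of_nonneg_of_le (fun _ => norm_nonneg _) hle h2
    refine (norm_tsum_le_tsum_norm h3).trans ?_
    refine (Summable.tsum_le_tsum hle h3 h2).trans ?_
    rw [tsum_mul_right]
    exact mul_le_mul_of_nonneg_right h1.2 (by positivity)
  have hfj : ∀ j, ‖fj A Ψ j u ξ‖ ≤ ∑ _l : Fin L, ∑ l' : Fin L,
      ‖sc A Ψ j l' ξ‖ * (K3 * (1 + ‖ξ‖) ^ (-N) * (K1 * (K4 * ‖u‖))) := by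
    intro j
    unfold fj
    split_ifs with h
    · rw [norm_zero]
      exact Finset.sum_nonneg fun _ _ => Finset.sum_nonneg fun _ _ => by positivity
    · refine (norm_sum_le _ _).trans (Finset.sum_le_sum fun l _ => ?_)
      refine (norm_sum_le _ _).trans (Finset.sum_le_sum fun l' _ => ?_)
      rw [norm_mul, norm_mul, RCLike.norm_conj, mul_assoc]
      refine mul_le_mul_of_nonneg_left ?_ (norm_nonneg _)
      exact mul_le_mul (hbd l ξ) (hXX j l' l) (norm_nonneg _) (by positivity)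
  have hs : Summable (fun j : ℤ => ∑ _l : Fin L, ∑ l' : Fin L,
      ‖sc A Ψ j l' ξ‖ * (K3 * (1 + ‖ξ‖) ^ (-N) * (K1 * (K4 * ‖u‖)))) :=
    summable_sum fun _ _ => summable_sum fun l' _ => ((hSBb l' ξ).1).mul_right _
  have hs' : Summable (fun j : ℤ => ‖fj A Ψ j u ξ‖) :=
    Summable.of_nonneg_of_le (fun _ => norm_nonneg _) hfj hs
  refine ⟨hs', (Summable.tsum_le_tsum hfj hs' hs).trans ?_⟩
  rw [Summable.tsum_finsetSum
    (fun _ _ => summable_sum fun l' _ => ((hSBb l' ξ).1).mul_right _)]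
  have hT : ∀ l ∈ (Finset.univ : Finset (Fin L)), ∑' j : ℤ, ∑ l' : Fin L,
      ‖sc A Ψ j l' ξ‖ * (K3 * (1 + ‖ξ‖) ^ (-N) * (K1 * (K4 * ‖u‖))) ≤
      ∑ _l' : Fin L, K2 * (K3 * (1 + ‖ξ‖) ^ (-N) * (K1 * (K4 * ‖u‖))) := by
    intro l _
    rw [Summable.tsum_finsetSum (fun l' _ => ((hSBb l' ξ).1).mul_right _)]
    refine Finset.sum_le_sum fun l' _ => ?_
    rw [tsum_mul_right]
    exact mul_le_mul_of_nonneg_right (hSBb l' ξ).2 (by positivity)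
  refine (Finset.sum_le_sum hT).trans ?_
  have e : ∑ _l : Fin L, ∑ _l' : Fin L, K2 * (K3 * (1 + ‖ξ‖) ^ (-N) * (K1 * (K4 * ‖u‖))) =
      (∑ _l : Fin L, ∑ _l' : Fin L, K2 * K3 * K4 * K1) * (‖u‖ * (1 + ‖ξ‖) ^ (-N)) := by
    simp only [Finset.sum_const, Finset.card_univ, Fintype.card_fin, nsmul_eq_mul]
    ring
  rw [e]
  have hnn : 0 ≤ ‖u‖ * (1 + ‖ξ‖) ^ (-N) := by positivity
  have hle : (∑ _l : Fin L, ∑ _l' : Fin L, K2 * K3 * K4 * K1) * (‖u‖ * (1 + ‖ξ‖) ^ (-N)) ≤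
      ((∑ _l : Fin L, ∑ _l' : Fin L, K2 * K3 * K4 * K1) + 1) * (‖u‖ * (1 + ‖ξ‖) ^ (-N)) :=
    mul_le_mul_of_nonneg_right (by linarith) hnn
  refine hle.trans (le_of_eq ?_)
  ring

end Pool.Agent.Helper56.WV
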