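import Pool.Agent.Helper56.WV.St

/-!
# Project WV (MP_d629b1_an), module BE: the Bessel inequality on the diagonal
-/

set_option autoImplicit false

open MeasureTheory
open scoped FourierTransform RealInnerProductSpace Matrix ComplexConjugate

noncomputable section

namespace Pool.Agent.Helper56.WV

open Wav

variable {n L : ℕ}

theorem be_cont_act (M : Matrix (Fin n) (Fin n) ℝ) : Continuous (act M : E n → E n) := by
  rw [act_eq]
  exact LinearMap.continuous_of_finiteDimensional _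

theorem be_cont_sc {A : Matrix (Fin n) (Fin n) ℝ} {Ψ : Fin L → E n → ℂ} {N : ℝ}
    (hW : WSys A Ψ N) (j : ℤ) (l : Fin L) : Continuous (sc A Ψ j l) :=
  (hW.smooth l).continuous.comp (be_cont_act _)

/-- the norm of a nonzero integer vector is at least one -/
theorem be_norm_ivec {p : Fin n → ℤ} (hp : p ≠ 0) : 1 ≤ ‖(ivec p : E n)‖ := by
  obtain ⟨i, hi⟩ : ∃ i, p i ≠ 0 := by
    by_contra h
    push Not at h
    exact hp (funext h)
  have h1 : ‖(ivec p : E n) i‖ ≤ ‖(ivec p : E n)‖ := PiLp.norm_apply_le _ _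
  have h2 : (ivec p : E n) i = (p i : ℝ) := rfl
  rw [h2, Real.norm_eq_abs] at h1
  have h3 : (1 : ℝ) ≤ |(p i : ℝ)| := by
    have : (1 : ℤ) ≤ |p i| := Int.one_le_abs hi
    exact_mod_cast this
  linarith

/-- the lattices are uniformly discrete -/
theorem be_sep {A : Matrix (Fin n) (Fin n) ℝ} (hA : Aᵀ.det ≠ 0) (F : Finset ℤ) :
    ∃ r : ℝ, 0 < r ∧ ∀ j ∈ F, ∀ p : Fin n → ℤ, p ≠ 0 → 2 * r ≤ ‖act (Aᵀ ^ j) (ivec p)‖ := by
  have hb : ∀ j : ℤ, ∃ C : ℝ, 0 ≤ C ∧ ∀ y : E n, ‖act (Aᵀ ^ (-j)) y‖ ≤ C * ‖y‖ := by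
    intro j
    refine ⟨‖LinearMap.toContinuousLinearMap
      (Matrix.toEuclideanLin (Aᵀ ^ (-j)) : E n →ₗ[ℝ] E n)‖, norm_nonneg _, fun y => ?_⟩
    exact ContinuousLinearMap.le_opNorm (LinearMap.toContinuousLinearMap
      (Matrix.toEuclideanLin (Aᵀ ^ (-j)) : E n →ₗ[ℝ] E n)) y
  choose C hC0 hC using hb
  have hS : 0 ≤ ∑ j ∈ F, C j := Finset.sum_nonneg fun j _ => hC0 j
  refine ⟨1 / (2 * (1 + ∑ j ∈ F, C j)), by positivity, fun j hj p hp => ?_⟩
  have h1 : act (Aᵀ ^ (-j)) (act (Aᵀ ^ j) (ivec p)) = ivec p := by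
    rw [← act_mul, Matrix.zpow_neg_mul_zpow_self _ (isUnit_iff_ne_zero.2 hA), act_one]
  have h2 := hC j (act (Aᵀ ^ j) (ivec p))
  rw [h1] at h2
  have h3 := be_norm_ivec hp
  have h4 : C j ≤ 1 + ∑ j ∈ F, C j := by
    have := Finset.single_le_sum (f := C) (fun i _ => hC0 i) hj
    linarith
  have h5 : 1 ≤ (1 + ∑ j ∈ F, C j) * ‖act (Aᵀ ^ j) (ivec p)‖ := by
    refine h3.trans (h2.trans ?_)
    exact mul_le_mul_of_nonneg_right h4 (norm_nonneg _)
  have h6 : 2 * (1 / (2 * (1 + ∑ j ∈ F, C j))) = 1 / (1 + ∑ j ∈ F, C j) := by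
    field_simp
  rw [h6, div_le_iff₀ (by positivity), mul_comm]
  exact h5

theorem be_coef (hPP : St_PP) {A : Matrix (Fin n) (Fin n) ℝ} {Ψ : Fin L → E n → ℂ} {N : ℝ}
    (hW : WSys A Ψ N) {ξ : E n} {r : ℝ} (j : ℤ)
    (hsep : ∀ p : Fin n → ℤ, p ≠ 0 → 2 * r ≤ ‖act (Aᵀ ^ j) (ivec p)‖) (l : Fin L) :
    HasSum (fun k : Fin n → ℤ => ‖∫ ζ in Metric.ball ξ r, conj (faff A (Ψ l) j k ζ)‖ ^ 2)
      (∫ ζ in Metric.ball ξ r, ‖sc A Ψ j l ζ‖ ^ 2) := by
  have h := hPP n L A Ψ N hW (Metric.ball ξ r) (Metric.ball ξ r) measurableSet_ball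
    measurableSet_ball Metric.isBounded_ball Metric.isBounded_ball j l
  have e1 : (∫ ζ in Metric.ball ξ r, sc A Ψ j l ζ * ∑' p : Fin n → ℤ,
      (Metric.ball ξ r).indicator (fun ζ => conj (sc A Ψ j l ζ)) (ζ + act (Aᵀ ^ j) (ivec p))) =
      ((∫ ζ in Metric.ball ξ r, ‖sc A Ψ j l ζ‖ ^ 2 : ℝ) : ℂ) := by
    rw [← integral_complex_ofReal]
    refine setIntegral_congr_fun measurableSet_ball fun ζ hζ => ?_
    have h0 : ∑' p : Fin n → ℤ, (Metric.ball ξ r).indicator (fun ζ => conj (sc A Ψ j l ζ))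
        (ζ + act (Aᵀ ^ j) (ivec p)) = conj (sc A Ψ j l ζ) := by
      rw [tsum_eq_single (0 : Fin n → ℤ)]
      · rw [ivec_zero, act_zero, add_zero, Set.indicator_of_mem hζ]
      · intro p hp
        refine Set.indicator_of_notMem ?_ _
        intro hmem
        rw [Metric.mem_ball] at hmem hζ
        have h1 := hsep p hp
        have h2 : dist (ζ + act (Aᵀ ^ j) (ivec p)) ζ < r + r :=
          (dist_triangle_right _ _ ξ).trans_lt (add_lt_add hmem hζ)
        rw [dist_eq_norm, add_sub_cancel_left] at h2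
        linarith
    rw [h0, Complex.mul_conj, Complex.normSq_eq_norm_sq]
  rw [e1] at h
  have e2 : (fun k : Fin n → ℤ => conj (∫ ζ in Metric.ball ξ r, conj (faff A (Ψ l) j k ζ)) *
      ∫ ζ in Metric.ball ξ r, conj (faff A (Ψ l) j k ζ)) = fun k : Fin n → ℤ =>
      ((‖∫ ζ in Metric.ball ξ r, conj (faff A (Ψ l) j k ζ)‖ ^ 2 : ℝ) : ℂ) := by
    funext k
    rw [mul_comm, Complex.mul_conj, Complex.normSq_eq_norm_sq]
  rw [e2] at h
  exact Complex.hasSum_ofReal.1 h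

theorem p_BE (hPP : St_PP) : St_BE := by
  intro n L A Ψ N hW ξ F
  by_contra hcon
  push Not at hcon
  have hA : A.det ≠ 0 := _root_.Wav.expansive_det hW.exp
  have hB : Aᵀ.det ≠ 0 := by rwa [Matrix.det_transpose]
  set G : E n → ℝ := fun ζ => ∑ j ∈ F, dg A Ψ j ζ with hG
  have hdc : ∀ j l, Continuous fun ζ : E n => ‖sc A Ψ j l ζ‖ ^ 2 := fun j l =>
    (be_cont_sc hW j l).norm.pow 2
  have hGc : Continuous G := by
    refine continuous_finsetSum _ fun j _ => ?_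
    exact continuous_finsetSum _ fun l _ => hdc j l
  set ε : ℝ := (G ξ - 1) / 2 with hε
  have hε0 : 0 < ε := by
    have : 1 < G ξ := hcon
    rw [hε]; linarith
  have hε1 : 1 + ε < G ξ := by
    have : 1 < G ξ := hcon
    rw [hε]; linarith
  obtain ⟨δ, hδ, hδG⟩ : ∃ δ > 0, ∀ ζ ∈ Metric.ball ξ δ, 1 + ε < G ζ := by
    have h1 : ∀ᶠ ζ in nhds ξ, 1 + ε < G ζ := hGc.continuousAt.eventually_const_lt hε1
    exact Metric.eventually_nhds_iff_ball.1 h1
  obtain ⟨r0, hr0, hsep⟩ := be_sep hB F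
  set r : ℝ := min δ r0 with hr
  have hr1 : 0 < r := lt_min hδ hr0
  set S : Set (E n) := Metric.ball ξ r with hS
  have hSm : MeasurableSet S := measurableSet_ball
  have hSf : volume S ≠ ⊤ := measure_ball_lt_top.ne
  have hS0 : 0 < (volume S).toReal :=
    ENNReal.toReal_pos (Metric.measure_ball_pos volume ξ hr1).ne' hSf
  have hco : ∀ j ∈ F, ∀ l : Fin L,
      HasSum (fun k : Fin n → ℤ => ‖∫ ζ in S, conj (faff A (Ψ l) j k ζ)‖ ^ 2)
      (∫ ζ in S, ‖sc A Ψ j l ζ‖ ^ 2) := by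
    intro j hj l
    refine be_coef hPP hW j (fun p hp => ?_) l
    have h1 := hsep j hj p hp
    have h2 : r ≤ r0 := min_le_right _ _
    linarith
  have hsum : HasSum (fun k : Fin n → ℤ => ∑ j ∈ F, ∑ l : Fin L,
      ‖∫ ζ in S, conj (faff A (Ψ l) j k ζ)‖ ^ 2)
      (∑ j ∈ F, ∑ l : Fin L, ∫ ζ in S, ‖sc A Ψ j l ζ‖ ^ 2) :=
    hasSum_sum fun j hj => hasSum_sum fun l _ => hco j hj l
  obtain ⟨b, hb⟩ := hW.basis
  set f : Lp ℂ 2 (volume : Measure (E n)) := indicatorConstLp 2 hSm hSf (1 : ℂ) with hf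
  have hf2 : ‖f‖ ^ 2 = (volume S).toReal := by
    rw [hf, norm_indicatorConstLp (by norm_num) (by norm_num)]
    rw [norm_one, one_mul, ← Real.rpow_natCast, ← Real.rpow_mul (by positivity)]
    norm_num
    rfl
  have hin : ∀ (l : Fin L) (j : ℤ) (k : Fin n → ℤ),
      ‖(inner ℂ (b (l, j, k)) f : ℂ)‖ = ‖∫ ζ in S, conj (faff A (Ψ l) j k ζ)‖ := by
    intro l j k
    rw [norm_inner_symm, hf, L2.inner_indicatorConstLp_one, integral_conj, RCLike.norm_conj]
    congr 1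
    refine setIntegral_congr_ae hSm ?_
    filter_upwards [hb l j k] with x hx _
    exact hx
  have hle : ∑ j ∈ F, ∑ l : Fin L, ∫ ζ in S, ‖sc A Ψ j l ζ‖ ^ 2 ≤ (volume S).toReal := by
    refine hasSum_le_of_sum_le hsum fun K => ?_
    have h1 := b.orthonormal.sum_inner_products_le f
      (s := (Finset.univ : Finset (Fin L)) ×ˢ (F ×ˢ K))
    rw [hf2] at h1
    have e1 : ∑ i ∈ (Finset.univ : Finset (Fin L)) ×ˢ (F ×ˢ K), ‖(inner ℂ (b i) f : ℂ)‖ ^ 2 =
        ∑ l : Fin L, ∑ j ∈ F, ∑ k ∈ K, ‖∫ ζ in S, conj (faff A (Ψ l) j k ζ)‖ ^ 2 := by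
      rw [Finset.sum_product]
      refine Finset.sum_congr rfl fun l _ => ?_
      rw [Finset.sum_product]
      refine Finset.sum_congr rfl fun j _ => Finset.sum_congr rfl fun k _ => ?_
      rw [hin]
    rw [e1, Finset.sum_comm] at h1
    rw [Finset.sum_comm]
    refine le_trans (le_of_eq ?_) h1
    refine Finset.sum_congr rfl fun j _ => ?_
    rw [Finset.sum_comm]
  have hint : ∀ j l, IntegrableOn (fun ζ : E n => ‖sc A Ψ j l ζ‖ ^ 2) S := fun j l =>
    ((hdc j l).continuousOn.integrableOn_compact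
      (isCompact_closedBall ξ r)).mono_set Metric.ball_subset_closedBall
  have heq : ∑ j ∈ F, ∑ l : Fin L, ∫ ζ in S, ‖sc A Ψ j l ζ‖ ^ 2 = ∫ ζ in S, G ζ := by
    rw [hG]
    simp only [dg]
    rw [integral_finsetSum]
    · refine Finset.sum_congr rfl fun j _ => ?_
      rw [integral_finsetSum]
      exact fun l _ => hint j l
    · exact fun j _ => integrable_finsetSum _ fun l _ => hint j l
  have hge : (1 + ε) * (volume S).toReal ≤ ∫ ζ in S, G ζ := by
    have h1 : ∫ _ in S, (1 + ε) ≤ ∫ ζ in S, G ζ := by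
      refine setIntegral_mono_on ?_ ?_ hSm fun ζ hζ => ?_
      · exact integrableOn_const hSf
      · exact (hGc.continuousOn.integrableOn_compact
          (isCompact_closedBall ξ r)).mono_set Metric.ball_subset_closedBall
      · exact (hδG ζ (Metric.ball_subset_ball (min_le_left _ _) hζ)).le
    rw [setIntegral_const, smul_eq_mul, mul_comm] at h1
    exact h1
  rw [heq] at hle
  nlinarith

end Pool.Agent.Helper56.WV
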