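import Pool.Agent.Helper56.WV.St

/-!
# Project WV (MP_d629b1_an): assembly
-/

set_option autoImplicit false

open MeasureTheory
open scoped FourierTransform RealInnerProductSpace Matrix ComplexConjugate

noncomputable section

namespace Pool.Agent.Helper56.WV

open Wav

variable {n L : ℕ}

/-! ### the diagonal -/

lemma CL_sc_zero (A : Matrix (Fin n) (Fin n) ℝ) (Ψ : Fin L → E n → ℂ) (l : Fin L) (ξ : E n) :
    sc A Ψ 0 l ξ = Ψ l ξ := by
  unfold sc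
  congr 1
  rw [neg_zero, zpow_zero]
  unfold act
  rw [Matrix.one_mulVec]

lemma CL_ker (A : Matrix (Fin n) (Fin n) ℝ) (Ψ : Fin L → E n → ℂ) (j : ℤ) (ξ : E n) :
    ker A Ψ j ξ ξ = ((dg A Ψ j ξ : ℝ) : ℂ) := by
  unfold ker dg
  rw [if_pos (by rw [sub_self]; exact AddSubgroup.zero_mem _)]
  push_cast
  refine Finset.sum_congr rfl fun l _ => ?_
  rw [Complex.mul_conj, Complex.normSq_eq_norm_sq]
  push_cast
  rfl

lemma CL_dg_nonneg (A : Matrix (Fin n) (Fin n) ℝ) (Ψ : Fin L → E n → ℂ) (j : ℤ) (ξ : E n) :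
    0 ≤ dg A Ψ j ξ := Finset.sum_nonneg fun _ _ => by positivity

lemma CL_dg_pos (A : Matrix (Fin n) (Fin n) ℝ) (Ψ : Fin L → E n → ℂ) (j : ℤ) (ξ : E n) (l : Fin L)
    (h : sc A Ψ j l ξ ≠ 0) : 0 < dg A Ψ j ξ := by
  unfold dg
  refine Finset.sum_pos' (fun _ _ => by positivity) ⟨l, Finset.mem_univ _, ?_⟩
  have : 0 < ‖sc A Ψ j l ξ‖ := norm_pos_iff.2 h
  positivity

lemma CL_sum (hGW : St_GW) (A : Matrix (Fin n) (Fin n) ℝ) (Ψ : Fin L → E n → ℂ) (N : ℝ)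
    (hW : WSys A Ψ N) (ξ : E n) (hξ : ξ ≠ 0) : HasSum (fun j : ℤ => dg A Ψ j ξ) 1 := by
  have h := hGW n L A Ψ N hW ξ ξ hξ hξ
  rw [if_pos rfl] at h
  have h2 : (fun j : ℤ => ker A Ψ j ξ ξ) = fun j : ℤ => ((dg A Ψ j ξ : ℝ) : ℂ) := by
    funext j
    exact CL_ker A Ψ j ξ
  rw [h2] at h
  have hs : Summable fun j : ℤ => ((dg A Ψ j ξ : ℝ) : ℂ) := by
    by_contra hcon
    rw [tsum_eq_zero_of_not_summable hcon] at h
    exact zero_ne_one h
  have h3 := hs.hasSum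
  rw [h, ← Complex.ofReal_one] at h3
  exact Complex.hasSum_ofReal.1 h3

lemma CL_two (hGW : St_GW) (A : Matrix (Fin n) (Fin n) ℝ) (Ψ : Fin L → E n → ℂ) (N : ℝ)
    (hW : WSys A Ψ N) (ξ : E n) (hξ : ξ ≠ 0) (k : ℤ) (hk : k ≠ 0) :
    dg A Ψ 0 ξ + dg A Ψ k ξ ≤ 1 := by
  have h := CL_sum hGW A Ψ N hW ξ hξ
  have h2 := sum_le_hasSum ({0, k} : Finset ℤ) (fun j _ => CL_dg_nonneg A Ψ j ξ) h
  rw [Finset.sum_pair hk.symm] at h2
  exact h2

lemma CL_at_zero (hI0 : St_I0) (A : Matrix (Fin n) (Fin n) ℝ) (Ψ : Fin L → E n → ℂ) (N : ℝ)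
    (hW : WSys A Ψ N) : dg A Ψ 0 (0 : E n) = 0 := by
  unfold dg
  refine Finset.sum_eq_zero fun l _ => ?_
  rw [CL_sc_zero, hI0 n L A Ψ N hW l]
  simp

lemma CL_fj (A : Matrix (Fin n) (Fin n) ℝ) (Ψ : Fin L → E n → ℂ) (k : ℤ) (u ξ : E n)
    (h : fj A Ψ k u ξ ≠ 0) : k ≠ 0 ∧ 0 < dg A Ψ 0 ξ ∧ 0 < dg A Ψ k ξ := by
  unfold fj at h
  split_ifs at h with hk
  · exact absurd rfl h
  · obtain ⟨l, -, hl⟩ := Finset.exists_ne_zero_of_sum_ne_zero h
    obtain ⟨l', -, hl'⟩ := Finset.exists_ne_zero_of_sum_ne_zero hl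
    have h1 := left_ne_zero_of_mul hl'
    have h2 := left_ne_zero_of_mul h1
    have h3 := right_ne_zero_of_mul h1
    refine ⟨hk, CL_dg_pos A Ψ 0 ξ l ?_, CL_dg_pos A Ψ k ξ l' h2⟩
    rw [CL_sc_zero]
    intro h4
    apply h3
    rw [h4, map_zero]

/-! ### the classes of scales -/

/-- nonzero scales -/
abbrev CL_J : Type := {j : ℤ // j ≠ 0}

lemma CL_tf (m : ℕ) (x : E n) (hm : 0 < m) (h : m • x = 0) : x = 0 := by
  rw [← Nat.cast_smul_eq_nsmul ℝ] at h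
  rcases smul_eq_zero.1 h with h | h
  · exact absurd (Nat.cast_eq_zero.1 h) hm.ne'
  · exact h

/-- the equivalence relation on nonzero scales -/
def CL_set {A : Matrix (Fin n) (Fin n) ℝ} (hA : Aligned (Gam A)) : Setoid CL_J where
  r j k := (j : ℤ) = k ∨ Meet3 (Gam A) 0 j k
  iseqv := {
    refl := fun j => Or.inl rfl
    symm := by
      rintro j k (h | ⟨v, h0, h1, h2, h3⟩)
      · exact Or.inl h.symm
      · exact Or.inr ⟨v, h0, h1, h3, h2⟩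
    trans := by
      rintro j k m (h | ⟨v, h0, h1, h2, h3⟩) (h' | h')
      · exact Or.inl (h.trans h')
      · right
        rw [h]
        exact h'
      · right
        rw [← h']
        exact ⟨v, h0, h1, h2, h3⟩
      · by_cases hkm : (k : ℤ) = m
        · right
          rw [← hkm]
          exact ⟨v, h0, h1, h2, h3⟩
        · right
          obtain ⟨c, hc, hc'⟩ := hA 0 k m (Ne.symm k.2) (Ne.symm m.2) hkm h' v h1 h3
          exact ⟨c • v, fun h => h0 (CL_tf c v hc h), AddSubgroup.nsmul_mem _ h1 c,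
            AddSubgroup.nsmul_mem _ h2 c, hc'⟩ }

/-- the open set of a class -/
def CL_O (A : Matrix (Fin n) (Fin n) ℝ) (Ψ : Fin L → E n → ℂ) (s : Setoid CL_J)
    (q : Quotient s) : Set (E n) :=
  {ξ | 0 < dg A Ψ 0 ξ ∧ ∃ k : CL_J, Quotient.mk s k = q ∧ 0 < dg A Ψ k ξ}

lemma CL_open (A : Matrix (Fin n) (Fin n) ℝ) (Ψ : Fin L → E n → ℂ) (s : Setoid CL_J)
    (q : Quotient s) (hc : ∀ j : ℤ, Continuous (fun ζ => dg A Ψ j ζ)) : IsOpen (CL_O A Ψ s q) := by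
  have : CL_O A Ψ s q = {ξ | 0 < dg A Ψ 0 ξ} ∩
      ⋃ k : CL_J, ⋃ _ : Quotient.mk s k = q, {ξ | 0 < dg A Ψ k ξ} := by
    ext ξ
    simp [CL_O]
  rw [this]
  exact (isOpen_lt continuous_const (hc 0)).inter
    (isOpen_iUnion fun k => isOpen_iUnion fun _ => isOpen_lt continuous_const (hc k))

lemma CL_disj (hAL : St_AL) (hKP : St_KP) (A : Matrix (Fin n) (Fin n) ℝ)
    (Ψ : Fin L → E n → ℂ) (N : ℝ) (hW : WSys A Ψ N) (hA : Aligned (Gam A)) (hT : ¬ Tetra (Gam A))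
    (q q' : Quotient (CL_set hA)) (ξ : E n) (h : ξ ∈ CL_O A Ψ (CL_set hA) q)
    (h' : ξ ∈ CL_O A Ψ (CL_set hA) q') : q = q' := by
  obtain ⟨h0, k, rfl, hk⟩ := h
  obtain ⟨-, k', rfl, hk'⟩ := h'
  refine Quotient.sound ?_
  have e : ∀ j : ℤ, 0 < dg A Ψ j ξ → ker A Ψ j ξ ξ ≠ 0 := by
    intro j hj
    rw [CL_ker]
    exact_mod_cast hj.ne'
  rcases hAL (E n) (Gam A) (ker A Ψ) (fun m x hm hx => CL_tf m x hm hx) (hKP n L A Ψ N hW) hA hT
    0 k k' ξ (Ne.symm k.2) (e 0 h0) (e k hk) (e k' hk') with h | h | h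
  · exact absurd h k'.2
  · exact Or.inl h.symm
  · exact Or.inr h

lemma CL_mem (hGW : St_GW) (hI0 : St_I0) (A : Matrix (Fin n) (Fin n) ℝ) (Ψ : Fin L → E n → ℂ)
    (N : ℝ) (hW : WSys A Ψ N) (s : Setoid CL_J) (ξ : E n) (h0 : 0 < dg A Ψ 0 ξ)
    (h1 : dg A Ψ 0 ξ < 1) : ∃ q : Quotient s, ξ ∈ CL_O A Ψ s q := by
  have hξ : ξ ≠ 0 := by
    rintro rfl
    rw [CL_at_zero hI0 A Ψ N hW] at h0
    exact lt_irrefl _ h0
  by_contra hcon
  push Not at hcon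
  have h2 : ∀ j : ℤ, j ≠ 0 → dg A Ψ j ξ = 0 := by
    intro j hj
    by_contra h3
    have h4 : 0 < dg A Ψ j ξ := lt_of_le_of_ne (CL_dg_nonneg A Ψ j ξ) (Ne.symm h3)
    exact hcon (Quotient.mk s ⟨j, hj⟩) ⟨h0, ⟨j, hj⟩, rfl, h4⟩
  have h3 := CL_sum hGW A Ψ N hW ξ hξ
  have h4 := hasSum_single (f := fun j : ℤ => dg A Ψ j ξ) 0 h2
  have h5 := h3.unique h4
  exact h1.ne h5.symm

lemma CL_lt (hGW : St_GW) (hI0 : St_I0) (A : Matrix (Fin n) (Fin n) ℝ) (Ψ : Fin L → E n → ℂ)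
    (N : ℝ) (hW : WSys A Ψ N) (s : Setoid CL_J) (q : Quotient s) (ξ : E n)
    (h : ξ ∈ CL_O A Ψ s q) : 0 < dg A Ψ 0 ξ ∧ dg A Ψ 0 ξ < 1 := by
  obtain ⟨h0, k, -, hk⟩ := h
  have hξ : ξ ≠ 0 := by
    rintro rfl
    rw [CL_at_zero hI0 A Ψ N hW] at h0
    exact lt_irrefl _ h0
  have := CL_two hGW A Ψ N hW ξ hξ k k.2
  exact ⟨h0, by linarith⟩

/-! ### integrability -/

lemma CL_bd (N : ℝ) (ξ : E n) : (1 + ‖ξ‖) ^ (-N) * ‖ξ‖ ≤ (1 + ‖ξ‖) ^ (-(N - 1)) := by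
  have h0 : 0 < 1 + ‖ξ‖ := by positivity
  have h1 : (1 + ‖ξ‖) ^ (-(N - 1)) = (1 + ‖ξ‖) ^ (-N) * (1 + ‖ξ‖) := by
    rw [show -(N - 1) = -N + 1 by ring, Real.rpow_add h0, Real.rpow_one]
  rw [h1]
  refine mul_le_mul_of_nonneg_left (by linarith) (Real.rpow_nonneg h0.le _)

lemma CL_ib (N : ℝ) (hN : (n : ℝ) + 1 < N) :
    Integrable fun ξ : E n => (1 + ‖ξ‖) ^ (-(N - 1)) := by
  refine integrable_one_add_norm ?_
  rw [finrank_euclideanSpace_fin]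
  linarith

/-- a majorant -/
lemma CL_maj (N C : ℝ) (v ξ : E n) (t : ℝ) (h : t ≤ C * (1 + ‖ξ‖) ^ (-N)) (ht : 0 ≤ t) :
    t * |⟪v, ξ⟫| ≤ C * ‖v‖ * (1 + ‖ξ‖) ^ (-(N - 1)) := by
  have h1 : |⟪v, ξ⟫| ≤ ‖v‖ * ‖ξ‖ := abs_real_inner_le_norm v ξ
  have h0 : 0 ≤ (1 + ‖ξ‖) ^ (-N) := Real.rpow_nonneg (by positivity) _
  have h2 : 0 ≤ C * (1 + ‖ξ‖) ^ (-N) := ht.trans h
  have hp : 0 < (1 + ‖ξ‖) ^ (-N) := Real.rpow_pos_of_pos (by positivity) _
  have hC : 0 ≤ C := nonneg_of_mul_nonneg_left h2 hp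
  calc t * |⟪v, ξ⟫| ≤ C * (1 + ‖ξ‖) ^ (-N) * (‖v‖ * ‖ξ‖) :=
        mul_le_mul h h1 (abs_nonneg _) h2
    _ = C * ‖v‖ * ((1 + ‖ξ‖) ^ (-N) * ‖ξ‖) := by ring
    _ ≤ _ := mul_le_mul_of_nonneg_left (CL_bd N ξ) (by positivity)

lemma CL_int (N C : ℝ) (hN : (n : ℝ) + 1 < N) (f : E n → ℝ) (hf : Continuous f)
    (hb : ∀ ξ, |f ξ| ≤ C * (1 + ‖ξ‖) ^ (-N)) (v : E n) :
    Integrable (fun ξ => f ξ * ⟪v, ξ⟫) := by
  refine Integrable.mono' ((CL_ib N hN).const_mul (C * ‖v‖)) ?_ ?_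
  · exact (hf.mul (continuous_const.inner continuous_id)).aestronglyMeasurable
  · refine Filter.Eventually.of_forall fun ξ => ?_
    rw [Real.norm_eq_abs, abs_mul]
    exact CL_maj N C v ξ _ (hb ξ) (abs_nonneg _)

/-! ### the moment in one direction vanishes -/

lemma CL_zero (hB1 : St_B1) (hB3 : St_B3) (hB4 : St_B4) (hMS : St_MS)
    (A : Matrix (Fin n) (Fin n) ℝ) (Ψ : Fin L → E n → ℂ) (N : ℝ) (hW : WSys A Ψ N)
    (s : Setoid CL_J) (q : Quotient s) (hO : MeasurableSet (CL_O A Ψ s q)) (d : E n)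
    (hdis : ∀ (ξ : E n) (q' : Quotient s), ξ ∈ CL_O A Ψ s q → ξ ∈ CL_O A Ψ s q' → q = q')
    (hd : ∀ k : CL_J, Quotient.mk s k = q →
      ∀ γ : E n, γ ∈ Gam A 0 → γ ∈ Gam A k → ⟪d, γ⟫ = 0) (u : E n) :
    ∫ ξ in CL_O A Ψ s q, fderiv ℝ (fun ζ => dg A Ψ 0 ζ) ξ u * ⟪d, ξ⟫ = 0 := by
  classical
  obtain ⟨K, hK, hKb⟩ := hB4 n L A Ψ N hW
  set F : ℤ → E n → ℂ := fun k ξ => (if ∃ h : k ≠ 0, Quotient.mk s ⟨k, h⟩ = q then
    fj A Ψ k u ξ else 0) * ((⟪d, ξ⟫ : ℝ) : ℂ) with hF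
  have hFn : ∀ k ξ, ‖F k ξ‖ ≤ ‖fj A Ψ k u ξ‖ * |⟪d, ξ⟫| := by
    intro k ξ
    simp only [hF]
    rw [norm_mul, Complex.norm_real, Real.norm_eq_abs]
    refine mul_le_mul_of_nonneg_right ?_ (abs_nonneg _)
    split_ifs
    · exact le_rfl
    · rw [norm_zero]
      exact norm_nonneg _
  have hFc : ∀ k, Continuous (F k) := by
    intro k
    simp only [hF]
    refine Continuous.mul ?_ (Complex.continuous_ofReal.comp
      (continuous_const.inner continuous_id))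
    by_cases hk : ∃ h : k ≠ 0, Quotient.mk s ⟨k, h⟩ = q
    · simp only [if_pos hk]
      exact hMS n L A Ψ N hW k u
    · simp only [if_neg hk]
      exact continuous_const
  have hFs : ∀ (T : Finset ℤ) (ξ : E n), ∑ k ∈ T, ‖F k ξ‖ ≤
      K * ‖u‖ * ‖d‖ * (1 + ‖ξ‖) ^ (-(N - 1)) := by
    intro T ξ
    have h1 : ∑ k ∈ T, ‖F k ξ‖ ≤ (∑ k ∈ T, ‖fj A Ψ k u ξ‖) * |⟪d, ξ⟫| := by
      rw [Finset.sum_mul]
      exact Finset.sum_le_sum fun k _ => hFn k ξ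
    have h2 : ∑ k ∈ T, ‖fj A Ψ k u ξ‖ ≤ K * ‖u‖ * (1 + ‖ξ‖) ^ (-N) :=
      ((hKb u ξ).1.sum_le_tsum T fun _ _ => norm_nonneg _).trans (hKb u ξ).2
    exact h1.trans (CL_maj N (K * ‖u‖) d ξ _ h2 (Finset.sum_nonneg fun _ _ => norm_nonneg _))
  have hFi : ∀ k, Integrable (F k) := by
    intro k
    refine Integrable.mono' ((CL_ib N hW.hN).const_mul (K * ‖u‖ * ‖d‖))
      (hFc k).aestronglyMeasurable (Filter.Eventually.of_forall fun ξ => ?_)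
    have := hFs {k} ξ
    rwa [Finset.sum_singleton] at this
  have hF0 : ∀ k, ∫ ξ, F k ξ = 0 := by
    intro k
    simp only [hF]
    by_cases hk : ∃ h : k ≠ 0, Quotient.mk s ⟨k, h⟩ = q
    · simp only [if_pos hk]
      obtain ⟨h, hq⟩ := hk
      exact hB3 n L A Ψ N hW k u d (hd ⟨k, h⟩ hq)
    · simp only [if_neg hk, zero_mul, integral_zero]
  set G : ℤ → E n → ℝ := fun k ξ => (F k ξ).re with hG
  have hGi : ∀ k, Integrable (G k) := fun k => (hFi k).re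
  have hG0 : ∀ k, ∫ ξ, G k ξ = 0 := by
    intro k
    have h1 := integral_re (hFi k)
    rw [hF0 k] at h1
    simpa [hG] using h1
  have hGn : ∀ k ξ, ‖G k ξ‖ ≤ ‖F k ξ‖ := fun k ξ => by
    rw [Real.norm_eq_abs]
    exact Complex.abs_re_le_norm _
  have hGs : Summable fun k => ∫ ξ, ‖G k ξ‖ := by
    refine summable_of_sum_le (c := ∫ ξ : E n, K * ‖u‖ * ‖d‖ * (1 + ‖ξ‖) ^ (-(N - 1)))
      (fun k => integral_nonneg fun ξ => norm_nonneg _) fun T => ?_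
    rw [← integral_finsetSum _ fun k _ => (hGi k).norm]
    refine integral_mono (integrable_finsetSum _ fun k _ => (hGi k).norm)
      ((CL_ib N hW.hN).const_mul (K * ‖u‖ * ‖d‖)) fun ξ => ?_
    exact (Finset.sum_le_sum fun k _ => hGn k ξ).trans (hFs T ξ)
  have hsum := integral_tsum_of_summable_integral_norm hGi hGs
  simp only [hG0, tsum_zero] at hsum
  -- the pointwise identity
  have hpt : ∀ ξ, (CL_O A Ψ s q).indicator
      (fun ξ => fderiv ℝ (fun ζ => dg A Ψ 0 ζ) ξ u * ⟪d, ξ⟫) ξ = 2 * ∑' k, G k ξ := by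
    intro ξ
    by_cases hξ : ξ ∈ CL_O A Ψ s q
    · rw [Set.indicator_of_mem hξ]
      rcases eq_or_ne ξ 0 with rfl | hne
      · have e1 : ∀ k, G k 0 = 0 := by
          intro k
          simp [hG, hF]
        simp only [e1, tsum_zero, inner_zero_right, mul_zero]
      · have e1 : ∀ k, F k ξ = fj A Ψ k u ξ * ((⟪d, ξ⟫ : ℝ) : ℂ) := by
          intro k
          simp only [hF]
          congr 1
          split_ifs with hk
          · rfl
          · by_contra hcon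
            obtain ⟨a1, a2, a3⟩ := CL_fj A Ψ k u ξ (Ne.symm hcon)
            exact hk ⟨a1, (hdis ξ (Quotient.mk s ⟨k, a1⟩) hξ ⟨a2, ⟨k, a1⟩, rfl, a3⟩).symm⟩
        have e2 : ∀ k, G k ξ = (fj A Ψ k u ξ).re * ⟪d, ξ⟫ := by
          intro k
          simp only [hG]
          rw [e1 k, Complex.re_mul_ofReal]
        have e3 : (∑' k, fj A Ψ k u ξ).re = ∑' k, (fj A Ψ k u ξ).re :=
          Complex.re_tsum (hKb u ξ).1.of_norm
        rw [hB1 n L A Ψ N hW u ξ hne, e3]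
        simp only [e2]
        rw [tsum_mul_right]
        ring
    · rw [Set.indicator_of_notMem hξ]
      have e1 : ∀ k, G k ξ = 0 := by
        intro k
        simp only [hG, hF]
        split_ifs with hk
        · obtain ⟨h, hq⟩ := hk
          have : fj A Ψ k u ξ = 0 := by
            by_contra hcon
            obtain ⟨a1, a2, a3⟩ := CL_fj A Ψ k u ξ hcon
            exact hξ ⟨a2, ⟨k, h⟩, hq, a3⟩
          rw [this, zero_mul, Complex.zero_re]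
        · rw [zero_mul, Complex.zero_re]
      simp only [e1, tsum_zero, mul_zero]
  rw [← integral_indicator hO]
  have e4 : (fun ξ => (CL_O A Ψ s q).indicator
      (fun ξ => fderiv ℝ (fun ζ => dg A Ψ 0 ζ) ξ u * ⟪d, ξ⟫) ξ) = fun ξ => 2 * ∑' k, G k ξ := by
    funext ξ
    exact hpt ξ
  rw [e4, integral_const_mul, ← hsum, mul_zero]

/-! ### the main argument -/

/-- the moment form of an open set, as a bilinear map -/
def CL_M (N C : ℝ) (hN : (n : ℝ) + 1 < N) (w : E n → ℝ) (hw : ContDiff ℝ 1 w)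
    (hb : ∀ ξ, ‖fderiv ℝ w ξ‖ ≤ C * (1 + ‖ξ‖) ^ (-N)) (O : Set (E n)) :
    E n →ₗ[ℝ] E n →ₗ[ℝ] ℝ :=
  have hint : ∀ u v : E n, Integrable (fun ξ => fderiv ℝ w ξ u * ⟪v, ξ⟫) := fun u v => by
    refine CL_int N (C * ‖u‖) hN (fun ξ => fderiv ℝ w ξ u)
      ((hw.continuous_fderiv one_ne_zero).clm_apply continuous_const) (fun ξ => ?_) v
    have h1 := (fderiv ℝ w ξ).le_opNorm u
    rw [Real.norm_eq_abs] at h1
    calc |fderiv ℝ w ξ u| ≤ ‖fderiv ℝ w ξ‖ * ‖u‖ := h1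
      _ ≤ (C * (1 + ‖ξ‖) ^ (-N)) * ‖u‖ := mul_le_mul_of_nonneg_right (hb ξ) (norm_nonneg _)
      _ = _ := by ring
  LinearMap.mk₂ ℝ (fun u v => ∫ ξ in O, fderiv ℝ w ξ u * ⟪v, ξ⟫)
    (fun u u' v => by
      rw [← integral_add (hint u v).integrableOn (hint u' v).integrableOn]
      congr 1
      funext ξ
      rw [map_add]
      ring)
    (fun c u v => by
      rw [smul_eq_mul, ← integral_const_mul]
      congr 1
      funext ξ
      rw [map_smul, smul_eq_mul]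
      ring)
    (fun u v v' => by
      rw [← integral_add (hint u v).integrableOn (hint u v').integrableOn]
      congr 1
      funext ξ
      rw [inner_add_left]
      ring)
    (fun c u v => by
      rw [smul_eq_mul, ← integral_const_mul]
      congr 1
      funext ξ
      rw [real_inner_smul_left]
      ring)

lemma CL_M_apply (N C : ℝ) (hN : (n : ℝ) + 1 < N) (w : E n → ℝ) (hw : ContDiff ℝ 1 w)
    (hb : ∀ ξ, ‖fderiv ℝ w ξ‖ ≤ C * (1 + ‖ξ‖) ^ (-N)) (O : Set (E n)) (u v : E n) :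
    CL_M N C hN w hw hb O u v = ∫ ξ in O, fderiv ℝ w ξ u * ⟪v, ξ⟫ := rfl

theorem p_CL (hAL : St_AL) (hKP : St_KP) (hGW : St_GW) (hB1 : St_B1) (hB3 : St_B3) (hB4 : St_B4)
    (hMS : St_MS) (hMO : St_MO) (hMQ : St_MQ) (hIB : St_IB) (hWW : St_WW) (hI0 : St_I0) :
    St_CL := by
  intro n L A Ψ N hn hW hdir hA hT
  obtain ⟨hcont, hC1, h01, K, hK⟩ := hWW n L A Ψ N hW
  have hOo := fun q => CL_open A Ψ (CL_set hA) q hcont
  have hdis := CL_disj hAL hKP A Ψ N hW hA hT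
  have hlt := CL_lt hGW hI0 A Ψ N hW (CL_set hA)
  have hmem := CL_mem hGW hI0 A Ψ N hW (CL_set hA)
  -- every class contributes nothing
  have hcl : ∀ (q : Quotient (CL_set hA)) (e : E n), ∫ ξ in CL_O A Ψ (CL_set hA) q,
      fderiv ℝ (fun ζ => dg A Ψ 0 ζ) ξ e * ⟪e, ξ⟫ = 0 := by
    intro q e
    obtain ⟨j, rfl⟩ := Quotient.exists_rep q
    obtain ⟨d, hd0, hd⟩ := hdir 0 j (Ne.symm j.2)
    have hd' : ∀ k : CL_J, Quotient.mk (CL_set hA) k = Quotient.mk (CL_set hA) j →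
        ∀ γ : E n, γ ∈ Gam A 0 → γ ∈ Gam A k → ⟪d, γ⟫ = 0 := by
      intro k hk γ h1 h2
      have hk' : (k : ℤ) = j ∨ Meet3 (Gam A) 0 k j := Quotient.exact hk
      rcases hk' with hk' | hk'
      · rw [hk'] at h2
        exact hd γ h1 h2
      · by_cases hkj : (k : ℤ) = j
        · rw [hkj] at h2
          exact hd γ h1 h2
        · obtain ⟨m, hm, hm'⟩ := hA 0 k j (Ne.symm k.2) (Ne.symm j.2) hkj hk' γ h1 h2
          have h3 := hd (m • γ) (AddSubgroup.nsmul_mem _ h1 m) hm'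
          rw [← Nat.cast_smul_eq_nsmul ℝ, real_inner_smul_right] at h3
          rcases mul_eq_zero.1 h3 with h4 | h4
          · exact absurd (Nat.cast_eq_zero.1 h4) hm.ne'
          · exact h4
    have hz := CL_zero hB1 hB3 hB4 hMS A Ψ N hW (CL_set hA) (Quotient.mk (CL_set hA) j)
      (hOo _).measurableSet d (fun ξ q' h h' => hdis _ q' ξ h h') hd'
    have hperp : ∀ u v : E n, ⟪u, v⟫ = 0 →
        CL_M N K hW.hN _ hC1 (fun ξ => (hK ξ).2)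
          (CL_O A Ψ (CL_set hA) (Quotient.mk (CL_set hA) j)) u v = 0 := by
      intro u v huv
      rw [CL_M_apply]
      refine hMO n N K (fun ζ => dg A Ψ 0 ζ) _ hW.hN hC1 (fun ξ => (h01 ξ).1)
        (fun ξ => (h01 ξ).2) (fun ξ => (hK ξ).1) (fun ξ => (hK ξ).2) (hOo _)
        (fun ξ hξ => hlt _ ξ hξ) ?_ u v huv
      intro ξ hξ hξ'
      by_contra hcon
      push Not at hcon
      have p0 : 0 < dg A Ψ 0 ξ := lt_of_le_of_ne (h01 ξ).1 (Ne.symm hcon.1)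
      have p1 : dg A Ψ 0 ξ < 1 := lt_of_le_of_ne (h01 ξ).2 hcon.2
      obtain ⟨q', hq'⟩ := hmem ξ p0 p1
      obtain ⟨ζ, hζ1, hζ2⟩ := mem_closure_iff.1 hξ _ (hOo q') hq'
      have := hdis _ _ ζ hζ2 hζ1
      rw [← this] at hq'
      exact hξ' hq'
    have := hMQ n _ d hd0 hperp (fun u => hz u) e
    rwa [CL_M_apply] at this
  -- a nonzero vector
  obtain ⟨e, he⟩ : ∃ e : E n, e ≠ 0 := by
    refine ⟨EuclideanSpace.single ⟨0, by omega⟩ (1 : ℝ), ?_⟩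
    intro h
    have := congrArg (fun x : E n => x ⟨0, by omega⟩) h
    simp at this
  -- outside the union the gradient vanishes
  have hout : ∀ ξ, ξ ∉ (⋃ q, CL_O A Ψ (CL_set hA) q) →
      fderiv ℝ (fun ζ => dg A Ψ 0 ζ) ξ e * ⟪e, ξ⟫ = 0 := by
    intro ξ hξ
    have h1 : dg A Ψ 0 ξ = 0 ∨ dg A Ψ 0 ξ = 1 := by
      by_contra hcon
      push Not at hcon
      have p0 : 0 < dg A Ψ 0 ξ := lt_of_le_of_ne (h01 ξ).1 (Ne.symm hcon.1)
      have p1 : dg A Ψ 0 ξ < 1 := lt_of_le_of_ne (h01 ξ).2 hcon.2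
      obtain ⟨q', hq'⟩ := hmem ξ p0 p1
      exact hξ (Set.mem_iUnion.2 ⟨q', hq'⟩)
    have h2 : fderiv ℝ (fun ζ => dg A Ψ 0 ζ) ξ = 0 := by
      rcases h1 with h1 | h1
      · refine IsLocalMin.fderiv_eq_zero (Filter.Eventually.of_forall fun ζ => ?_)
        simp only [h1]
        exact (h01 ζ).1
      · refine IsLocalMax.fderiv_eq_zero (Filter.Eventually.of_forall fun ζ => ?_)
        simp only [h1]
        exact (h01 ζ).2
    rw [h2]
    simp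
  have hfi : Integrable (fun ξ => fderiv ℝ (fun ζ => dg A Ψ 0 ζ) ξ e * ⟪e, ξ⟫) := by
    refine CL_int N (K * ‖e‖) hW.hN (fun ξ => fderiv ℝ (fun ζ => dg A Ψ 0 ζ) ξ e)
      ((hC1.continuous_fderiv one_ne_zero).clm_apply continuous_const) (fun ξ => ?_) e
    have h1 := (fderiv ℝ (fun ζ => dg A Ψ 0 ζ) ξ).le_opNorm e
    rw [Real.norm_eq_abs] at h1
    calc |fderiv ℝ (fun ζ => dg A Ψ 0 ζ) ξ e| ≤ ‖fderiv ℝ (fun ζ => dg A Ψ 0 ζ) ξ‖ * ‖e‖ := h1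
      _ ≤ (K * (1 + ‖ξ‖) ^ (-N)) * ‖e‖ := mul_le_mul_of_nonneg_right (hK ξ).2 (norm_nonneg _)
      _ = _ := by ring
  have htot : ∫ ξ, fderiv ℝ (fun ζ => dg A Ψ 0 ζ) ξ e * ⟪e, ξ⟫ = 0 := by
    rw [← setIntegral_eq_integral_of_forall_compl_eq_zero hout,
      integral_iUnion (fun q => (hOo q).measurableSet) ?_ hfi.integrableOn]
    · simp only [hcl, tsum_zero]
    · intro q q' hne
      refine Set.disjoint_left.2 fun ξ h h' => hne (hdis q q' ξ h h')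
  have hib := hIB n N K (fun ζ => dg A Ψ 0 ζ) hW.hN hC1 (fun ξ => by
    rw [abs_of_nonneg (h01 ξ).1]
    exact (hK ξ).1) (fun ξ => (hK ξ).2) e e
  rw [htot] at hib
  have hee : (⟪e, e⟫ : ℝ) ≠ 0 := by
    rw [real_inner_self_eq_norm_sq]
    have : 0 < ‖e‖ := norm_pos_iff.2 he
    positivity
  have hint0 : ∫ ξ, dg A Ψ 0 ξ = 0 := by
    have h1 : (⟪e, e⟫ : ℝ) * ∫ ξ, dg A Ψ 0 ξ = 0 := by linarith
    exact (mul_eq_zero.1 h1).resolve_left hee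
  have hwi : Integrable (fun ξ => dg A Ψ 0 ξ) := by
    have hb : Integrable fun ξ : E n => (1 + ‖ξ‖) ^ (-N) := by
      refine integrable_one_add_norm ?_
      rw [finrank_euclideanSpace_fin]
      linarith [hW.hN]
    refine Integrable.mono' (hb.const_mul K) (hcont 0).aestronglyMeasurable
      (Filter.Eventually.of_forall fun ξ => ?_)
    rw [Real.norm_eq_abs, abs_of_nonneg (h01 ξ).1]
    exact (hK ξ).1
  have hae : (fun ξ => dg A Ψ 0 ξ) =ᵐ[volume] 0 :=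
    (integral_eq_zero_iff_of_nonneg (fun ξ => (h01 ξ).1) hwi).1 hint0
  have hw0 : (fun ξ => dg A Ψ 0 ξ) = 0 :=
    (Continuous.ae_eq_iff_eq volume (hcont 0) continuous_const).1 hae
  -- all diagonals vanish
  have hΨ : ∀ (l : Fin L) (ξ : E n), Ψ l ξ = 0 := by
    intro l ξ
    by_contra hcon
    have h1 := CL_dg_pos A Ψ 0 ξ l (by rw [CL_sc_zero]; exact hcon)
    have h2 := congrFun hw0 ξ
    simp only [Pi.zero_apply] at h2
    exact h1.ne' h2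
  have hall : ∀ j : ℤ, dg A Ψ j e = 0 := by
    intro j
    unfold dg sc
    refine Finset.sum_eq_zero fun l _ => ?_
    rw [hΨ]
    simp
  have hs := CL_sum hGW A Ψ N hW e he
  simp only [hall] at hs
  have := hs.unique hasSum_zero
  exact one_ne_zero this

end Pool.Agent.Helper56.WV
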