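import Pool.Agent.Helper56.WV.St

/-!
# Project WV (MP_d629b1_an): module DY

The derivative of the orthonormality relation.
-/

set_option autoImplicit false

open MeasureTheory Set
open scoped RealInnerProductSpace Matrix ComplexConjugate

noncomputable section

namespace Pool.Agent.Helper56.WV.DY

open Wav

variable {n : ℕ}

lemma rpow_shift {N : ℝ} (hN : 0 ≤ N) (x v : E n) :
    (1 + ‖x + v‖) ^ (-N) ≤ (1 + ‖v‖) ^ N * (1 + ‖x‖) ^ (-N) := by
  have h1 : 0 ≤ ‖x‖ := norm_nonneg x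
  have h2 : 0 ≤ ‖v‖ := norm_nonneg v
  have h3 : 0 ≤ ‖x + v‖ := norm_nonneg _
  have h4 : ‖x‖ ≤ ‖x + v‖ + ‖v‖ := by
    calc ‖x‖ = ‖(x + v) - v‖ := by rw [add_sub_cancel_right]
      _ ≤ _ := norm_sub_le _ _
  have h5 : 1 + ‖x‖ ≤ (1 + ‖v‖) * (1 + ‖x + v‖) := by nlinarith
  have h6 : ((1 + ‖v‖) * (1 + ‖x + v‖)) ^ (-N) ≤ (1 + ‖x‖) ^ (-N) :=
    Real.rpow_le_rpow_of_nonpos (by positivity) h5 (by linarith)
  rw [Real.mul_rpow (by positivity) (by positivity)] at h6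
  have h7 : (1 + ‖v‖) ^ N * (1 + ‖v‖) ^ (-N) = 1 := by
    rw [← Real.rpow_add (by positivity), add_neg_cancel, Real.rpow_zero]
  calc (1 + ‖x + v‖) ^ (-N) = (1 + ‖v‖) ^ N * ((1 + ‖v‖) ^ (-N) * (1 + ‖x + v‖) ^ (-N)) := by
        rw [← mul_assoc, h7, one_mul]
    _ ≤ _ := mul_le_mul_of_nonneg_left h6 (by positivity)

end Pool.Agent.Helper56.WV.DY

namespace Pool.Agent.Helper56.WV

open Wav DY

/-- **DY.** -/
theorem p_DY (hI1 : St_I1) (_hLS : St_LS) : St_DY := by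
  intro n L A Ψ N W l l' u ξ
  obtain ⟨K3, hK3, hbd⟩ := W.bound
  obtain ⟨K4, hK4, hdb⟩ := W.dbound
  have hn : (0 : ℝ) ≤ n := Nat.cast_nonneg n
  have hNn : (n : ℝ) < N := by linarith [W.hN]
  have hN0 : 0 ≤ N := by linarith
  obtain ⟨C0, hC0⟩ := lattice_sum n N hNn
  obtain ⟨hs, -⟩ := hC0 ξ
  -- the point on the line
  set y : (Fin n → ℤ) → ℝ → E n := fun p t => ξ + ivec p + t • u with hy
  have hyd : ∀ p t, HasDerivAt (y p) u t := by
    intro p t
    have h1 : HasDerivAt (fun t : ℝ => t • u) ((1 : ℝ) • u) t := (hasDerivAt_id t).smul_const u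
    rw [one_smul] at h1
    exact h1.const_add (ξ + ivec p)
  have hΨd : ∀ (m : Fin L) p t, HasDerivAt (fun t => Ψ m (y p t)) (fderiv ℝ (Ψ m) (y p t) u) t := by
    intro m p t
    have h1 : DifferentiableAt ℝ (Ψ m) (y p t) :=
      (W.smooth m).differentiable (by norm_num) _
    exact h1.hasFDerivAt.comp_hasDerivAt t (hyd p t)
  have hconj : ∀ (m : Fin L) p t,
      HasDerivAt (fun t => conj (Ψ m (y p t))) (conj (fderiv ℝ (Ψ m) (y p t) u)) t := by
    intro m p t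
    have h1 := (Complex.conjCLE : ℂ ≃L[ℝ] ℂ).toContinuousLinearMap.hasFDerivAt
      (x := Ψ m (y p t)) |>.comp_hasDerivAt t (hΨd m p t)
    exact h1
  set g : (Fin n → ℤ) → ℝ → ℂ := fun p t => Ψ l (y p t) * conj (Ψ l' (y p t)) with hg
  set g' : (Fin n → ℤ) → ℝ → ℂ := fun p t =>
    fderiv ℝ (Ψ l) (y p t) u * conj (Ψ l' (y p t)) +
      Ψ l (y p t) * conj (fderiv ℝ (Ψ l') (y p t) u) with hg'
  have hgd : ∀ p t, HasDerivAt (g p) (g' p t) t := fun p t => (hΨd l p t).mul (hconj l' p t)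
  have hb1 : ∀ (m m' : Fin L) p t, |t| < 1 →
      ‖fderiv ℝ (Ψ m) (y p t) u * conj (Ψ m' (y p t))‖ ≤
        K4 * ‖u‖ * (K3 * ((1 + ‖u‖) ^ N * (1 + ‖ξ + ivec p‖) ^ (-N))) := by
    intro m m' p t ht
    rw [norm_mul, RCLike.norm_conj]
    refine mul_le_mul (((fderiv ℝ (Ψ m) (y p t)).le_opNorm u).trans
      (mul_le_mul_of_nonneg_right (hdb m _) (norm_nonneg u))) ?_ (norm_nonneg _) (by positivity)
    refine (hbd m' _).trans (mul_le_mul_of_nonneg_left ?_ hK3.le)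
    refine (rpow_shift hN0 (ξ + ivec p) (t • u)).trans ?_
    refine mul_le_mul_of_nonneg_right ?_ (by positivity)
    refine Real.rpow_le_rpow (by positivity) ?_ hN0
    have h1 : ‖t • u‖ ≤ ‖u‖ := by
      rw [norm_smul, Real.norm_eq_abs]
      have := norm_nonneg u
      nlinarith [abs_nonneg t]
    linarith
  have hb2 : ∀ (m m' : Fin L) p t, |t| < 1 →
      ‖Ψ m (y p t) * conj (fderiv ℝ (Ψ m') (y p t) u)‖ ≤
        K4 * ‖u‖ * (K3 * ((1 + ‖u‖) ^ N * (1 + ‖ξ + ivec p‖) ^ (-N))) := by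
    intro m m' p t ht
    refine le_trans (le_of_eq ?_) (hb1 m' m p t ht)
    rw [norm_mul, norm_mul, RCLike.norm_conj, RCLike.norm_conj, mul_comm]
  set U : (Fin n → ℤ) → ℝ := fun p =>
    K4 * ‖u‖ * (K3 * ((1 + ‖u‖) ^ N * (1 + ‖ξ + ivec p‖) ^ (-N))) with hU
  have hUs : Summable U :=
    ((hs.mul_left ((1 + ‖u‖) ^ N)).mul_left K3).mul_left (K4 * ‖u‖)
  have hy0 : ∀ p, y p 0 = ξ + ivec p := by
    intro p
    simp only [hy, zero_smul, add_zero]
  have h01 : |(0 : ℝ)| < 1 := by simp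
  have hsum1 : Summable fun p : Fin n → ℤ =>
      fderiv ℝ (Ψ l) (ξ + ivec p) u * conj (Ψ l' (ξ + ivec p)) := by
    refine Summable.of_norm_bounded hUs fun p => ?_
    have := hb1 l l' p 0 h01
    rwa [hy0] at this
  have hsum2 : Summable fun p : Fin n → ℤ =>
      Ψ l (ξ + ivec p) * conj (fderiv ℝ (Ψ l') (ξ + ivec p) u) := by
    refine Summable.of_norm_bounded hUs fun p => ?_
    have := hb2 l l' p 0 h01
    rwa [hy0] at this
  -- the terms at zero are summable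
  have hg0 : Summable fun p => g p 0 := by
    refine Summable.of_norm_bounded ((hs.mul_left K3).mul_left K3) fun p => ?_
    simp only [hg, hy0]
    rw [norm_mul, RCLike.norm_conj]
    refine mul_le_mul ?_ (hbd l' _) (norm_nonneg _) hK3.le
    refine (hbd l _).trans ?_
    have h2 : (1 + ‖ξ + ivec p‖) ^ (-N) ≤ 1 :=
      Real.rpow_le_one_of_one_le_of_nonpos (by linarith [norm_nonneg (ξ + ivec p)]) (by linarith)
    calc K3 * (1 + ‖ξ + ivec p‖) ^ (-N) ≤ K3 * 1 := mul_le_mul_of_nonneg_left h2 hK3.le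
      _ = K3 := mul_one _
  have hder : HasDerivAt (fun t => ∑' p, g p t) (∑' p, g' p 0) 0 := by
    refine hasDerivAt_tsum_of_isPreconnected (u := fun p => 2 * U p) (t := Metric.ball (0 : ℝ) 1)
      (y₀ := 0) (hUs.mul_left 2) Metric.isOpen_ball (convex_ball (0 : ℝ) 1).isPreconnected
      (fun p t _ => hgd p t) ?_ (Metric.mem_ball_self one_pos) hg0 (Metric.mem_ball_self one_pos)
    intro p t ht
    have ht' : |t| < 1 := by
      simpa [Real.norm_eq_abs] using ht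
    refine (norm_add_le _ _).trans ?_
    have h1 := hb1 l l' p t ht'
    have h2 := hb2 l l' p t ht'
    linarith
  have hconst : (fun t => ∑' p, g p t) = fun _ => if l = l' then (1 : ℂ) else 0 := by
    funext t
    rw [← hI1 n L A Ψ N W l l' (ξ + t • u)]
    refine tsum_congr fun p => ?_
    have : y p t = ξ + t • u + ivec p := by
      simp only [hy]
      abel
    simp only [hg, this]
  rw [hconst] at hder
  have h0 : ∑' p, g' p 0 = 0 := hder.unique (hasDerivAt_const _ _)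
  have hsplit : ∑' p, g' p 0 =
      ∑' p : Fin n → ℤ, fderiv ℝ (Ψ l) (ξ + ivec p) u * conj (Ψ l' (ξ + ivec p)) +
      ∑' p : Fin n → ℤ, Ψ l (ξ + ivec p) * conj (fderiv ℝ (Ψ l') (ξ + ivec p) u) := by
    rw [← hsum1.tsum_add hsum2]
    refine tsum_congr fun p => ?_
    simp only [hg', hy0]
  rw [hsplit] at h0
  have e1 : ∑' p : Fin n → ℤ, conj (Ψ l' (ξ + ivec p)) * fderiv ℝ (Ψ l) (ξ + ivec p) u =
      ∑' p : Fin n → ℤ, fderiv ℝ (Ψ l) (ξ + ivec p) u * conj (Ψ l' (ξ + ivec p)) :=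
    tsum_congr fun p => mul_comm _ _
  have e2 : conj (∑' p : Fin n → ℤ, conj (Ψ l (ξ + ivec p)) * fderiv ℝ (Ψ l') (ξ + ivec p) u) =
      ∑' p : Fin n → ℤ, Ψ l (ξ + ivec p) * conj (fderiv ℝ (Ψ l') (ξ + ivec p) u) := by
    rw [Complex.conj_tsum]
    refine tsum_congr fun p => ?_
    rw [map_mul, Complex.conj_conj]
  rw [e1, e2]
  exact eq_neg_of_add_eq_zero_left h0

end Pool.Agent.Helper56.WV
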