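import Pool.Agent.Helper56.WV.St

/-!
# Project WV (MP_d629b1_an): module GW, completeness of the affine system, pointwise
-/

set_option autoImplicit false

open MeasureTheory Filter Topology
open scoped FourierTransform RealInnerProductSpace Matrix ComplexConjugate

noncomputable section

namespace Pool.Agent.Helper56.WV

open Wav

variable {n L : ℕ}

/-- an integer close to a real number is equal to it -/
theorem GW_int (t : ℝ) :
    ∀ᶠ r in 𝓝[>] (0 : ℝ), ∀ m : ℤ, |(m : ℝ) - t| < r → (m : ℝ) = t := by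
  by_cases h : ∃ k : ℤ, (k : ℝ) = t
  · obtain ⟨k, rfl⟩ := h
    filter_upwards [Ioo_mem_nhdsGT (show (0 : ℝ) < 1 by norm_num)] with r hr m hm
    have h1 : |(m : ℝ) - k| < 1 := hm.trans hr.2
    have h2 : |m - k| < 1 := by exact_mod_cast h1
    have h3 : m - k = 0 := Int.abs_lt_one_iff.1 h2
    have h4 : m = k := by omega
    rw [h4]
  · have hc : IsClosed (Set.range ((↑) : ℤ → ℝ)) := Int.isClosedEmbedding_coe_real.isClosed_range
    have ht : t ∈ (Set.range ((↑) : ℤ → ℝ))ᶜ := by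
      rintro ⟨k, hk⟩
      exact h ⟨k, hk⟩
    obtain ⟨ε, hε, hb⟩ := Metric.isOpen_iff.1 hc.isOpen_compl t ht
    filter_upwards [Ioo_mem_nhdsGT hε] with r hr m hm
    exfalso
    have h1 : (m : ℝ) ∈ Metric.ball t ε := by
      rw [Metric.mem_ball, Real.dist_eq]
      exact hm.trans hr.2
    exact hb h1 ⟨m, rfl⟩

theorem GW_ivec (y : E n) :
    ∀ᶠ r in 𝓝[>] (0 : ℝ), ∀ p : Fin n → ℤ, ‖(ivec p : E n) - y‖ < r → ivec p = y := by
  have h : ∀ᶠ r in 𝓝[>] (0 : ℝ), ∀ i : Fin n, ∀ m : ℤ,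
      |(m : ℝ) - y.ofLp i| < r → (m : ℝ) = y.ofLp i :=
    Filter.eventually_all.2 fun i => GW_int _
  filter_upwards [h] with r hr p hp
  ext i
  have h1 : |(p i : ℝ) - y.ofLp i| ≤ ‖(ivec p : E n) - y‖ := by
    have := PiLp.norm_apply_le ((ivec p : E n) - y) i
    simpa [ivec, Real.norm_eq_abs] using this
  exact hr i (p i) (lt_of_le_of_lt h1 hp)

theorem GW_lat {M : Matrix (Fin n) (Fin n) ℝ} (hM : M.det ≠ 0) (v : E n) :
    ∀ᶠ r in 𝓝[>] (0 : ℝ), ∀ p : Fin n → ℤ,
      ‖act M (ivec p) - v‖ < 2 * r → act M (ivec p) = v := by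
  have hu : IsUnit M.det := isUnit_iff_ne_zero.2 hM
  obtain ⟨C, hC, hCb⟩ : ∃ C : ℝ, 0 < C ∧ ∀ x : E n, ‖act M⁻¹ x‖ ≤ C * ‖x‖ := by
    set T : E n →L[ℝ] E n := LinearMap.toContinuousLinearMap (Matrix.toEuclideanLin M⁻¹) with hT
    refine ⟨‖T‖ + 1, by positivity, fun x => ?_⟩
    have h1 : act M⁻¹ x = T x := rfl
    rw [h1]
    refine (T.le_opNorm x).trans ?_
    exact mul_le_mul_of_nonneg_right (by linarith) (norm_nonneg _)
  have h0 := GW_ivec (act M⁻¹ v)
  have ht : Tendsto (fun r : ℝ => C * (2 * r)) (𝓝[>] 0) (𝓝[>] 0) := by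
    refine tendsto_nhdsWithin_iff.2 ⟨?_, ?_⟩
    · have : Tendsto (fun r : ℝ => C * (2 * r)) (𝓝 0) (𝓝 (C * (2 * 0))) := by
        exact (continuous_const.mul (continuous_const.mul continuous_id)).tendsto 0
      rw [mul_zero, mul_zero] at this
      exact this.mono_left nhdsWithin_le_nhds
    · filter_upwards [self_mem_nhdsWithin] with r hr
      have : (0 : ℝ) < r := hr
      show 0 < C * (2 * r)
      positivity
  filter_upwards [ht.eventually h0] with r hr p hp
  have h1 : (ivec p : E n) - act M⁻¹ v = act M⁻¹ (act M (ivec p) - v) := by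
    rw [act_sub, ← act_mul, Matrix.nonsing_inv_mul _ hu, act_one]
  have h2 : ‖(ivec p : E n) - act M⁻¹ v‖ < C * (2 * r) := by
    rw [h1]
    exact lt_of_le_of_lt (hCb _) (mul_lt_mul_of_pos_left hp hC)
  have h3 := hr p h2
  rw [h3, ← act_mul, Matrix.mul_nonsing_inv _ hu, act_one]

/-- Parseval -/
theorem GW_parseval {A : Matrix (Fin n) (Fin n) ℝ} {Ψ : Fin L → E n → ℂ} {N : ℝ}
    (hPP : St_PP) (hW : WSys A Ψ N) (S T : Set (E n)) (hS : MeasurableSet S) (hT : MeasurableSet T)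
    (hSb : Bornology.IsBounded S) (hTb : Bornology.IsBounded T) :
    HasSum (fun j : ℤ => ∑ l : Fin L, ∫ ξ in T, sc A Ψ j l ξ * ∑' p : Fin n → ℤ,
        S.indicator (fun ζ => conj (sc A Ψ j l ζ)) (ξ + act (Aᵀ ^ j) (ivec p)))
      ((volume.real (T ∩ S) : ℝ) : ℂ) := by
  obtain ⟨b, hb⟩ := hW.basis
  have hSf : volume S ≠ ⊤ := hSb.measure_lt_top.ne
  have hTf : volume T ≠ ⊤ := hTb.measure_lt_top.ne
  have h1 := b.hasSum_inner_mul_inner (indicatorConstLp 2 hT hTf (1 : ℂ))
    (indicatorConstLp 2 hS hSf (1 : ℂ))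
  rw [L2.inner_indicatorConstLp_one_indicatorConstLp_one hT hS hTf hSf] at h1
  have h2 : ∀ i : Fin L × ℤ × (Fin n → ℤ),
      inner ℂ (indicatorConstLp 2 hT hTf (1 : ℂ)) (b i) *
        inner ℂ (b i) (indicatorConstLp 2 hS hSf (1 : ℂ)) =
      conj (∫ ξ in T, conj (faff A (Ψ i.1) i.2.1 i.2.2 ξ)) *
        ∫ ξ in S, conj (faff A (Ψ i.1) i.2.1 i.2.2 ξ) := by
    rintro ⟨l, j, k⟩
    have e1 : inner ℂ (indicatorConstLp 2 hT hTf (1 : ℂ)) (b (l, j, k)) =
        ∫ ξ in T, faff A (Ψ l) j k ξ := by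
      rw [L2.inner_indicatorConstLp_one hT hTf]
      exact integral_congr_ae (ae_restrict_of_ae (hb l j k))
    have e2 : inner ℂ (b (l, j, k)) (indicatorConstLp 2 hS hSf (1 : ℂ)) =
        conj (∫ ξ in S, faff A (Ψ l) j k ξ) := by
      rw [← inner_conj_symm, L2.inner_indicatorConstLp_one hS hSf]
      congr 1
      exact integral_congr_ae (ae_restrict_of_ae (hb l j k))
    rw [e1, e2, integral_conj, integral_conj]
    simp
  simp_rw [h2] at h1
  -- regroup
  have h3 : HasSum (fun q : (ℤ × Fin L) × (Fin n → ℤ) =>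
      conj (∫ ξ in T, conj (faff A (Ψ q.1.2) q.1.1 q.2 ξ)) *
        ∫ ξ in S, conj (faff A (Ψ q.1.2) q.1.1 q.2 ξ)) ((volume.real (T ∩ S) : ℝ) : ℂ) := by
    let e : (ℤ × Fin L) × (Fin n → ℤ) ≃ Fin L × ℤ × (Fin n → ℤ) :=
      ((Equiv.prodComm ℤ (Fin L)).prodCongr (Equiv.refl _)).trans (Equiv.prodAssoc _ _ _)
    exact (e.hasSum_iff (f := fun i : Fin L × ℤ × (Fin n → ℤ) =>
      conj (∫ ξ in T, conj (faff A (Ψ i.1) i.2.1 i.2.2 ξ)) *
        ∫ ξ in S, conj (faff A (Ψ i.1) i.2.1 i.2.2 ξ))).2 h1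
  have h4 := h3.prod_fiberwise (fun q => hPP n L A Ψ N hW S T hS hT hSb hTb q.1 q.2)
  exact h4.prod_fiberwise (fun j => hasSum_fintype _)

theorem GW_cont {A : Matrix (Fin n) (Fin n) ℝ} {Ψ : Fin L → E n → ℂ} {N : ℝ} (hW : WSys A Ψ N)
    (j : ℤ) (l : Fin L) : Continuous (sc A Ψ j l) := by
  have h1 : Continuous (act (Aᵀ ^ (-j)) : E n → E n) := by
    rw [act_eq]
    exact LinearMap.continuous_of_finiteDimensional _
  exact (hW.smooth l).continuous.comp h1

/-- averages over small balls -/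
theorem GW_avg (ξ : E n) (F : E n → ℂ) (hF : Continuous F) :
    Tendsto (fun r : ℝ => ((volume.real (Metric.ball ξ r))⁻¹ : ℝ) •
      ∫ x in Metric.ball ξ r, F x) (𝓝[>] 0) (𝓝 (F ξ)) := by
  rw [Metric.tendsto_nhds]
  intro ε hε
  obtain ⟨δ, hδ, hd⟩ := Metric.continuousAt_iff.1 hF.continuousAt (ε / 2) (half_pos hε)
  filter_upwards [Ioo_mem_nhdsGT hδ] with r hr
  have hV : 0 < volume.real (Metric.ball ξ r) :=
    ENNReal.toReal_pos (Metric.measure_ball_pos volume ξ hr.1).ne' measure_ball_lt_top.ne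
  have hI : IntegrableOn F (Metric.ball ξ r) :=
    (hF.continuousOn.integrableOn_compact (isCompact_closedBall ξ r)).mono_set
      Metric.ball_subset_closedBall
  have hc : IntegrableOn (fun _ : E n => F ξ) (Metric.ball ξ r) :=
    integrableOn_const measure_ball_lt_top.ne
  have h1 : ((volume.real (Metric.ball ξ r))⁻¹ : ℝ) • (∫ x in Metric.ball ξ r, F x) - F ξ =
      ((volume.real (Metric.ball ξ r))⁻¹ : ℝ) • ∫ x in Metric.ball ξ r, (F x - F ξ) := by
    rw [integral_sub hI hc, setIntegral_const, smul_sub, smul_smul, inv_mul_cancel₀ hV.ne',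
      one_smul]
  rw [dist_eq_norm, h1, norm_smul, Real.norm_eq_abs, abs_of_pos (inv_pos.2 hV)]
  have h2 : ‖∫ x in Metric.ball ξ r, (F x - F ξ)‖ ≤ ε / 2 * volume.real (Metric.ball ξ r) := by
    refine norm_setIntegral_le_of_norm_le_const measure_ball_lt_top fun x hx => ?_
    have h3 : dist x ξ < δ := lt_trans (Metric.mem_ball.1 hx) hr.2
    have h4 := hd h3
    rw [dist_eq_norm] at h4
    exact h4.le
  calc (volume.real (Metric.ball ξ r))⁻¹ * ‖∫ x in Metric.ball ξ r, (F x - F ξ)‖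
      ≤ (volume.real (Metric.ball ξ r))⁻¹ * (ε / 2 * volume.real (Metric.ball ξ r)) :=
        mul_le_mul_of_nonneg_left h2 (inv_pos.2 hV).le
    _ = ε / 2 := by field_simp
    _ < ε := half_lt_self hε

/-- the integral of one generator and one scale -/
def GW_I (A : Matrix (Fin n) (Fin n) ℝ) (Ψ : Fin L → E n → ℂ) (j : ℤ) (l : Fin L) (ξ η : E n)
    (r : ℝ) : ℂ :=
  ∫ x in Metric.ball ξ r, sc A Ψ j l x * ∑' p : Fin n → ℤ,
    (Metric.ball η r).indicator (fun ζ => conj (sc A Ψ j l ζ)) (x + act (Aᵀ ^ j) (ivec p))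

theorem GW_lim {A : Matrix (Fin n) (Fin n) ℝ} {Ψ : Fin L → E n → ℂ} {N : ℝ} (hW : WSys A Ψ N)
    (ξ η : E n) (j : ℤ) (l : Fin L) :
    Tendsto (fun r : ℝ => ((volume.real (Metric.ball ξ r))⁻¹ : ℝ) • GW_I A Ψ j l ξ η r)
      (𝓝[>] 0) (𝓝 (open Classical in if η - ξ ∈ Gam A j then
        sc A Ψ j l ξ * conj (sc A Ψ j l η) else 0)) := by
  classical
  have hdet : (Aᵀ).det ≠ 0 := by
    rw [Matrix.det_transpose]
    exact expansive_det hW.exp
  have hdetj : (Aᵀ ^ j).det ≠ 0 := by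
    have hu : IsUnit (Aᵀ).det := isUnit_iff_ne_zero.2 hdet
    intro h0
    have h1 : (Aᵀ ^ j * Aᵀ ^ (-j)).det = 0 := by rw [Matrix.det_mul, h0, zero_mul]
    rw [← Matrix.zpow_add hu, add_neg_cancel, zpow_zero, Matrix.det_one] at h1
    exact one_ne_zero h1
  have hlat := GW_lat hdetj (η - ξ)
  by_cases hm : η - ξ ∈ Gam A j
  · rw [if_pos hm]
    obtain ⟨p0, hp0⟩ := mem_Gam'.1 hm
    set F : E n → ℂ := fun x => sc A Ψ j l x * conj (sc A Ψ j l (x + (η - ξ))) with hF
    have hFc : Continuous F := by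
      have := GW_cont hW j l
      exact this.mul (Complex.continuous_conj.comp (this.comp (continuous_id.add continuous_const)))
    have h1 := GW_avg ξ F hFc
    have h2 : F ξ = sc A Ψ j l ξ * conj (sc A Ψ j l η) := by
      simp only [hF, add_sub_cancel]
    rw [← h2]
    refine h1.congr' ?_
    filter_upwards [hlat] with r hr
    congr 1
    unfold GW_I
    refine setIntegral_congr_fun Metric.isOpen_ball.measurableSet fun x hx => ?_
    simp only [hF]
    congr 1
    rw [tsum_eq_single p0]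
    · rw [hp0, Set.indicator_of_mem]
      rw [Metric.mem_ball, dist_eq_norm] at hx ⊢
      have : x + (η - ξ) - η = x - ξ := by abel
      rwa [this]
    · intro p hp
      apply Set.indicator_of_notMem
      intro hmem
      apply hp
      rw [Metric.mem_ball, dist_eq_norm] at hx hmem
      have h3 : ‖act (Aᵀ ^ j) (ivec p) - (η - ξ)‖ < 2 * r := by
        have e : act (Aᵀ ^ j) (ivec p) - (η - ξ) = (x + act (Aᵀ ^ j) (ivec p) - η) - (x - ξ) := by
          abel
        rw [e]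
        refine (norm_sub_le _ _).trans_lt ?_
        linarith
      have h4 := hr p h3
      rw [← hp0] at h4
      have h5 : (ivec p : E n) = ivec p0 := act_inj hdetj h4
      funext a
      have h6 := congrArg (fun x : E n => x.ofLp a) h5
      simp only [ivec] at h6
      exact_mod_cast h6
  · rw [if_neg hm]
    refine tendsto_const_nhds.congr' ?_
    filter_upwards [hlat] with r hr
    have h0 : GW_I A Ψ j l ξ η r = 0 := by
      unfold GW_I
      rw [← integral_zero (E n) ℂ (μ := volume.restrict (Metric.ball ξ r))]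
      refine setIntegral_congr_fun Metric.isOpen_ball.measurableSet fun x hx => ?_
      have : ∀ p : Fin n → ℤ, (Metric.ball η r).indicator (fun ζ => conj (sc A Ψ j l ζ))
          (x + act (Aᵀ ^ j) (ivec p)) = 0 := by
        intro p
        apply Set.indicator_of_notMem
        intro hmem
        apply hm
        rw [Metric.mem_ball, dist_eq_norm] at hx hmem
        have h3 : ‖act (Aᵀ ^ j) (ivec p) - (η - ξ)‖ < 2 * r := by
          have e : act (Aᵀ ^ j) (ivec p) - (η - ξ) =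
              (x + act (Aᵀ ^ j) (ivec p) - η) - (x - ξ) := by abel
          rw [e]
          refine (norm_sub_le _ _).trans_lt ?_
          linarith
        exact mem_Gam'.2 ⟨p, hr p h3⟩
      simp only [this, tsum_zero, mul_zero]
    rw [h0, smul_zero]

theorem p_GW (hPP : St_PP) (hLS : St_LS) (hSU : St_SU) (_hI0 : St_I0) : St_GW := by
  classical
  intro n L A Ψ N hW ξ η hξ hη
  obtain ⟨K, hK, hLb⟩ := hLS n L A Ψ N hW
  obtain ⟨δ, hδ, s, hs, hsb⟩ := hSU n L A Ψ N hW ξ hξ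
  set V : ℝ → ℝ := fun r => volume.real (Metric.ball ξ r) with hV
  have hVpos : ∀ r, 0 < r → 0 < V r := fun r hr =>
    ENNReal.toReal_pos (Metric.measure_ball_pos volume ξ hr).ne' measure_ball_lt_top.ne
  -- bound
  have hbd : ∀ r, 0 < r → r < δ → ∀ (j : ℤ) (l : Fin L),
      ‖((V r)⁻¹ : ℝ) • GW_I A Ψ j l ξ η r‖ ≤ s j * K := by
    intro r hr hrδ j l
    have hs0 : 0 ≤ s j := (norm_nonneg _).trans (hsb j l ξ (Metric.mem_ball_self hδ))
    have h1 : ‖GW_I A Ψ j l ξ η r‖ ≤ (s j * K) * V r := by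
      unfold GW_I
      refine norm_setIntegral_le_of_norm_le_const measure_ball_lt_top fun x hx => ?_
      rw [norm_mul]
      refine mul_le_mul (hsb j l x (Metric.ball_subset_ball hrδ.le hx)) ?_ (norm_nonneg _) hs0
      have hle : ∀ p : Fin n → ℤ, ‖(Metric.ball η r).indicator
          (fun ζ => conj (sc A Ψ j l ζ)) (x + act (Aᵀ ^ j) (ivec p))‖ ≤
          ‖sc A Ψ j l (x + act (Aᵀ ^ j) (ivec p))‖ := by
        intro p
        refine (norm_indicator_le_norm_self _ _).trans ?_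
        rw [RCLike.norm_conj]
      have hsm : Summable fun p : Fin n → ℤ => ‖(Metric.ball η r).indicator
          (fun ζ => conj (sc A Ψ j l ζ)) (x + act (Aᵀ ^ j) (ivec p))‖ :=
        Summable.of_nonneg_of_le (fun _ => norm_nonneg _) hle (hLb j l x).1
      exact (norm_tsum_le_tsum_norm hsm).trans
        ((hsm.tsum_le_tsum hle (hLb j l x).1).trans (hLb j l x).2)
    rw [norm_smul, Real.norm_eq_abs, abs_of_pos (inv_pos.2 (hVpos r hr))]
    calc (V r)⁻¹ * ‖GW_I A Ψ j l ξ η r‖ ≤ (V r)⁻¹ * ((s j * K) * V r) :=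
          mul_le_mul_of_nonneg_left h1 (inv_pos.2 (hVpos r hr)).le
      _ = s j * K := by
          have := (hVpos r hr).ne'
          field_simp
  -- limit of every term
  have hlim : ∀ j : ℤ, Tendsto (fun r : ℝ => ∑ l : Fin L, ((V r)⁻¹ : ℝ) • GW_I A Ψ j l ξ η r)
      (𝓝[>] 0) (𝓝 (ker A Ψ j ξ η)) := by
    intro j
    have h1 := tendsto_finsetSum Finset.univ fun l (_ : l ∈ (Finset.univ : Finset (Fin L))) =>
      GW_lim hW ξ η j l
    have h2 : ker A Ψ j ξ η = ∑ l : Fin L, (if η - ξ ∈ Gam A j then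
        sc A Ψ j l ξ * conj (sc A Ψ j l η) else 0) := by
      unfold ker
      split_ifs
      · rfl
      · simp
    rw [h2]
    exact h1
  -- sum over the scales
  have hsum : ∀ r, 0 < r → ∑' j : ℤ, ∑ l : Fin L, ((V r)⁻¹ : ℝ) • GW_I A Ψ j l ξ η r =
      (((V r)⁻¹ * volume.real (Metric.ball ξ r ∩ Metric.ball η r) : ℝ) : ℂ) := by
    intro r hr
    have h1 := GW_parseval hPP hW (Metric.ball η r) (Metric.ball ξ r)
      Metric.isOpen_ball.measurableSet Metric.isOpen_ball.measurableSet Metric.isBounded_ball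
      Metric.isBounded_ball
    have h2 := h1.const_smul ((V r)⁻¹ : ℝ)
    have h3 : (fun j : ℤ => ∑ l : Fin L, ((V r)⁻¹ : ℝ) • GW_I A Ψ j l ξ η r) = fun j : ℤ =>
        ((V r)⁻¹ : ℝ) • ∑ l : Fin L, GW_I A Ψ j l ξ η r := by
      funext j
      rw [Finset.smul_sum]
    rw [h3]
    refine h2.tsum_eq.trans ?_
    rw [Complex.real_smul]
    push_cast
    rfl
  have hT := tendsto_tsum_of_dominated_convergence
    (f := fun (r : ℝ) (j : ℤ) => ∑ l : Fin L, ((V r)⁻¹ : ℝ) • GW_I A Ψ j l ξ η r)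
    (bound := fun j => (L : ℝ) * (s j * K)) ((hs.mul_right K).mul_left _) hlim (by
      filter_upwards [Ioo_mem_nhdsGT hδ] with r hr j
      refine (norm_sum_le _ _).trans ?_
      calc ∑ l : Fin L, ‖((V r)⁻¹ : ℝ) • GW_I A Ψ j l ξ η r‖ ≤ ∑ _l : Fin L, s j * K :=
            Finset.sum_le_sum fun l _ => hbd r hr.1 hr.2 j l
        _ = (L : ℝ) * (s j * K) := by simp)
  have hL : Tendsto (fun r : ℝ => ∑' j : ℤ, ∑ l : Fin L, ((V r)⁻¹ : ℝ) • GW_I A Ψ j l ξ η r)
      (𝓝[>] 0) (𝓝 (if ξ = η then 1 else 0)) := by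
    split_ifs with he
    · subst he
      refine tendsto_const_nhds.congr' ?_
      filter_upwards [self_mem_nhdsWithin] with r hr
      rw [hsum r hr, Set.inter_self, inv_mul_cancel₀ (hVpos r hr).ne']
      norm_num
    · have hd : 0 < dist ξ η / 2 := half_pos (dist_pos.2 he)
      refine tendsto_const_nhds.congr' ?_
      filter_upwards [Ioo_mem_nhdsGT hd] with r hr
      have hdis : Metric.ball ξ r ∩ Metric.ball η r = ∅ := by
        rw [← Set.disjoint_iff_inter_eq_empty]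
        exact Metric.ball_disjoint_ball (by linarith [hr.2])
      rw [hsum r hr.1, hdis]
      simp
  exact tendsto_nhds_unique hT hL

end Pool.Agent.Helper56.WV
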