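import Pool.Agent.Helper56.WV.St

/-!
# Project WV (MP_d629b1_an), module I0: the generators vanish at the origin
-/

set_option autoImplicit false

open MeasureTheory
open scoped FourierTransform RealInnerProductSpace Matrix ComplexConjugate

noncomputable section

namespace Pool.Agent.Helper56.WV

open Wav

theorem p_I0 (hBE : St_BE) : St_I0 := by
  intro n L A Ψ N hW l
  by_contra hne
  have hpos : 0 < ‖Ψ l 0‖ ^ 2 := by positivity
  obtain ⟨m, hm⟩ := exists_nat_gt (1 / ‖Ψ l 0‖ ^ 2)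
  have h1 := hBE n L A Ψ N hW 0 ((Finset.range m).map Nat.castEmbedding)
  have h2 : ∀ j : ℤ, ‖Ψ l 0‖ ^ 2 ≤ dg A Ψ j 0 := by
    intro j
    have h3 : dg A Ψ j 0 = ∑ l, ‖Ψ l 0‖ ^ 2 := by
      unfold dg sc
      rw [act_zero]
    rw [h3]
    exact Finset.single_le_sum (f := fun l => ‖Ψ l 0‖ ^ 2) (fun i _ => by positivity)
      (Finset.mem_univ l)
  have h4 : ∑ _j ∈ (Finset.range m).map (Nat.castEmbedding (R := ℤ)), ‖Ψ l 0‖ ^ 2 ≤
      ∑ j ∈ (Finset.range m).map (Nat.castEmbedding (R := ℤ)), dg A Ψ j 0 :=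
    Finset.sum_le_sum fun j _ => h2 j
  rw [Finset.sum_const, Finset.card_map, Finset.card_range, nsmul_eq_mul] at h4
  rw [div_lt_iff₀ hpos] at hm
  linarith

end Pool.Agent.Helper56.WV
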