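import Pool.Agent.Helper56.WV.St

/-!
# Project WV (MP_d629b1_an): module I1, orthonormality of the translates at one scale, pointwise
-/

set_option autoImplicit false

open MeasureTheory
open scoped FourierTransform RealInnerProductSpace Matrix ComplexConjugate

noncomputable section

namespace Pool.Agent.Helper56.WV

open Wav

theorem i1_faff_zero {n : ℕ} (A : Matrix (Fin n) (Fin n) ℝ) (F : E n → ℂ) (k : Fin n → ℤ)
    (ξ : E n) : faff A F 0 k ξ = ee (-⟪ivec k, ξ⟫) * F ξ := by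
  have h1 : ∀ x : E n, act (1 : Matrix (Fin n) (Fin n) ℝ) x = x := by
    intro x
    simp [act]
  simp [faff, h1]

theorem i1_int {n L : ℕ} {A : Matrix (Fin n) (Fin n) ℝ} {Ψ : Fin L → E n → ℂ} {N : ℝ}
    (h : WSys A Ψ N) (l l' : Fin L) (k : Fin n → ℤ) :
    ∫ ξ, (Ψ l ξ * conj (Ψ l' ξ)) * ee ⟪ivec k, ξ⟫ =
      if k = 0 then (if l = l' then (1 : ℂ) else 0) else 0 := by
  classical
  obtain ⟨b, hb⟩ := h.basis
  have h1 := orthonormal_iff_ite.1 b.orthonormal (l', 0, 0) (l, 0, -k)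
  rw [L2.inner_def] at h1
  have h2 : ∫ ξ, inner ℂ ((b (l', 0, 0) : E n → ℂ) ξ) ((b (l, 0, -k) : E n → ℂ) ξ) =
      ∫ ξ, (Ψ l ξ * conj (Ψ l' ξ)) * ee ⟪ivec k, ξ⟫ := by
    refine integral_congr_ae ?_
    filter_upwards [hb l' 0 0, hb l 0 (-k)] with ξ e1 e2
    rw [e1, e2, i1_faff_zero, i1_faff_zero, RCLike.inner_apply, ivec_zero, ivec_neg]
    have e3 : ee (-⟪(0 : E n), ξ⟫) = 1 := by
      rw [inner_zero_left]
      simp [ee]
    rw [e3, inner_neg_left, neg_neg]
    ring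
  rw [h2] at h1
  rw [h1]
  by_cases hk : k = 0
  · subst hk
    by_cases hl : l = l'
    · subst hl; simp
    · have : ¬ (l' = l) := fun e => hl e.symm
      simp [hl, this]
  · have : ¬ ((0 : Fin n → ℤ) = -k) := by
      intro e
      apply hk
      have := congrArg Neg.neg e
      simpa using this.symm
    simp [hk, this]

theorem p_I1 (hPZ : St_PZ) : St_I1 := by
  intro n L A Ψ N h l l' ξ
  obtain ⟨K, hK, hb⟩ := h.bound
  have hN := h.hN
  refine hPZ n N (K ^ 2) (fun ξ => Ψ l ξ * conj (Ψ l' ξ)) (if l = l' then 1 else 0) (by linarith)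
    ?_ ?_ (i1_int h l l') ξ
  · exact (h.smooth l).continuous.mul
      (Complex.continuous_conj.comp (h.smooth l').continuous)
  · intro η
    have h1 := hb l η
    have h2 := hb l' η
    have h3 : (1 + ‖η‖) ^ (-N) ≤ 1 :=
      Real.rpow_le_one_of_one_le_of_nonpos (by linarith [norm_nonneg η])
        (by have := h.one_le; have h4 : (1 : ℝ) ≤ n := by exact_mod_cast this
            linarith)
    have h4 : 0 ≤ (1 + ‖η‖) ^ (-N) := Real.rpow_nonneg (by linarith [norm_nonneg η]) _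
    rw [norm_mul, RCLike.norm_conj]
    calc ‖Ψ l η‖ * ‖Ψ l' η‖ ≤ (K * (1 + ‖η‖) ^ (-N)) * (K * (1 + ‖η‖) ^ (-N)) :=
          mul_le_mul h1 h2 (norm_nonneg _) (by positivity)
      _ = K ^ 2 * (1 + ‖η‖) ^ (-N) * (1 + ‖η‖) ^ (-N) := by ring
      _ ≤ K ^ 2 * (1 + ‖η‖) ^ (-N) * 1 := by
          apply mul_le_mul_of_nonneg_left h3
          positivity
      _ = K ^ 2 * (1 + ‖η‖) ^ (-N) := by ring

end Pool.Agent.Helper56.WV
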