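import Pool.Agent.Helper56.WV.St
import Pool.Agent.Helper98.Wav.N1

/-!
# Project WV, module I2: orthogonality of two scales, pointwise, over the common vectors
-/

set_option autoImplicit false

open MeasureTheory Filter Topology
open scoped FourierTransform RealInnerProductSpace Matrix ComplexConjugate

noncomputable section

namespace Pool.Agent.Helper56.WV

open Wav

namespace MI2

variable {n L : ℕ}

/-- Averages of powers of a complex number of modulus one. -/
theorem avg_pow (z : ℂ) (hz : ‖z‖ = 1) :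
    Tendsto (fun R : ℕ => ((R : ℂ)⁻¹) * ∑ m ∈ Finset.range R, z ^ m) atTop
      (𝓝 (if z = 1 then 1 else 0)) := by
  by_cases h : z = 1
  · rw [if_pos h]
    refine tendsto_const_nhds.congr' ?_
    filter_upwards [eventually_gt_atTop 0] with R hR
    rw [h]
    simp only [one_pow, Finset.sum_const, Finset.card_range, nsmul_eq_mul, mul_one]
    rw [inv_mul_cancel₀]
    exact_mod_cast hR.ne'
  · rw [if_neg h]
    have h1 : z - 1 ≠ 0 := sub_ne_zero.2 h
    have h2 : 0 < ‖z - 1‖ := norm_pos_iff.2 h1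
    have h3 : Tendsto (fun R : ℕ => (2 / ‖z - 1‖) * ((R : ℝ)⁻¹)) atTop (𝓝 0) := by
      have := tendsto_inv_atTop_nhds_zero_nat (𝕜 := ℝ)
      simpa using this.const_mul (2 / ‖z - 1‖)
    refine squeeze_zero_norm (fun R => ?_) h3
    rw [norm_mul, norm_inv, Complex.norm_natCast, mul_comm]
    refine mul_le_mul_of_nonneg_right ?_ (by positivity)
    rw [geom_sum_eq h, norm_div]
    refine div_le_div_of_nonneg_right ?_ h2.le
    refine (norm_sub_le _ _).trans ?_
    rw [norm_pow, hz, one_pow, norm_one]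
    norm_num

theorem avg_pow_le (z : ℂ) (hz : ‖z‖ = 1) (R : ℕ) :
    ‖((R : ℂ)⁻¹) * ∑ m ∈ Finset.range R, z ^ m‖ ≤ 1 := by
  rw [norm_mul, norm_inv, Complex.norm_natCast]
  have h1 : ‖∑ m ∈ Finset.range R, z ^ m‖ ≤ R := by
    refine (norm_sum_le _ _).trans ?_
    simp [norm_pow, hz]
  rcases Nat.eq_zero_or_pos R with h | h
  · subst h
    simp
  · have hR : (0 : ℝ) < R := by exact_mod_cast h
    rw [inv_mul_le_iff₀ hR, mul_one]
    exact h1

/-- If all the twisted sums vanish, so does the sum over the integral frequencies. -/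
theorem sum_avg (a : (Fin n → ℤ) → ℂ) (ha : Summable fun p => ‖a p‖)
    (z : (Fin n → ℤ) → Fin n → ℂ) (hz : ∀ p i, ‖z p i‖ = 1)
    (h0 : ∀ k : Fin n → ℕ, ∑' p, a p * ∏ i, z p i ^ k i = 0)
    [DecidablePred fun p => ∀ i, z p i = 1] :
    ∑' p, (if ∀ i, z p i = 1 then a p else 0) = 0 := by
  set M : ℕ → (Fin n → ℤ) → ℂ := fun R p =>
    ∏ i, (((R : ℂ)⁻¹) * ∑ m ∈ Finset.range R, z p i ^ m) with hM
  have hM1 : ∀ R p, ‖M R p‖ ≤ 1 := by
    intro R p
    simp only [hM]
    rw [norm_prod]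
    exact Finset.prod_le_one (fun _ _ => norm_nonneg _) (fun i _ => avg_pow_le _ (hz p i) R)
  have hM2 : ∀ p, Tendsto (fun R => M R p) atTop (𝓝 (if ∀ i, z p i = 1 then 1 else 0)) := by
    intro p
    have h1 : Tendsto (fun R => M R p) atTop (𝓝 (∏ i, (if z p i = 1 then (1 : ℂ) else 0))) :=
      tendsto_finsetProd _ (fun i _ => avg_pow _ (hz p i))
    have h2 : (∏ i, (if z p i = 1 then (1 : ℂ) else 0)) = if ∀ i, z p i = 1 then 1 else 0 := by
      by_cases h : ∀ i, z p i = 1
      · rw [if_pos h]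
        exact Finset.prod_eq_one (fun i _ => if_pos (h i))
      · rw [if_neg h]
        push Not at h
        obtain ⟨i, hi⟩ := h
        exact Finset.prod_eq_zero (Finset.mem_univ i) (if_neg hi)
    rw [h2] at h1
    exact h1
  have h3 : ∀ R, ∑' p, a p * M R p = 0 := by
    intro R
    have h4 : ∀ p, a p * M R p = ∑ k ∈ Fintype.piFinset fun _ : Fin n => Finset.range R,
        (((R : ℂ)⁻¹) ^ n) * (a p * ∏ i, z p i ^ k i) := by
      intro p
      simp only [hM]
      rw [Finset.prod_mul_distrib, Finset.prod_const, Finset.card_univ, Fintype.card_fin,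
        Finset.prod_univ_sum, ← Finset.mul_sum, ← Finset.mul_sum]
      ring
    simp only [h4]
    rw [Summable.tsum_finsetSum]
    · refine Finset.sum_eq_zero (fun k _ => ?_)
      rw [tsum_mul_left, h0 k, mul_zero]
    · intro k _
      apply Summable.mul_left
      refine Summable.of_norm_bounded ha (fun p => ?_)
      rw [norm_mul, norm_prod]
      have : ∏ i, ‖z p i ^ k i‖ = 1 := by
        refine Finset.prod_eq_one (fun i _ => ?_)
        rw [norm_pow, hz, one_pow]
      rw [this, mul_one]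
  have h5 : Tendsto (fun R => ∑' p, a p * M R p) atTop
      (𝓝 (∑' p, a p * (if ∀ i, z p i = 1 then 1 else 0))) := by
    refine tendsto_tsum_of_dominated_convergence (bound := fun p => ‖a p‖) ha ?_ ?_
    · intro p
      exact (hM2 p).const_mul _
    · refine Eventually.of_forall (fun R p => ?_)
      rw [norm_mul]
      exact mul_le_of_le_one_right (norm_nonneg _) (hM1 R p)
  simp only [h3] at h5
  have h6 := tendsto_nhds_unique h5 tendsto_const_nhds
  refine Eq.trans (tsum_congr (fun p => ?_)) h6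
  split_ifs <;> simp

theorem ee_nsmul (k : ℕ) (t : ℝ) : ee (k * t) = ee t ^ k := by
  unfold ee
  rw [← Complex.exp_nat_mul]
  congr 1
  push_cast
  ring

theorem ee_sum {ι : Type} (s : Finset ι) (f : ι → ℝ) : ee (∑ i ∈ s, f i) = ∏ i ∈ s, ee (f i) := by
  unfold ee
  rw [← Complex.exp_sum]
  congr 1
  push_cast
  rw [Finset.mul_sum]

theorem ee_eq_one {t : ℝ} : ee t = 1 ↔ ∃ m : ℤ, t = m := by
  unfold ee
  rw [Complex.exp_eq_one_iff]
  constructor
  · rintro ⟨m, hm⟩
    refine ⟨m, ?_⟩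
    have h1 : (2 * (Real.pi : ℂ) * Complex.I) ≠ 0 := by
      simp [Real.pi_ne_zero]
    have h2 : (t : ℂ) = m := by
      apply mul_left_cancel₀ h1
      rw [hm]
      ring
    exact_mod_cast h2
  · rintro ⟨m, hm⟩
    refine ⟨m, ?_⟩
    rw [hm]
    push_cast
    ring

theorem inner_ivec' (k : Fin n → ℤ) (x : E n) : ⟪ivec k, x⟫ = ∑ i, (k i : ℝ) * x.ofLp i := by
  simp only [ivec, EuclideanSpace.inner_eq_star_dotProduct, star_trivial, dotProduct]
  exact Finset.sum_congr rfl fun a _ => mul_comm _ _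

theorem ivec_surj {x : E n} (h : ∀ i, ∃ m : ℤ, x.ofLp i = m) : ∃ q : Fin n → ℤ, x = ivec q := by
  choose q hq using h
  refine ⟨q, ?_⟩
  ext i
  simpa [ivec] using hq i

end MI2

open MI2

theorem p_I2 (hPZ : St_PZ) (hLS : St_LS) : St_I2 := by
  classical
  intro n L A Ψ N hW i j hij l l' ξ
  have hA : A.det ≠ 0 := expansive_det hW.exp
  have hAt : Aᵀ.det ≠ 0 := by rwa [Matrix.det_transpose]
  obtain ⟨K, hK, hKb⟩ := hW.bound
  have hNn : (n : ℝ) < N := by linarith [hW.hN]
  have hN0 : 0 < N := lt_of_le_of_lt (Nat.cast_nonneg n) hNn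
  have hKb' : ∀ l ξ, ‖Ψ l ξ‖ ≤ K := by
    intro l ξ
    refine (hKb l ξ).trans ?_
    have h1 : (1 + ‖ξ‖) ^ (-N) ≤ 1 := by
      apply Real.rpow_le_one_of_one_le_of_nonpos
      · linarith [norm_nonneg ξ]
      · linarith
    calc K * (1 + ‖ξ‖) ^ (-N) ≤ K * 1 := mul_le_mul_of_nonneg_left h1 hK.le
      _ = K := mul_one K
  have hcont : ∀ l, Continuous (Ψ l) := fun l => (hW.smooth l).continuous
  -- the product
  set G : E n → ℂ := fun x => sc A Ψ i l x * conj (sc A Ψ j l' x) with hG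
  set a : (Fin n → ℤ) → ℂ := fun p => G (ξ + act (Aᵀ ^ i) (ivec p)) with haDef
  have haS : Summable fun p => ‖a p‖ := by
    obtain ⟨K', _, hK'⟩ := hLS n L A Ψ N hW
    have h1 := (hK' i l ξ).1.mul_left K
    refine Summable.of_nonneg_of_le (fun _ => norm_nonneg _) (fun p => ?_) h1
    simp only [haDef, hG]
    rw [norm_mul, RCLike.norm_conj, mul_comm]
    exact mul_le_mul_of_nonneg_right (hKb' _ _) (norm_nonneg _)
  -- the coordinates of a common vector
  have hinj : Function.Injective (fun p : Fin n → ℤ => act (Aᵀ ^ i) (ivec p)) := by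
    intro p q hpq
    have hdi : (Aᵀ ^ i).det ≠ 0 := by
      have hu : IsUnit Aᵀ.det := isUnit_iff_ne_zero.2 hAt
      exact (hu.det_zpow i).ne_zero
    have h1 := act_inj hdi hpq
    funext s
    have h2 := congrArg (fun x : E n => x.ofLp s) h1
    simpa [ivec] using h2
  have hex : ∀ γ : Cm A i j, ∃ p : Fin n → ℤ, act (Aᵀ ^ i) (ivec p) = (γ : E n) :=
    fun γ => γ.2.1
  choose φ hφ using hex
  have hφinj : Function.Injective φ := by
    intro γ γ' h
    apply Subtype.ext
    rw [← hφ γ, ← hφ γ', h]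
  have haφ : ∀ γ : Cm A i j, a (φ γ) = G (ξ + γ) := by
    intro γ
    simp only [haDef]
    rw [hφ]
  refine ⟨?_, ?_⟩
  · have h1 := haS.comp_injective hφinj
    refine h1.congr (fun γ => ?_)
    simp only [Function.comp]
    rw [haφ]
  -- twisted sums
  set θ : (Fin n → ℤ) → E n := fun p => act (Aᵀ ^ (-j)) (act (Aᵀ ^ i) (ivec p)) with hθ
  have htw : ∀ k : Fin n → ℤ, ∑' p, a p * ee ⟪ivec k, θ p⟫ = 0 := by
    intro k
    set w : E n := act (A ^ (-j)) (ivec k) with hw
    set G' : E n → ℂ := fun y => G (act (Aᵀ ^ i) y) * ee ⟪w, act (Aᵀ ^ i) y⟫ with hG'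
    have hsc : ∀ y, sc A Ψ i l (act (Aᵀ ^ i) y) = Ψ l y := by
      intro y
      unfold sc
      rw [ND.act_zpow_neg_cancel hAt]
    have hG'c : Continuous G' := by
      have h1 : Continuous fun y => G (act (Aᵀ ^ i) y) := by
        simp only [hG]
        refine Continuous.mul ?_ ?_
        · simp only [hsc]
          exact hcont l
        · refine Complex.continuous_conj.comp ?_
          unfold sc
          exact (hcont l').comp ((ND.act_cont _).comp (ND.act_cont _))
      refine h1.mul (ee_cont.comp ?_)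
      exact Continuous.inner continuous_const (ND.act_cont _)
    have hG'b : ∀ y, ‖G' y‖ ≤ (K * K) * (1 + ‖y‖) ^ (-N) := by
      intro y
      simp only [hG', hG]
      rw [norm_mul, ee_norm, mul_one, norm_mul, RCLike.norm_conj, hsc]
      have h1 := hKb l y
      have h2 : ‖sc A Ψ j l' (act (Aᵀ ^ i) y)‖ ≤ K := hKb' _ _
      have h3 : 0 ≤ (1 + ‖y‖) ^ (-N) := by
        have := norm_nonneg y
        positivity
      calc ‖Ψ l y‖ * ‖sc A Ψ j l' (act (Aᵀ ^ i) y)‖
          ≤ (K * (1 + ‖y‖) ^ (-N)) * K :=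
            mul_le_mul h1 h2 (norm_nonneg _) (by positivity)
        _ = (K * K) * (1 + ‖y‖) ^ (-N) := by ring
    have hG'0 : ∀ q : Fin n → ℤ, ∫ y, G' y * ee ⟪ivec q, y⟫ = if q = 0 then (0 : ℂ) else 0 := by
      intro q
      rw [ite_self]
      obtain ⟨b, hb⟩ := hW.basis
      have horth : ∀ k k' : Fin n → ℤ,
          ∫ x, conj (faff A (Ψ l') j k x) * faff A (Ψ l) i k' x = 0 :=
        fun k k' => N1.orth_of_ne b hb l' l (Ne.symm hij) k k'
      have h1 := ND.I_lattice hA j i horth k (-q)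
      have hdi : (Aᵀ ^ i).det ≠ 0 := by
        have hu : IsUnit Aᵀ.det := isUnit_iff_ne_zero.2 hAt
        exact (hu.det_zpow i).ne_zero
      have h2 := integral_act hdi (fun x => ND.G A (Ψ l') (Ψ l) j i x *
        ee ⟪act (A ^ (-j)) (ivec k) - act (A ^ (-i)) (ivec (-q)), x⟫)
      rw [h1, mul_zero] at h2
      rw [← h2]
      congr 1
      funext y
      simp only [hG', hG, ND.G]
      rw [inner_sub_left, ND.inner_act_zpow A (-i), ND.act_zpow_neg_cancel hAt, ivec_neg,
        inner_neg_left, sub_neg_eq_add, ND.ee_add]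
      unfold sc
      rw [ND.act_zpow_neg_cancel hAt i y]
      ring
    have hp := hPZ n N (K * K) G' 0 hNn hG'c hG'b hG'0 (act (Aᵀ ^ (-i)) ξ)
    have h4 : ∀ p : Fin n → ℤ, G' (act (Aᵀ ^ (-i)) ξ + ivec p) =
        ee ⟪w, ξ⟫ * (a p * ee ⟪ivec k, θ p⟫) := by
      intro p
      simp only [hG', haDef]
      rw [act_add, ND.act_zpow_cancel hAt, inner_add_right, ND.ee_add, hw,
        ND.inner_act_zpow A (-j) (ivec k) (act (Aᵀ ^ i) (ivec p))]
      ring
    simp only [h4] at hp
    rw [tsum_mul_left] at hp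
    have h5 : ee ⟪w, ξ⟫ ≠ 0 := by
      rw [← norm_pos_iff, ee_norm]
      exact one_pos
    exact (mul_eq_zero.1 hp).resolve_left h5
  -- averaging
  have hmain := sum_avg a haS (fun p s => ee ((θ p).ofLp s)) (fun _ _ => ee_norm _) (by
    intro k
    rw [← htw (fun s => (k s : ℤ))]
    refine tsum_congr (fun p => ?_)
    congr 1
    rw [inner_ivec', ee_sum]
    refine Finset.prod_congr rfl (fun s _ => ?_)
    rw [← ee_nsmul]
    push_cast
    rfl)
  have hcond : ∀ p : Fin n → ℤ, (∀ s, ee ((θ p).ofLp s) = 1) ↔ p ∈ Set.range φ := by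
    intro p
    constructor
    · intro h
      obtain ⟨q, hq⟩ := ivec_surj (x := θ p) (fun s => ee_eq_one.1 (h s))
      have h1 : act (Aᵀ ^ j) (ivec q) = act (Aᵀ ^ i) (ivec p) := by
        rw [← hq, hθ]
        exact ND.act_zpow_cancel hAt _ _
      refine ⟨⟨act (Aᵀ ^ i) (ivec p), ⟨p, rfl⟩, ⟨q, h1⟩⟩, ?_⟩
      apply hinj
      exact hφ _
    · rintro ⟨γ, rfl⟩ s
      rw [ee_eq_one]
      obtain ⟨q, hq⟩ := γ.2.2
      have h1 : θ (φ γ) = ivec q := by
        simp only [hθ]
        rw [hφ, ← hq]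
        exact ND.act_zpow_neg_cancel hAt _ _
      refine ⟨q s, ?_⟩
      rw [h1]
      simp [ivec]
  have h7 := hφinj.tsum_eq (f := fun p => if ∀ s, ee ((θ p).ofLp s) = 1 then a p else 0) (by
    intro p hp
    rw [Function.mem_support] at hp
    rw [← hcond]
    by_contra h
    exact hp (if_neg h))
  rw [hmain] at h7
  rw [← h7]
  refine tsum_congr (fun γ => ?_)
  rw [if_pos ((hcond (φ γ)).2 ⟨γ, rfl⟩), haφ]

end Pool.Agent.Helper56.WV
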