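import Pool.Agent.Helper56.WV.St

/-!
# Project WV (MP_d629b1_an): integration by parts
-/

set_option autoImplicit false

open MeasureTheory
open scoped FourierTransform RealInnerProductSpace Matrix ComplexConjugate

noncomputable section

namespace Pool.Agent.Helper56.WV

open Wav

variable {n : ℕ}

lemma IB_bd (N : ℝ) (ξ : E n) : (1 + ‖ξ‖) ^ (-N) * ‖ξ‖ ≤ (1 + ‖ξ‖) ^ (-(N - 1)) := by
  have h0 : 0 < 1 + ‖ξ‖ := by positivity
  have h1 : (1 + ‖ξ‖) ^ (-(N - 1)) = (1 + ‖ξ‖) ^ (-N) * (1 + ‖ξ‖) := by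
    rw [show -(N - 1) = -N + 1 by ring, Real.rpow_add h0, Real.rpow_one]
  rw [h1]
  refine mul_le_mul_of_nonneg_left (by linarith) (Real.rpow_nonneg h0.le _)

lemma IB_ib (r : ℝ) (hr : (n : ℝ) < r) : Integrable fun ξ : E n => (1 + ‖ξ‖) ^ (-r) := by
  refine integrable_one_add_norm ?_
  rw [finrank_euclideanSpace_fin]
  exact hr

lemma IB_int (N C : ℝ) (hN : (n : ℝ) + 1 < N) (f : E n → ℝ) (hf : Continuous f)
    (hb : ∀ ξ, |f ξ| ≤ C * (1 + ‖ξ‖) ^ (-N)) (v : E n) :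
    Integrable (fun ξ => f ξ * ⟪v, ξ⟫) := by
  refine Integrable.mono' ((IB_ib (N - 1) (by linarith)).const_mul (C * ‖v‖)) ?_ ?_
  · exact (hf.mul (continuous_const.inner continuous_id)).aestronglyMeasurable
  · refine Filter.Eventually.of_forall fun ξ => ?_
    rw [Real.norm_eq_abs, abs_mul]
    have h1 : |⟪v, ξ⟫| ≤ ‖v‖ * ‖ξ‖ := abs_real_inner_le_norm v ξ
    have hp : 0 < (1 + ‖ξ‖) ^ (-N) := Real.rpow_pos_of_pos (by positivity) _
    have h2 : 0 ≤ C * (1 + ‖ξ‖) ^ (-N) := (abs_nonneg _).trans (hb ξ)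
    have hC : 0 ≤ C := nonneg_of_mul_nonneg_left h2 hp
    calc |f ξ| * |⟪v, ξ⟫| ≤ C * (1 + ‖ξ‖) ^ (-N) * (‖v‖ * ‖ξ‖) :=
          mul_le_mul (hb ξ) h1 (abs_nonneg _) h2
      _ = C * ‖v‖ * ((1 + ‖ξ‖) ^ (-N) * ‖ξ‖) := by ring
      _ ≤ _ := mul_le_mul_of_nonneg_left (IB_bd N ξ) (by positivity)

theorem p_IB : St_IB := by
  intro n N K w hN hw hwb hfb u v
  have hfw : ∀ ξ, |fderiv ℝ w ξ u| ≤ (K * ‖u‖) * (1 + ‖ξ‖) ^ (-N) := by
    intro ξ
    have h1 := (fderiv ℝ w ξ).le_opNorm u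
    rw [Real.norm_eq_abs] at h1
    calc |fderiv ℝ w ξ u| ≤ ‖fderiv ℝ w ξ‖ * ‖u‖ := h1
      _ ≤ (K * (1 + ‖ξ‖) ^ (-N)) * ‖u‖ := mul_le_mul_of_nonneg_right (hfb ξ) (norm_nonneg _)
      _ = _ := by ring
  have hi1 : Integrable (fun ξ => fderiv ℝ w ξ u * ⟪v, ξ⟫) :=
    IB_int N (K * ‖u‖) hN (fun ξ => fderiv ℝ w ξ u)
      ((hw.continuous_fderiv one_ne_zero).clm_apply continuous_const) hfw v
  have hi2 : Integrable (fun ξ => w ξ * ⟪v, ξ⟫) := IB_int N K hN w hw.continuous hwb v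
  have hi3 : Integrable w := by
    refine Integrable.mono' ((IB_ib N (by linarith)).const_mul K)
      hw.continuous.aestronglyMeasurable (Filter.Eventually.of_forall fun ξ => ?_)
    rw [Real.norm_eq_abs]
    exact hwb ξ
  have hg : ∀ ξ : E n, HasFDerivAt (fun ζ : E n => (⟪v, ζ⟫ : ℝ)) (innerSL ℝ v) ξ := fun ξ =>
    (innerSL ℝ v).hasFDerivAt
  have hgu : ∀ ξ : E n, fderiv ℝ (fun ζ : E n => (⟪v, ζ⟫ : ℝ)) ξ u = ⟪v, u⟫ := by
    intro ξ
    rw [(hg ξ).fderiv]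
    rfl
  have key := integral_mul_fderiv_eq_neg_fderiv_mul_of_integrable (μ := (volume : Measure (E n)))
    (f := w) (g := fun ζ : E n => (⟪v, ζ⟫ : ℝ)) (v := u) hi1
    (by simp only [hgu]; exact hi3.mul_const _) hi2
    (fun x _ => hw.differentiable one_ne_zero x) (fun x _ => (hg x).differentiableAt)
  simp only [hgu] at key
  rw [integral_mul_const] at key
  rw [real_inner_comm v u]
  linarith

end Pool.Agent.Helper56.WV
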