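import Pool.Agent.Helper56.WV.St

/-!
# Project WV (MP_d629b1_an): the kernels form a system of projections
-/

set_option autoImplicit false

open MeasureTheory
open scoped FourierTransform RealInnerProductSpace Matrix ComplexConjugate

noncomputable section

namespace Pool.Agent.Helper56.WV

open Wav

variable {n L : ℕ}

lemma KP_det {A : Matrix (Fin n) (Fin n) ℝ} (hA : Expansive A) : Aᵀ.det ≠ 0 := by
  rw [Matrix.det_transpose]
  exact expansive_det hA

lemma KP_sc_origin (hI0 : St_I0) (A : Matrix (Fin n) (Fin n) ℝ) (Ψ : Fin L → E n → ℂ) (N : ℝ)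
    (hW : WSys A Ψ N) (j : ℤ) (l : Fin L) : sc A Ψ j l 0 = 0 := by
  unfold sc
  rw [act_zero]
  exact hI0 n L A Ψ N hW l

lemma KP_bd (A : Matrix (Fin n) (Fin n) ℝ) (Ψ : Fin L → E n → ℂ) (N : ℝ)
    (hW : WSys A Ψ N) : ∃ K : ℝ, 0 < K ∧ ∀ (j : ℤ) (l : Fin L) (ξ : E n), ‖sc A Ψ j l ξ‖ ≤ K := by
  obtain ⟨K, hK, h⟩ := hW.bound
  refine ⟨K, hK, fun j l ξ => ?_⟩
  unfold sc
  refine (h l _).trans ?_
  have h1 : (1 + ‖act (Aᵀ ^ (-j)) ξ‖) ^ (-N) ≤ 1 := by
    refine Real.rpow_le_one_of_one_le_of_nonpos (by linarith [norm_nonneg (act (Aᵀ ^ (-j)) ξ)]) ?_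
    have := hW.hN
    have h2 : (0 : ℝ) ≤ n := Nat.cast_nonneg _
    linarith
  calc K * (1 + ‖act (Aᵀ ^ (-j)) ξ‖) ^ (-N) ≤ K * 1 := mul_le_mul_of_nonneg_left h1 hK.le
    _ = K := mul_one K

lemma KP_ker_pos (A : Matrix (Fin n) (Fin n) ℝ) (Ψ : Fin L → E n → ℂ) (j : ℤ) (ξ η : E n)
    (h : η - ξ ∈ Gam A j) : ker A Ψ j ξ η = ∑ l, sc A Ψ j l ξ * conj (sc A Ψ j l η) := by
  unfold ker
  rw [if_pos h]

lemma KP_ker_neg (A : Matrix (Fin n) (Fin n) ℝ) (Ψ : Fin L → E n → ℂ) (j : ℤ) (ξ η : E n)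
    (h : η - ξ ∉ Gam A j) : ker A Ψ j ξ η = 0 := by
  unfold ker
  rw [if_neg h]

lemma KP_ker_le (A : Matrix (Fin n) (Fin n) ℝ) (Ψ : Fin L → E n → ℂ) (j : ℤ) (ξ η : E n) :
    ‖ker A Ψ j ξ η‖ ≤ ∑ l, ‖sc A Ψ j l ξ‖ * ‖sc A Ψ j l η‖ := by
  unfold ker
  split_ifs
  · refine (norm_sum_le _ _).trans (le_of_eq ?_)
    refine Finset.sum_congr rfl fun l _ => ?_
    rw [norm_mul, RCLike.norm_conj]
  · rw [norm_zero]
    exact Finset.sum_nonneg fun _ _ => by positivity

lemma KP_left (A : Matrix (Fin n) (Fin n) ℝ) (Ψ : Fin L → E n → ℂ) (j : ℤ) (ξ η : E n)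
    (h : ∀ l, sc A Ψ j l ξ = 0) : ker A Ψ j ξ η = 0 := by
  unfold ker
  split_ifs
  · exact Finset.sum_eq_zero fun l _ => by rw [h l, zero_mul]
  · rfl

lemma KP_right (A : Matrix (Fin n) (Fin n) ℝ) (Ψ : Fin L → E n → ℂ) (j : ℤ) (ξ η : E n)
    (h : ∀ l, sc A Ψ j l η = 0) : ker A Ψ j ξ η = 0 := by
  unfold ker
  split_ifs
  · exact Finset.sum_eq_zero fun l _ => by rw [h l, map_zero, mul_zero]
  · rfl

lemma KP_diag (A : Matrix (Fin n) (Fin n) ℝ) (Ψ : Fin L → E n → ℂ) (j : ℤ) (ξ : E n) :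
    ker A Ψ j ξ ξ = ((∑ l, ‖sc A Ψ j l ξ‖ ^ 2 : ℝ) : ℂ) := by
  rw [KP_ker_pos A Ψ j ξ ξ (by rw [sub_self]; exact AddSubgroup.zero_mem _)]
  push_cast
  refine Finset.sum_congr rfl fun l _ => ?_
  rw [Complex.mul_conj, Complex.normSq_eq_norm_sq]
  push_cast
  rfl

/-- the lattice is a copy of `ℤⁿ` -/
def KP_e {A : Matrix (Fin n) (Fin n) ℝ} (hA : Expansive A) (j : ℤ) :
    (Fin n → ℤ) ≃ Gam A j :=
  Equiv.ofBijective (fun p => ⟨act (Aᵀ ^ j) (ivec p), p, rfl⟩) (by
    constructor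
    · intro p q h
      have h1 : act (Aᵀ ^ j) (ivec p) = act (Aᵀ ^ j) (ivec q) := congrArg Subtype.val h
      have h2 : (ivec p : E n) = ivec q := by
        have h3 := congrArg (act (Aᵀ ^ (-j))) h1
        rwa [ND.act_zpow_neg_cancel (KP_det hA), ND.act_zpow_neg_cancel (KP_det hA)] at h3
      funext a
      have h4 := congrArg (fun x : E n => x a) h2
      simp only [ivec] at h4
      exact_mod_cast h4
    · rintro ⟨x, p, hp⟩
      exact ⟨p, Subtype.ext hp⟩)

lemma KP_e_apply {A : Matrix (Fin n) (Fin n) ℝ} (hA : Expansive A) (j : ℤ) (p : Fin n → ℤ) :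
    ((KP_e hA j p : Gam A j) : E n) = act (Aᵀ ^ j) (ivec p) := rfl

lemma KP_sc_add {A : Matrix (Fin n) (Fin n) ℝ} (hA : Expansive A) (Ψ : Fin L → E n → ℂ) (j : ℤ)
    (l : Fin L) (ξ : E n) (p : Fin n → ℤ) :
    sc A Ψ j l (ξ + act (Aᵀ ^ j) (ivec p)) = Ψ l (act (Aᵀ ^ (-j)) ξ + ivec p) := by
  unfold sc
  rw [act_add, ND.act_zpow_neg_cancel (KP_det hA)]

lemma KP_ls (hLS : St_LS) (A : Matrix (Fin n) (Fin n) ℝ) (Ψ : Fin L → E n → ℂ) (N : ℝ)
    (hW : WSys A Ψ N) (j : ℤ) (l : Fin L) (ξ : E n) :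
    Summable fun γ : Gam A j => ‖sc A Ψ j l (ξ + γ)‖ := by
  obtain ⟨K, -, h⟩ := hLS n L A Ψ N hW
  rw [← (KP_e hW.exp j).summable_iff]
  exact (h j l ξ).1

/-- summability of a product, on any index set mapping to the lattice -/
lemma KP_prod {ι : Type} (K : ℝ) (f g : ι → ℂ) (hg : ∀ i, ‖g i‖ ≤ K)
    (hf : Summable fun i => ‖f i‖) : Summable fun i => f i * g i := by
  refine Summable.of_norm_bounded (g := fun i => ‖f i‖ * K) (hf.mul_right K) fun i => ?_
  rw [norm_mul]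
  exact mul_le_mul_of_nonneg_left (hg i) (norm_nonneg _)

lemma KP_i1 (hI1 : St_I1) (A : Matrix (Fin n) (Fin n) ℝ) (Ψ : Fin L → E n → ℂ) (N : ℝ)
    (hW : WSys A Ψ N) (j : ℤ) (l l' : Fin L) (ξ : E n) :
    ∑' γ : Gam A j, sc A Ψ j l (ξ + γ) * conj (sc A Ψ j l' (ξ + γ)) = if l = l' then 1 else 0 := by
  rw [← (KP_e hW.exp j).tsum_eq]
  have h := hI1 n L A Ψ N hW l l' (act (Aᵀ ^ (-j)) ξ)
  rw [← h]
  refine tsum_congr fun p => ?_
  rw [KP_e_apply, KP_sc_add hW.exp, KP_sc_add hW.exp]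

/-- the sum of products of two kernels, over any index set -/
lemma KP_two {ι : Type} (a : Fin L → ℂ) (b : Fin L → ℂ) (F G : Fin L → ι → ℂ) (δ : Fin L → Fin L → ℂ)
    (hs : ∀ l l', HasSum (fun i => G l' i * conj (F l i)) (δ l l')) :
    HasSum (fun i => (∑ l, a l * conj (F l i)) * (∑ l', G l' i * conj (b l')))
      (∑ l, ∑ l', a l * conj (b l') * δ l l') := by
  have h1 : (fun i => (∑ l, a l * conj (F l i)) * (∑ l', G l' i * conj (b l'))) =
      fun i => ∑ l, ∑ l', a l * conj (b l') * (G l' i * conj (F l i)) := by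
    funext i
    rw [Finset.sum_mul_sum]
    refine Finset.sum_congr rfl fun l _ => Finset.sum_congr rfl fun l' _ => ?_
    ring
  rw [h1]
  exact hasSum_sum fun l _ => hasSum_sum fun l' _ => (hs l l').mul_left _

theorem p_KP (hI0 : St_I0) (hI1 : St_I1) (hI2 : St_I2) (hGW : St_GW) (hLS : St_LS)
    (hSU : St_SU) : St_KP := by
  intro n L A Ψ N hW
  obtain ⟨K, hK, hKb⟩ := KP_bd A Ψ N hW
  have hz := KP_sc_origin hI0 A Ψ N hW
  refine ⟨?_, ?_, ?_, ?_, ?_, ?_, ?_, ?_, ?_, ?_, ?_⟩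
  · -- supp
    intro j ξ η h
    by_contra hcon
    exact h (KP_ker_neg A Ψ j ξ η hcon)
  · -- herm
    intro j ξ η
    by_cases h : η - ξ ∈ Gam A j
    · have h' : ξ - η ∈ Gam A j := by
        rw [← neg_sub]
        exact AddSubgroup.neg_mem _ h
      rw [KP_ker_pos A Ψ j ξ η h, KP_ker_pos A Ψ j η ξ h', map_sum]
      refine Finset.sum_congr rfl fun l _ => ?_
      rw [map_mul, Complex.conj_conj]
      ring
    · have h' : ξ - η ∉ Gam A j := by
        intro h2
        apply h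
        rw [← neg_sub]
        exact AddSubgroup.neg_mem _ h2
      rw [KP_ker_neg A Ψ j ξ η h, KP_ker_neg A Ψ j η ξ h', map_zero]
  · -- nonneg
    intro j ξ
    rw [KP_diag]
    refine ⟨?_, Complex.ofReal_im _⟩
    rw [Complex.ofReal_re]
    exact Finset.sum_nonneg fun _ _ => by positivity
  · -- pos
    intro j ξ η h
    rw [KP_diag] at h
    have h1 : ∑ l, ‖sc A Ψ j l ξ‖ ^ 2 = 0 := by exact_mod_cast h
    refine KP_left A Ψ j ξ η fun l => ?_
    have h2 := (Finset.sum_eq_zero_iff_of_nonneg (fun l _ => by positivity)).1 h1 l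
      (Finset.mem_univ _)
    exact norm_eq_zero.1 (pow_eq_zero_iff (two_ne_zero) |>.1 h2)
  · -- bd
    refine ⟨∑ _l : Fin L, K * K, fun j ξ η => ?_⟩
    refine (KP_ker_le A Ψ j ξ η).trans (Finset.sum_le_sum fun l _ => ?_)
    exact mul_le_mul (hKb j l ξ) (hKb j l η) (norm_nonneg _) hK.le
  · -- s1
    intro j ξ
    refine Summable.of_nonneg_of_le (fun _ => norm_nonneg _) (fun γ => KP_ker_le A Ψ j ξ _) ?_
    exact summable_sum fun l _ => (KP_ls hLS A Ψ N hW j l ξ).mul_left _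
  · -- s2
    intro ξ
    rcases eq_or_ne ξ 0 with rfl | hξ
    · refine ⟨fun _ => 0, summable_zero, fun j η => ?_⟩
      rw [KP_left A Ψ j 0 η (hz j), norm_zero]
    · obtain ⟨δ, hδ, s, hs, hb⟩ := hSU n L A Ψ N hW ξ hξ
      refine ⟨fun j => ∑ _l : Fin L, s j * K, summable_sum fun _ _ => hs.mul_right K, ?_⟩
      intro j η
      refine (KP_ker_le A Ψ j ξ η).trans (Finset.sum_le_sum fun l _ => ?_)
      have h1 := hb j l ξ (Metric.mem_ball_self hδ)
      exact mul_le_mul h1 (hKb j l η) (norm_nonneg _) ((norm_nonneg _).trans h1)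
  · -- idem
    intro j ξ η
    by_cases h : η - ξ ∈ Gam A j
    · have e1 : ∀ γ : Gam A j, ker A Ψ j ξ (ξ + γ) * ker A Ψ j (ξ + γ) η =
          (∑ l, sc A Ψ j l ξ * conj (sc A Ψ j l (ξ + γ))) *
            (∑ l', sc A Ψ j l' (ξ + γ) * conj (sc A Ψ j l' η)) := by
        intro γ
        rw [KP_ker_pos A Ψ j ξ (ξ + γ) (by rw [add_sub_cancel_left]; exact γ.2),
          KP_ker_pos A Ψ j (ξ + γ) η (by
            rw [← sub_sub]
            exact AddSubgroup.sub_mem _ h γ.2)]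
      simp only [e1]
      have h2 := KP_two (fun l => sc A Ψ j l ξ) (fun l => sc A Ψ j l η)
        (fun l (γ : Gam A j) => sc A Ψ j l (ξ + γ)) (fun l (γ : Gam A j) => sc A Ψ j l (ξ + γ))
        (fun l l' => if l' = l then 1 else 0) (by
          intro l l'
          have hsm : Summable fun γ : Gam A j => sc A Ψ j l' (ξ + γ) * conj (sc A Ψ j l (ξ + γ)) :=
            KP_prod K _ _ (fun γ => by rw [RCLike.norm_conj]; exact hKb _ _ _)
              (KP_ls hLS A Ψ N hW j l' ξ)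
          have := hsm.hasSum
          rwa [KP_i1 hI1 A Ψ N hW j l' l ξ] at this)
      rw [h2.tsum_eq, KP_ker_pos A Ψ j ξ η h]
      refine Finset.sum_congr rfl fun l _ => ?_
      rw [Finset.sum_eq_single l]
      · simp
      · intro l' _ hl'
        rw [if_neg hl', mul_zero]
      · intro hl
        exact absurd (Finset.mem_univ _) hl
    · rw [KP_ker_neg A Ψ j ξ η h]
      have e1 : ∀ γ : Gam A j, ker A Ψ j ξ (ξ + γ) * ker A Ψ j (ξ + γ) η = 0 := by
        intro γ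
        rw [KP_ker_neg A Ψ j (ξ + γ) η, mul_zero]
        intro h2
        apply h
        have : η - ξ = (η - (ξ + γ)) + γ := by abel
        rw [this]
        exact AddSubgroup.add_mem _ h2 γ.2
      simp only [e1, tsum_zero]
  · -- orth
    intro i j hij ξ η
    by_cases hex : ∃ γ : Gam A i, η - (ξ + γ) ∈ Gam A j
    · obtain ⟨γ₀, hγ₀⟩ := hex
      set g : Cm A i j → Gam A i := fun c => ⟨(γ₀ : E n) + c, AddSubgroup.add_mem _ γ₀.2 c.2.1⟩
        with hg
      have hginj : Function.Injective g := by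
        intro c c' h
        have h1 : (γ₀ : E n) + c = γ₀ + c' := congrArg Subtype.val h
        exact Subtype.ext (add_left_cancel h1)
      have hsupp : Function.support (fun γ : Gam A i =>
          ker A Ψ i ξ (ξ + γ) * ker A Ψ j (ξ + γ) η) ⊆ Set.range g := by
        intro γ hγ
        have h1 : ker A Ψ j (ξ + γ) η ≠ 0 := right_ne_zero_of_mul hγ
        have h2 : η - (ξ + γ) ∈ Gam A j := by
          by_contra hcon
          exact h1 (KP_ker_neg A Ψ j _ _ hcon)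
        have h3 : (γ : E n) - γ₀ ∈ Gam A j := by
          have : (γ : E n) - γ₀ = (η - (ξ + γ₀)) - (η - (ξ + γ)) := by abel
          rw [this]
          exact AddSubgroup.sub_mem _ hγ₀ h2
        refine ⟨⟨(γ : E n) - γ₀, AddSubgroup.sub_mem _ γ.2 γ₀.2, h3⟩, ?_⟩
        apply Subtype.ext
        simp only [hg]
        abel
      rw [← hginj.tsum_eq hsupp]
      have e1 : ∀ c : Cm A i j, ker A Ψ i ξ (ξ + (g c : E n)) * ker A Ψ j (ξ + (g c : E n)) η =
          (∑ l, sc A Ψ i l ξ * conj (sc A Ψ i l (ξ + γ₀ + c))) *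
            (∑ l', sc A Ψ j l' (ξ + γ₀ + c) * conj (sc A Ψ j l' η)) := by
        intro c
        have e2 : ξ + (g c : E n) = ξ + γ₀ + c := by
          simp only [hg]
          abel
        rw [KP_ker_pos A Ψ i ξ (ξ + (g c : E n)) (by
            rw [add_sub_cancel_left]
            exact (g c).2),
          KP_ker_pos A Ψ j (ξ + (g c : E n)) η (by
            rw [e2]
            have : η - (ξ + γ₀ + c) = (η - (ξ + γ₀)) - c := by abel
            rw [this]
            exact AddSubgroup.sub_mem _ hγ₀ c.2.2), e2]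
      simp only [e1]
      have h2 := KP_two (fun l => sc A Ψ i l ξ) (fun l => sc A Ψ j l η)
        (fun l (c : Cm A i j) => sc A Ψ i l (ξ + γ₀ + c))
        (fun l (c : Cm A i j) => sc A Ψ j l (ξ + γ₀ + c))
        (fun _ _ => 0) (by
          intro l l'
          obtain ⟨k1, k2⟩ := hI2 n L A Ψ N hW i j hij l l' (ξ + γ₀)
          have k3 := k1.of_norm.hasSum
          rw [k2] at k3
          have k4 : HasSum (fun c : Cm A i j => conj (sc A Ψ i l (ξ + γ₀ + c) *
              conj (sc A Ψ j l' (ξ + γ₀ + c)))) 0 := by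
            rw [Complex.hasSum_conj, map_zero]
            exact k3
          have k5 : (fun c : Cm A i j => sc A Ψ j l' (ξ + γ₀ + c) *
              conj (sc A Ψ i l (ξ + γ₀ + c))) = fun c : Cm A i j =>
              conj (sc A Ψ i l (ξ + γ₀ + c) * conj (sc A Ψ j l' (ξ + γ₀ + c))) := by
            funext c
            rw [map_mul, Complex.conj_conj]
            ring
          rw [k5]
          exact k4)
      rw [h2.tsum_eq]
      simp
    · push Not at hex
      have e1 : ∀ γ : Gam A i, ker A Ψ i ξ (ξ + γ) * ker A Ψ j (ξ + γ) η = 0 := by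
        intro γ
        rw [KP_ker_neg A Ψ j (ξ + γ) η (hex γ), mul_zero]
      simp only [e1, tsum_zero]
  · -- comp
    intro ξ η hne
    rcases eq_or_ne ξ 0 with rfl | hξ
    · simp only [KP_left A Ψ _ 0 η (hz _), tsum_zero]
    · rcases eq_or_ne η 0 with rfl | hη
      · simp only [KP_right A Ψ _ ξ 0 (hz _), tsum_zero]
      · rw [hGW n L A Ψ N hW ξ η hξ hη, if_neg hne]
  · -- diag
    intro ξ
    rcases eq_or_ne ξ 0 with rfl | hξ
    · right
      intro j η
      exact KP_left A Ψ j 0 η (hz j)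
    · left
      rw [hGW n L A Ψ N hW ξ ξ hξ hξ, if_pos rfl]

end Pool.Agent.Helper56.WV
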