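import Pool.Agent.Helper56.WV.St

set_option autoImplicit false

open MeasureTheory
open scoped FourierTransform RealInnerProductSpace Matrix ComplexConjugate

noncomputable section

namespace Pool.Agent.Helper56.WV

open Wav

theorem p_LS : St_LS := by
  intro n L A Ψ N h
  obtain ⟨K, hK, hb⟩ := h.bound
  obtain ⟨C, hC⟩ := Wav.lattice_sum n N (by linarith [h.hN])
  have hdet : (Aᵀ).det ≠ 0 := Wav.expansive_det (Wav.expansive_transpose h.exp)
  have hu : IsUnit (Aᵀ).det := isUnit_iff_ne_zero.2 hdet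
  refine ⟨K * (|C| + 1), by positivity, fun j l ξ => ?_⟩
  have key : ∀ p : Fin n → ℤ, ‖sc A Ψ j l (ξ + act (Aᵀ ^ j) (ivec p))‖ ≤
      K * (1 + ‖act (Aᵀ ^ (-j)) ξ + ivec p‖) ^ (-N) := by
    intro p
    unfold sc
    rw [act_add, ← act_mul, Matrix.zpow_neg_mul_zpow_self _ hu, act_one]
    exact hb l _
  obtain ⟨hs, ht⟩ := hC (act (Aᵀ ^ (-j)) ξ)
  have hs' := hs.mul_left K
  have hsum : Summable (fun p : Fin n → ℤ => ‖sc A Ψ j l (ξ + act (Aᵀ ^ j) (ivec p))‖) :=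
    Summable.of_nonneg_of_le (fun _ => norm_nonneg _) key hs'
  refine ⟨hsum, ?_⟩
  calc ∑' p : Fin n → ℤ, ‖sc A Ψ j l (ξ + act (Aᵀ ^ j) (ivec p))‖
      ≤ ∑' p : Fin n → ℤ, K * (1 + ‖act (Aᵀ ^ (-j)) ξ + ivec p‖) ^ (-N) :=
        hsum.tsum_le_tsum key hs'
    _ = K * ∑' p : Fin n → ℤ, (1 + ‖act (Aᵀ ^ (-j)) ξ + ivec p‖) ^ (-N) := tsum_mul_left
    _ ≤ K * (|C| + 1) := by
        refine mul_le_mul_of_nonneg_left ?_ hK.le
        linarith [le_abs_self C]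

end Pool.Agent.Helper56.WV
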