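import Pool.Agent.Helper56.WV.St

/-!
# Project WV (MP_d629b1_an): module MO

The gradient of `w` on an open set `O` on whose boundary `w` is `0` or `1` has a scalar moment
matrix.
-/

set_option autoImplicit false

open MeasureTheory Set Filter Topology
open scoped RealInnerProductSpace ContDiff Manifold

noncomputable section

namespace Pool.Agent.Helper56.WV.MO

open Wav

variable {n : ℕ}

/-- Symmetry of the mixed Dirichlet form. -/
lemma mixed (G ζ : E n → ℝ) (hG : ContDiff ℝ 1 G) (hζ : ContDiff ℝ 2 ζ)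
    (hc : HasCompactSupport ζ) (u v : E n) :
    ∫ ξ, fderiv ℝ G ξ u * fderiv ℝ ζ ξ v = ∫ ξ, fderiv ℝ G ξ v * fderiv ℝ ζ ξ u := by
  have hfζ : ContDiff ℝ 1 (fderiv ℝ ζ) := hζ.fderiv_right (by norm_num)
  have hcd : ∀ x : E n, ContDiff ℝ 1 (fun ξ => fderiv ℝ ζ ξ x) := fun x =>
    hfζ.clm_apply contDiff_const
  have hcs : ∀ x : E n, HasCompactSupport (fun ξ => fderiv ℝ ζ ξ x) := fun x =>
    hc.fderiv_apply (𝕜 := ℝ) x
  have hcG : ∀ x : E n, Continuous (fun ξ => fderiv ℝ G ξ x) := fun x =>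
    (hG.continuous_fderiv one_ne_zero).clm_apply continuous_const
  have hcZ : ∀ x y : E n, Continuous (fun ξ => fderiv ℝ (fun ξ => fderiv ℝ ζ ξ x) ξ y) :=
    fun x y => ((hcd x).continuous_fderiv one_ne_zero).clm_apply continuous_const
  have hcZs : ∀ x y : E n, HasCompactSupport (fun ξ => fderiv ℝ (fun ξ => fderiv ℝ ζ ξ x) ξ y) :=
    fun x y => (hcs x).fderiv_apply (𝕜 := ℝ) y
  have hibp : ∀ x y : E n, ∫ ξ, G ξ * fderiv ℝ (fun ξ => fderiv ℝ ζ ξ x) ξ y =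
      -∫ ξ, fderiv ℝ G ξ y * fderiv ℝ ζ ξ x := by
    intro x y
    refine integral_mul_fderiv_eq_neg_fderiv_mul_of_integrable ?_ ?_ ?_ ?_ ?_
    · exact ((hcG y).mul (hcd x).continuous).integrable_of_hasCompactSupport
        ((hcs x).mul_left)
    · exact (hG.continuous.mul (hcZ x y)).integrable_of_hasCompactSupport
        ((hcZs x y).mul_left)
    · exact (hG.continuous.mul (hcd x).continuous).integrable_of_hasCompactSupport
        ((hcs x).mul_left)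
    · exact fun ξ _ => hG.differentiable one_ne_zero ξ
    · exact fun ξ _ => (hcd x).differentiable one_ne_zero ξ
  have hsym : ∀ ξ : E n, fderiv ℝ (fun ξ => fderiv ℝ ζ ξ v) ξ u =
      fderiv ℝ (fun ξ => fderiv ℝ ζ ξ u) ξ v := by
    intro ξ
    have hd : DifferentiableAt ℝ (fderiv ℝ ζ) ξ := hfζ.differentiable one_ne_zero ξ
    have e : ∀ x y : E n, fderiv ℝ (fun ξ => fderiv ℝ ζ ξ x) ξ y =
        fderiv ℝ (fderiv ℝ ζ) ξ y x := by
      intro x y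
      rw [fderiv_clm_apply hd (differentiableAt_const x)]
      simp
    rw [e, e]
    have hs : IsSymmSndFDerivAt ℝ ζ ξ := hζ.contDiffAt.isSymmSndFDerivAt (by simp)
    exact hs u v
  have h1 := hibp v u
  have h2 := hibp u v
  simp only [hsym] at h1
  rw [h1] at h2
  linarith

/-- The cut-off in the values. -/
def th (m : ℕ) (t : ℝ) : ℝ :=
  max 0 (min 1 ((m : ℝ) * t - 1)) * max 0 (min 1 ((m : ℝ) * (1 - t) - 1))

lemma th_cont (m : ℕ) : Continuous (th m) := by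
  unfold th
  fun_prop

lemma th_nonneg (m : ℕ) (t : ℝ) : 0 ≤ th m t :=
  mul_nonneg (le_max_left _ _) (le_max_left _ _)

lemma th_le (m : ℕ) (t : ℝ) : th m t ≤ 1 := by
  unfold th
  have h1 : max 0 (min 1 ((m : ℝ) * t - 1)) ≤ 1 := max_le zero_le_one (min_le_left _ _)
  have h2 : max 0 (min 1 ((m : ℝ) * (1 - t) - 1)) ≤ 1 := max_le zero_le_one (min_le_left _ _)
  have h3 : 0 ≤ max 0 (min 1 ((m : ℝ) * (1 - t) - 1)) := le_max_left _ _
  calc _ ≤ 1 * 1 := mul_le_mul h1 h2 h3 zero_le_one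
    _ = 1 := one_mul 1

lemma th_zero (m : ℕ) (t : ℝ) (h : (m : ℝ) * t < 1 ∨ (m : ℝ) * (1 - t) < 1) : th m t = 0 := by
  unfold th
  rcases h with h | h
  · have : min 1 ((m : ℝ) * t - 1) ≤ 0 := (min_le_right _ _).trans (by linarith)
    rw [max_eq_left this, zero_mul]
  · have : min 1 ((m : ℝ) * (1 - t) - 1) ≤ 0 := (min_le_right _ _).trans (by linarith)
    rw [max_eq_left this, mul_zero]

lemma th_one (m : ℕ) (t : ℝ) (h1 : 2 ≤ (m : ℝ) * t) (h2 : 2 ≤ (m : ℝ) * (1 - t)) :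
    th m t = 1 := by
  unfold th
  rw [min_eq_left (by linarith), min_eq_left (by linarith)]
  norm_num

lemma th_lim (t : ℝ) (h0 : 0 < t) (h1 : t < 1) : Tendsto (fun m : ℕ => th m t) atTop (𝓝 1) := by
  have a1 : ∀ᶠ m : ℕ in atTop, 2 / t ≤ (m : ℝ) :=
    tendsto_natCast_atTop_atTop.eventually_ge_atTop _
  have a2 : ∀ᶠ m : ℕ in atTop, 2 / (1 - t) ≤ (m : ℝ) :=
    tendsto_natCast_atTop_atTop.eventually_ge_atTop _
  refine tendsto_const_nhds.congr' ?_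
  filter_upwards [a1, a2] with m b1 b2
  refine (th_one m t ?_ ?_).symm
  · rwa [div_le_iff₀ h0] at b1
  · rwa [div_le_iff₀ (by linarith)] at b2

/-- The primitive of the cut-off. -/
def ph (m : ℕ) (t : ℝ) : ℝ := ∫ s in (0 : ℝ)..t, th m s

lemma ph_deriv (m : ℕ) (t : ℝ) : HasDerivAt (ph m) (th m t) t :=
  intervalIntegral.integral_hasDerivAt_right ((th_cont m).intervalIntegrable _ _)
    ((th_cont m).stronglyMeasurableAtFilter _ _) (th_cont m).continuousAt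

lemma ph_contDiff (m : ℕ) : ContDiff ℝ 1 (ph m) := by
  rw [contDiff_one_iff_deriv]
  refine ⟨fun t => (ph_deriv m t).differentiableAt, ?_⟩
  have : deriv (ph m) = th m := funext fun t => (ph_deriv m t).deriv
  rw [this]
  exact th_cont m

lemma comp_fderiv (m : ℕ) (w : E n → ℝ) (hw : ContDiff ℝ 1 w) (ξ x : E n) :
    fderiv ℝ (fun ξ => ph m (w ξ)) ξ x = th m (w ξ) * fderiv ℝ w ξ x := by
  have h := (ph_deriv m (w ξ)).comp_hasFDerivAt ξ (hw.differentiable one_ne_zero ξ).hasFDerivAt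
  have h' : fderiv ℝ (fun ξ => ph m (w ξ)) ξ = th m (w ξ) • fderiv ℝ w ξ := h.fderiv
  rw [h']
  simp

/-- The quadratic function. -/
lemma quad_fderiv (v ξ x : E n) :
    fderiv ℝ (fun ξ : E n => ⟪v, ξ⟫ ^ 2 / 2) ξ x = ⟪v, ξ⟫ * ⟪v, x⟫ := by
  have h : HasFDerivAt (fun ξ : E n => ⟪v, ξ⟫) (innerSL ℝ v) ξ := (innerSL ℝ v).hasFDerivAt
  have h2 := (h.pow 2).const_mul (2⁻¹ : ℝ)
  have e : (fun ξ : E n => ⟪v, ξ⟫ ^ 2 / 2) = fun y => 2⁻¹ * ⟪v, y⟫ ^ 2 := by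
    funext y
    ring
  rw [e, h2.fderiv]
  simp
  ring

lemma quad_contDiff (v : E n) : ContDiff ℝ 2 (fun ξ : E n => ⟪v, ξ⟫ ^ 2 / 2) := by
  have h : ContDiff ℝ 2 (fun ξ : E n => ⟪v, ξ⟫) := (innerSL ℝ v).contDiff
  exact (h.pow 2).div_const 2

/-- The identity for the cut-off form. -/
lemma key (w : E n → ℝ) (K N : ℝ) (O : Set (E n)) (hN : 1 ≤ N) (hw : ContDiff ℝ 1 w)
    (hK : ∀ ξ, w ξ ≤ K * (1 + ‖ξ‖) ^ (-N)) (hO : IsOpen O)
    (hbd : ∀ ξ ∈ closure O, ξ ∉ O → w ξ = 0 ∨ w ξ = 1) (u v : E n) (huv : ⟪u, v⟫ = 0)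
    (hv : v ≠ 0) (m : ℕ) (hm : 1 ≤ m) :
    ∫ ξ in O, th m (w ξ) * (fderiv ℝ w ξ u * ⟪v, ξ⟫) = 0 := by
  have hm0 : (0 : ℝ) < m := by exact_mod_cast hm
  set S : Set (E n) := closure O ∩ {ξ | 1 ≤ (m : ℝ) * w ξ ∧ 1 ≤ (m : ℝ) * (1 - w ξ)} with hS
  have hSc : IsClosed S := by
    refine isClosed_closure.inter ?_
    refine (isClosed_le continuous_const (continuous_const.mul hw.continuous)).inter
      (isClosed_le continuous_const (continuous_const.mul (continuous_const.sub hw.continuous)))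
  have hSO : S ⊆ O := by
    intro ξ hξ
    by_contra hno
    rcases hbd ξ hξ.1 hno with h | h
    · have := hξ.2.1
      rw [h] at this
      norm_num at this
    · have := hξ.2.2
      rw [h] at this
      norm_num at this
  have hSb : Bornology.IsBounded S := by
    refine (Metric.isBounded_closedBall (x := (0 : E n)) (r := (m : ℝ) * |K|)).subset ?_
    intro ξ hξ
    rw [mem_closedBall_zero_iff]
    have h1 : (1 : ℝ) ≤ (m : ℝ) * w ξ := hξ.2.1
    have h2 : w ξ ≤ |K| * (1 + ‖ξ‖) ^ (-N) :=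
      (hK ξ).trans (mul_le_mul_of_nonneg_right (le_abs_self K) (by positivity))
    have h3 : (1 + ‖ξ‖) ^ (-N) ≤ (1 + ‖ξ‖) ^ (-1 : ℝ) :=
      Real.rpow_le_rpow_of_exponent_le (by linarith [norm_nonneg ξ]) (by linarith)
    rw [Real.rpow_neg_one] at h3
    have h4 : w ξ ≤ |K| * (1 + ‖ξ‖)⁻¹ := h2.trans (mul_le_mul_of_nonneg_left h3 (abs_nonneg K))
    have h5 : (0 : ℝ) < 1 + ‖ξ‖ := by linarith [norm_nonneg ξ]
    have h6 : (1 : ℝ) ≤ (m : ℝ) * (|K| * (1 + ‖ξ‖)⁻¹) :=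
      h1.trans (mul_le_mul_of_nonneg_left h4 hm0.le)
    have h7 : (1 + ‖ξ‖) ≤ (m : ℝ) * |K| := by
      have := mul_le_mul_of_nonneg_right h6 h5.le
      rw [one_mul, ← mul_assoc, mul_assoc, inv_mul_cancel₀ h5.ne', mul_one] at this
      exact this
    linarith
  have hScomp : IsCompact S := Metric.isCompact_of_isClosed_isBounded hSc hSb
  obtain ⟨T, hTc, hST, hTO⟩ := exists_compact_between hScomp hO hSO
  obtain ⟨χ, hχ1, hχ0, -⟩ := exists_contMDiffMap_one_nhds_of_subset_interior (n := 2)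
    (𝓘(ℝ, E n)) hSc hST
  have hχs : ContDiff ℝ 2 (χ : E n → ℝ) :=
    χ.contMDiff.contDiff
  set ζ : E n → ℝ := fun ξ => χ ξ * (⟪v, ξ⟫ ^ 2 / 2) with hζ
  have hζs : ContDiff ℝ 2 ζ := hχs.mul (quad_contDiff v)
  have hζ0 : ∀ ξ ∉ T, ζ ξ = 0 := by
    intro ξ hξ
    simp only [hζ, hχ0 ξ hξ, zero_mul]
  have hζc : HasCompactSupport ζ := HasCompactSupport.intro hTc hζ0
  have hζt : tsupport ζ ⊆ T := by
    refine closure_minimal ?_ hTc.isClosed
    intro ξ hξ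
    by_contra hno
    exact hξ (hζ0 ξ hno)
  have hG : ContDiff ℝ 1 (fun ξ => ph m (w ξ)) := (ph_contDiff m).comp hw
  have hmix := mixed (fun ξ => ph m (w ξ)) ζ hG hζs hζc u v
  have hζS : ∀ ξ ∈ S, ∀ x : E n, fderiv ℝ ζ ξ x = ⟪v, ξ⟫ * ⟪v, x⟫ := by
    intro ξ hξ x
    have he : ζ =ᶠ[𝓝 ξ] fun ξ => ⟪v, ξ⟫ ^ 2 / 2 := by
      have := (eventually_nhdsSet_iff_forall.mp hχ1) ξ hξ
      filter_upwards [this] with y hy
      simp only [hζ, hy, one_mul]
    rw [he.fderiv_eq, quad_fderiv]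
  have hoff : ∀ ξ, ξ ∈ closure O → ξ ∉ S → th m (w ξ) = 0 := by
    intro ξ h1 h2
    refine th_zero m _ ?_
    by_contra hno
    push Not at hno
    exact h2 ⟨h1, hno.1, hno.2⟩
  have hoff' : ∀ ξ, ξ ∉ O → ∀ x : E n, fderiv ℝ ζ ξ x = 0 := by
    intro ξ h1 x
    have : ξ ∉ tsupport ζ := fun h => h1 (hTO (hζt h))
    rw [fderiv_of_notMem_tsupport (𝕜 := ℝ) this]
    rfl
  have hR : ∫ ξ, fderiv ℝ (fun ξ => ph m (w ξ)) ξ v * fderiv ℝ ζ ξ u = 0 := by
    refine integral_eq_zero_of_ae (Eventually.of_forall fun ξ => ?_)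
    simp only [Pi.zero_apply]
    by_cases h1 : ξ ∈ S
    · rw [hζS ξ h1 u, real_inner_comm u v, huv, mul_zero, mul_zero]
    · by_cases h2 : ξ ∈ O
      · rw [comp_fderiv m w hw, hoff ξ (subset_closure h2) h1, zero_mul, zero_mul]
      · rw [hoff' ξ h2 u, mul_zero]
  have hL : ∫ ξ, fderiv ℝ (fun ξ => ph m (w ξ)) ξ u * fderiv ℝ ζ ξ v =
      ⟪v, v⟫ * ∫ ξ in O, th m (w ξ) * (fderiv ℝ w ξ u * ⟪v, ξ⟫) := by
    rw [← integral_const_mul, ← integral_indicator hO.measurableSet]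
    refine integral_congr_ae (Eventually.of_forall fun ξ => ?_)
    simp only
    by_cases h2 : ξ ∈ O
    · rw [indicator_of_mem h2, comp_fderiv m w hw]
      by_cases h1 : ξ ∈ S
      · rw [hζS ξ h1 v]
        ring
      · rw [hoff ξ (subset_closure h2) h1]
        ring
    · rw [indicator_of_notMem h2, hoff' ξ h2 v, mul_zero]
  rw [hR, hL] at hmix
  have hvv : ⟪v, v⟫ ≠ 0 := fun h => hv (inner_self_eq_zero.mp h)
  exact (mul_eq_zero.mp hmix).resolve_left hvv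

end Pool.Agent.Helper56.WV.MO

namespace Pool.Agent.Helper56.WV

open Wav MO

/-- **MO.** -/
theorem p_MO : St_MO := by
  intro n N K w O hN hw h0 _ hK hdK hO hin hbd u v huv
  rcases eq_or_ne v 0 with rfl | hv
  · simp
  have hn0 : (0 : ℝ) ≤ n := Nat.cast_nonneg n
  have hN1 : 1 ≤ N := by linarith
  have hK0 : 0 ≤ K := by
    have := (h0 0).trans (hK 0)
    simpa using this
  -- the dominating function
  have hdom : ∀ ξ : E n, ‖fderiv ℝ w ξ u * ⟪v, ξ⟫‖ ≤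
      (K * ‖u‖ * ‖v‖) * (1 + ‖ξ‖) ^ (-(N - 1)) := by
    intro ξ
    rw [norm_mul]
    have hp : (0 : ℝ) < 1 + ‖ξ‖ := by linarith [norm_nonneg ξ]
    have a1 : ‖fderiv ℝ w ξ u‖ ≤ K * (1 + ‖ξ‖) ^ (-N) * ‖u‖ :=
      ((fderiv ℝ w ξ).le_opNorm u).trans (mul_le_mul_of_nonneg_right (hdK ξ) (norm_nonneg u))
    have a2 : ‖⟪v, ξ⟫‖ ≤ ‖v‖ * (1 + ‖ξ‖) :=
      (norm_inner_le_norm v ξ).trans
        (mul_le_mul_of_nonneg_left (by linarith) (norm_nonneg v))
    have a3 : (1 + ‖ξ‖) ^ (-(N - 1)) = (1 + ‖ξ‖) ^ (-N) * (1 + ‖ξ‖) := by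
      rw [show -(N - 1) = -N + 1 by ring, Real.rpow_add hp, Real.rpow_one]
    rw [a3]
    calc ‖fderiv ℝ w ξ u‖ * ‖⟪v, ξ⟫‖ ≤ (K * (1 + ‖ξ‖) ^ (-N) * ‖u‖) * (‖v‖ * (1 + ‖ξ‖)) :=
          mul_le_mul a1 a2 (norm_nonneg _) (by positivity)
      _ = _ := by ring
  have hint : Integrable (fun ξ : E n => (K * ‖u‖ * ‖v‖) * (1 + ‖ξ‖) ^ (-(N - 1))) := by
    refine Integrable.const_mul ?_ _
    refine integrable_one_add_norm ?_
    rw [finrank_euclideanSpace, Fintype.card_fin]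
    linarith
  have hcont : Continuous (fun ξ : E n => fderiv ℝ w ξ u * ⟪v, ξ⟫) :=
    ((hw.continuous_fderiv one_ne_zero).clm_apply continuous_const).mul
      (continuous_const.inner continuous_id)
  have hlim : Tendsto (fun m : ℕ => ∫ ξ in O, th m (w ξ) * (fderiv ℝ w ξ u * ⟪v, ξ⟫)) atTop
      (𝓝 (∫ ξ in O, fderiv ℝ w ξ u * ⟪v, ξ⟫)) := by
    refine tendsto_integral_of_dominated_convergence
      (fun ξ : E n => (K * ‖u‖ * ‖v‖) * (1 + ‖ξ‖) ^ (-(N - 1))) ?_ hint.integrableOn ?_ ?_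
    · intro m
      exact (((th_cont m).comp hw.continuous).mul hcont).aestronglyMeasurable
    · intro m
      refine Eventually.of_forall fun ξ => ?_
      rw [norm_mul]
      have h1 : ‖th m (w ξ)‖ ≤ 1 := by
        rw [Real.norm_eq_abs, abs_of_nonneg (th_nonneg m _)]
        exact th_le m _
      calc ‖th m (w ξ)‖ * ‖fderiv ℝ w ξ u * ⟪v, ξ⟫‖ ≤ 1 * ‖fderiv ℝ w ξ u * ⟪v, ξ⟫‖ :=
            mul_le_mul_of_nonneg_right h1 (norm_nonneg _)
        _ ≤ _ := by rw [one_mul]; exact hdom ξ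
    · refine (ae_restrict_iff' hO.measurableSet).mpr (Eventually.of_forall fun ξ hξ => ?_)
      have := (th_lim (w ξ) (hin ξ hξ).1 (hin ξ hξ).2).mul_const (fderiv ℝ w ξ u * ⟪v, ξ⟫)
      rwa [one_mul] at this
  have hz : (fun m : ℕ => ∫ ξ in O, th m (w ξ) * (fderiv ℝ w ξ u * ⟪v, ξ⟫)) =ᶠ[atTop]
      fun _ => 0 := by
    filter_upwards [eventually_ge_atTop 1] with m hm
    exact key w K N O hN1 hw hK hO hbd u v huv hv m hm
  exact tendsto_nhds_unique (hlim.congr' hz) tendsto_const_nhds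

end Pool.Agent.Helper56.WV
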