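import Pool.Agent.Helper56.WV.St

/-!
# WV, module MQ: linear algebra (helper80)
-/

set_option autoImplicit false

open scoped RealInnerProductSpace

namespace Pool.Agent.Helper56.WV

open Wav

theorem p_MQ : St_MQ := by
  intro n M d hd h1 h2 u
  have key : ∀ e : E n, ⟪d, e⟫ = 0 → M e e = 0 := by
    intro e he
    by_cases he0 : e = 0
    · rw [he0, map_zero]
    have hde : M d e = 0 := h1 d e he
    have hne : ‖e‖ ≠ 0 := norm_ne_zero_iff.2 he0
    have hnd : ‖d‖ ≠ 0 := norm_ne_zero_iff.2 hd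
    have ht0 : ‖d‖ / ‖e‖ ≠ 0 := div_ne_zero hnd hne
    have horth : ⟪d + (‖d‖ / ‖e‖) • e, d - (‖d‖ / ‖e‖) • e⟫ = 0 := by
      rw [inner_add_left, inner_sub_right, inner_sub_right, inner_smul_left, inner_smul_right,
        inner_smul_left, inner_smul_right, real_inner_comm d e, he,
        real_inner_self_eq_norm_sq, real_inner_self_eq_norm_sq]
      simp only [RCLike.conj_to_real]
      field_simp
      ring
    have h3 := h1 _ _ horth
    rw [map_sub, h2, LinearMap.map_add, LinearMap.add_apply, map_smul, map_smul, map_smul,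
      LinearMap.smul_apply, hde] at h3
    simp only [smul_eq_mul] at h3
    have h4 : (‖d‖ / ‖e‖) * ((‖d‖ / ‖e‖) * M e e) = 0 := by linarith
    rcases mul_eq_zero.1 h4 with h | h
    · exact absurd h ht0
    · rcases mul_eq_zero.1 h with h | h
      · exact absurd h ht0
      · exact h
  have hdd : ⟪d, d⟫ ≠ 0 := inner_self_ne_zero.2 hd
  obtain ⟨e, he⟩ : ∃ e : E n, e = u - (⟪d, u⟫ / ⟪d, d⟫) • d := ⟨_, rfl⟩
  have hu : u = (⟪d, u⟫ / ⟪d, d⟫) • d + e := by rw [he]; abel
  have hde : ⟪d, e⟫ = 0 := by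
    rw [he, inner_sub_right, inner_smul_right]
    field_simp
    ring
  have h5 : M u u = M u e := by
    have h6 : M u u = M u ((⟪d, u⟫ / ⟪d, d⟫) • d + e) := congrArg (M u) hu
    rw [map_add, map_smul, h2, smul_zero, zero_add] at h6
    exact h6
  have h7 : M u e = M e e := by
    have h6 : M u e = M ((⟪d, u⟫ / ⟪d, d⟫) • d + e) e := congrArg (fun z => M z e) hu
    rw [LinearMap.map_add, LinearMap.add_apply, map_smul, LinearMap.smul_apply, h1 d e hde,
      smul_zero, zero_add] at h6
    exact h6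
  rw [h5, h7]
  exact key e hde

end Pool.Agent.Helper56.WV
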