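import Pool.Agent.Helper56.WV.St
import Pool.Agent.Helper79.Wav.Lat
import Pool.Agent.Helper98.Wav.ND

/-!
# Project WV (MP_d629b1_an): continuity of the currents
-/

set_option autoImplicit false

open MeasureTheory
open scoped FourierTransform RealInnerProductSpace Matrix ComplexConjugate

noncomputable section

namespace Pool.Agent.Helper56.WV

open Wav

variable {n L : ℕ}

private lemma MS_sc_cont {A : Matrix (Fin n) (Fin n) ℝ} {Ψ : Fin L → E n → ℂ} {N : ℝ}
    (W : WSys A Ψ N) (j : ℤ) (l : Fin L) : Continuous (sc A Ψ j l) :=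
  (W.smooth l).continuous.comp (ND.act_cont _)

/-- The index of a common vector in the lattice of scale `j`. -/
private def MS_qi (A : Matrix (Fin n) (Fin n) ℝ) (j : ℤ) (γ : Cm A 0 j) : Fin n → ℤ :=
  (mem_Gam'.mp γ.2.2).choose

private lemma MS_qi_spec (A : Matrix (Fin n) (Fin n) ℝ) (j : ℤ) (γ : Cm A 0 j) :
    act (Aᵀ ^ j) (ivec (MS_qi A j γ)) = γ.1 := (mem_Gam'.mp γ.2.2).choose_spec

private lemma MS_qi_inj (A : Matrix (Fin n) (Fin n) ℝ) (j : ℤ) :
    Function.Injective (MS_qi A j) := by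
  intro γ δ h
  apply Subtype.ext
  rw [← MS_qi_spec A j γ, ← MS_qi_spec A j δ, h]

private lemma MS_XX_cont {A : Matrix (Fin n) (Fin n) ℝ} {Ψ : Fin L → E n → ℂ} {N : ℝ}
    (W : WSys A Ψ N) (j : ℤ) (u : E n) (l' l : Fin L) : Continuous (XX A Ψ j u l' l) := by
  obtain ⟨K, hK, hb⟩ := W.bound
  obtain ⟨D, hD, hd⟩ := W.dbound
  have hn0 : (0 : ℝ) ≤ n := Nat.cast_nonneg n
  have hN1 := W.hN
  have hN : (n : ℝ) < N := by linarith
  have hN0 : 0 < N := by linarith
  obtain ⟨C, hC⟩ := lattice_sum n N hN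
  have hdet : Aᵀ.det ≠ 0 := by
    rw [Matrix.det_transpose]
    exact expansive_det W.exp
  rw [continuous_iff_continuousAt]
  intro ξ0
  have hc : Continuous fun ξ : E n => ‖act (Aᵀ ^ (-j)) (ξ0 - ξ)‖ :=
    ((ND.act_cont (Aᵀ ^ (-j))).comp (continuous_const.sub continuous_id)).norm
  have hopen : IsOpen {ξ : E n | ‖act (Aᵀ ^ (-j)) (ξ0 - ξ)‖ < 1} := isOpen_lt hc continuous_const
  have hmem : ξ0 ∈ {ξ : E n | ‖act (Aᵀ ^ (-j)) (ξ0 - ξ)‖ < 1} := by
    show ‖act (Aᵀ ^ (-j)) (ξ0 - ξ0)‖ < 1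
    rw [sub_self, act_zero, norm_zero]
    exact one_pos
  refine ContinuousOn.continuousAt (s := {ξ : E n | ‖act (Aᵀ ^ (-j)) (ξ0 - ξ)‖ < 1}) ?_
    (hopen.mem_nhds hmem)
  set η : E n := act (Aᵀ ^ (-j)) ξ0 with hη
  have hs : Summable fun γ : Cm A 0 j =>
      K * ((2 : ℝ) ^ N * (1 + ‖η + ivec (MS_qi A j γ)‖) ^ (-N)) * (D * ‖u‖) :=
    ((((hC η).1.comp_injective (MS_qi_inj A j)).mul_left _).mul_left _).mul_right _
  refine continuousOn_tsum (u := fun γ : Cm A 0 j =>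
      K * ((2 : ℝ) ^ N * (1 + ‖η + ivec (MS_qi A j γ)‖) ^ (-N)) * (D * ‖u‖)) ?_ hs ?_
  · intro γ
    refine Continuous.continuousOn ?_
    have h1 : Continuous fun ξ : E n => sc A Ψ j l' (ξ + γ) :=
      (MS_sc_cont W j l').comp (continuous_id.add continuous_const)
    have h2 : Continuous fun ξ : E n => fderiv ℝ (Ψ l) (ξ + γ) u :=
      (((W.smooth l).continuous_fderiv one_ne_zero).comp
        (continuous_id.add continuous_const)).clm_apply continuous_const
    exact (Complex.continuous_conj.comp h1).mul h2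
  · intro γ ξ hξ
    have hξ' : ‖act (Aᵀ ^ (-j)) (ξ0 - ξ)‖ < 1 := hξ
    rw [norm_mul, RCLike.norm_conj]
    have e1 : act (Aᵀ ^ (-j)) (ξ + γ) = act (Aᵀ ^ (-j)) ξ + ivec (MS_qi A j γ) := by
      rw [act_add, ← MS_qi_spec A j γ, ND.act_zpow_neg_cancel hdet]
    have e2 : ‖η + ivec (MS_qi A j γ)‖ ≤ ‖act (Aᵀ ^ (-j)) ξ + ivec (MS_qi A j γ)‖ + 1 := by
      have e3 : η + ivec (MS_qi A j γ) = (act (Aᵀ ^ (-j)) ξ + ivec (MS_qi A j γ)) +
          act (Aᵀ ^ (-j)) (ξ0 - ξ) := by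
        have e4 : ξ0 = ξ + (ξ0 - ξ) := by abel
        rw [hη]
        conv_lhs => rw [e4]
        rw [act_add]
        abel
      rw [e3]
      exact (norm_add_le _ _).trans (by linarith)
    set y : E n := act (Aᵀ ^ (-j)) ξ + ivec (MS_qi A j γ) with hy
    have h1 : ‖sc A Ψ j l' (ξ + γ)‖ ≤
        K * ((2 : ℝ) ^ N * (1 + ‖η + ivec (MS_qi A j γ)‖) ^ (-N)) := by
      have h2 : sc A Ψ j l' (ξ + γ) = Ψ l' y := by
        unfold sc
        rw [e1]
      rw [h2]
      refine (hb l' y).trans (mul_le_mul_of_nonneg_left ?_ hK.le)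
      have h3 : (1 + ‖η + ivec (MS_qi A j γ)‖) ≤ 2 * (1 + ‖y‖) := by
        linarith [norm_nonneg y]
      have h4 : (2 * (1 + ‖y‖)) ^ (-N) ≤ (1 + ‖η + ivec (MS_qi A j γ)‖) ^ (-N) :=
        Real.rpow_le_rpow_of_nonpos (by positivity) h3 (by linarith)
      have h5 : (1 + ‖y‖) ^ (-N) = (2 : ℝ) ^ N * (2 * (1 + ‖y‖)) ^ (-N) := by
        rw [Real.mul_rpow (by norm_num) (by positivity), ← mul_assoc, ← Real.rpow_add (by norm_num),
          add_neg_cancel, Real.rpow_zero, one_mul]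
      rw [h5]
      exact mul_le_mul_of_nonneg_left h4 (by positivity)
    have h2 : ‖fderiv ℝ (Ψ l) (ξ + γ) u‖ ≤ D * ‖u‖ :=
      ((fderiv ℝ (Ψ l) (ξ + γ)).le_opNorm u).trans
        (mul_le_mul_of_nonneg_right (hd l _) (norm_nonneg u))
    exact mul_le_mul h1 h2 (norm_nonneg _) (by positivity)

/-- **MS.** -/
theorem p_MS (_hLS : St_LS) : St_MS := by
  intro n L A Ψ N W j u
  unfold fj
  by_cases hj : j = 0
  · simp only [hj, if_true]
    exact continuous_const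
  · simp only [hj, if_false]
    refine continuous_finsetSum _ fun l _ => continuous_finsetSum _ fun l' _ => ?_
    exact ((MS_sc_cont W j l').mul (Complex.continuous_conj.comp (W.smooth l).continuous)).mul
      (MS_XX_cont W j u l' l)

end Pool.Agent.Helper56.WV
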