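import Pool.Agent.Helper56.WV.St

/-!
# Project WV: module MT (two scales present at a point meet)
-/

set_option autoImplicit false

namespace Pool.Agent.Helper56.WV

theorem p_MT : St_MT := by
  intro E _ Γ P hK a b ξ hab ha hb
  by_contra hno
  push Not at hno
  have h0 := hK.orth a b hab ξ ξ
  have h1 : ∑' γ : Γ a, P a ξ (ξ + γ) * P b (ξ + γ) ξ = P a ξ (ξ + (0 : Γ a)) * P b (ξ + (0 : Γ a)) ξ := by
    refine tsum_eq_single (0 : Γ a) fun γ hγ => ?_
    by_cases h2 : P a ξ (ξ + γ) = 0
    · rw [h2, zero_mul]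
    · have h3 : ξ + (γ : E) ≠ ξ := by
        intro h4
        apply hγ
        have h5 : (γ : E) = 0 := by simpa using h4
        exact Subtype.ext h5
      rw [hno _ h3 h2, mul_zero]
  rw [h1] at h0
  simp only [ZeroMemClass.coe_zero, add_zero] at h0
  exact (mul_ne_zero ha hb) h0

end Pool.Agent.Helper56.WV
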