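import Pool.Agent.Helper56.WV.St

/-!
# Project WV (MP_d629b1_an): module OFF, the off-coset identity
-/

set_option autoImplicit false

open MeasureTheory
open scoped FourierTransform RealInnerProductSpace Matrix ComplexConjugate

noncomputable section

namespace Pool.Agent.Helper56.WV

private lemma OFF_tsum_sub {E : Type} [AddCommGroup E] (G : AddSubgroup E) (f : E → ℂ)
    (hf : ∀ v, f v ≠ 0 → v ∈ G) : ∑' γ : G, f γ = ∑' v, f v :=
  tsum_subtype_eq_of_support_subset (s := (G : Set E)) (f := f) (fun v hv => hf v hv)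

private lemma OFF_summable_sub {E : Type} [AddCommGroup E] (G : AddSubgroup E) (f : E → ℝ)
    (hf : ∀ v, f v ≠ 0 → v ∈ G) (h : Summable fun γ : G => f γ) : Summable f := by
  have h1 : Summable ((G : Set E).indicator f) := summable_subtype_iff_indicator.1 h
  have h2 : (G : Set E).indicator f = f := Set.indicator_eq_self.2 (fun v hv => hf v hv)
  rwa [h2] at h1

theorem p_OFF : St_OFF := by
  intro E _ Γ P tf hK hal a b c ξ η hab _ hηa hηb hP hca hcb hnm hPc
  classical
  obtain ⟨s, hs, hsb⟩ := hK.s2 ξ
  have hs0 : ∀ x, 0 ≤ s x := fun x => (norm_nonneg _).trans (hsb x ξ)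
  -- the sets
  set C : ℤ → Prop := fun x => x = a ∨ x = b ∨ Meet3 Γ x a b with hC
  set h' : E → Prop := fun v => v ∈ Γ a ∧ ∃ m : ℕ, 0 < m ∧ m • v ∈ Γ b with hh'
  have hsumP : ∀ ζ, Summable fun x => P x ξ ζ := fun ζ =>
    Summable.of_norm_bounded hs (fun x => hsb x ζ)
  have hsumC : ∀ ζ, Summable fun x => if C x then P x ξ ζ else 0 := fun ζ =>
    Summable.of_norm_bounded hs (fun x => by
      split_ifs
      · exact hsb x ζ
      · simpa using hs0 x)
  set D : ℂ := ∑' x, if C x then P x ξ ξ else 0 with hD
  -- (1)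
  have h1 : ∀ v, h' v → v ≠ 0 → ∀ x, ¬ C x → P x ξ (ξ + v) = 0 := by
    rintro v ⟨hva, m, hm, hvb⟩ hv0 x hx
    by_contra hne
    have hvx : v ∈ Γ x := by
      have := hK.supp x ξ (ξ + v) hne
      rwa [add_sub_cancel_left] at this
    apply hx
    right; right
    exact ⟨m • v, fun h0 => hv0 (tf m v hm h0), (Γ x).nsmul_mem hvx m, (Γ a).nsmul_mem hva m, hvb⟩
  have h1' : ∀ v, h' v → (∑' x, if C x then P x ξ (ξ + v) else 0) = if v = 0 then D else 0 := by
    intro v hv
    by_cases hv0 : v = 0
    · rw [if_pos hv0, hv0, add_zero]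
    · rw [if_neg hv0]
      refine Eq.trans (tsum_congr ?_) (hK.comp ξ (ξ + v) (fun h => hv0 (by
        have : ξ + 0 = ξ + v := by rw [add_zero]; exact h
        exact (add_left_cancel this).symm)))
      intro x
      split_ifs with hx
      · rfl
      · exact (h1 v hv hv0 x hx).symm
  -- (2)
  have hD1 : D ≠ 1 := by
    intro hD1
    have hcC : ¬ C c := by
      rintro (h | h | ⟨v, h0, h2, h3, h4⟩)
      · exact hca h
      · exact hcb h
      · exact hnm ⟨v, h0, h3, h4, h2⟩
    have hdiag : ∑' x, P x ξ ξ = 1 := by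
      rcases hK.diag ξ with h | h
      · exact h
      · exact absurd (h a η) hP
    have hsplit : ∑' x, P x ξ ξ = D + ∑' x, (if C x then 0 else P x ξ ξ) := by
      rw [hD, ← (hsumC ξ).tsum_add]
      · apply tsum_congr
        intro x
        split_ifs <;> simp
      · exact Summable.of_norm_bounded hs (fun x => by
          split_ifs
          · simpa using hs0 x
          · exact hsb x ξ)
    have hzero : ∑' x, (if C x then 0 else P x ξ ξ) = 0 := by
      rw [hdiag, hD1] at hsplit
      have h5 : (1 : ℂ) + 0 = 1 + ∑' x, (if C x then 0 else P x ξ ξ) := by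
        rw [add_zero]; exact hsplit
      exact (add_left_cancel h5).symm
    have hsumN : Summable fun x => (if C x then 0 else P x ξ ξ) :=
      Summable.of_norm_bounded hs (fun x => by
          split_ifs
          · simpa using hs0 x
          · exact hsb x ξ)
    have hre : ∑' x, (if C x then 0 else P x ξ ξ).re = 0 := by
      rw [← Complex.re_tsum hsumN, hzero, Complex.zero_re]
    have hnn : ∀ x, 0 ≤ (if C x then 0 else P x ξ ξ).re := by
      intro x
      split_ifs
      · simp
      · exact (hK.nonneg x ξ).1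
    have hsumre : Summable fun x => (if C x then 0 else P x ξ ξ).re :=
      (Complex.hasSum_re hsumN.hasSum).summable
    have hle : (if C c then 0 else P c ξ ξ).re ≤ ∑' x, (if C x then 0 else P x ξ ξ).re :=
      hsumre.le_tsum c (fun x _ => hnn x)
    rw [hre, if_neg hcC] at hle
    have hre0 : (P c ξ ξ).re = 0 := le_antisymm hle (hK.nonneg c ξ).1
    exact hPc (Complex.ext hre0 (hK.nonneg c ξ).2)
  -- summability in `v`
  set g : E → ℝ := fun v => ‖P a (ξ + v) η‖ with hg
  have hgs : Summable g := by
    have h2 : Summable fun w : E => ‖P a η (η + w)‖ := by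
      apply OFF_summable_sub (Γ a) _ _ (hK.s1 a η)
      intro w hw
      have := hK.supp a η (η + w) (norm_ne_zero_iff.1 hw)
      rwa [add_sub_cancel_left] at this
    have h3 := (Equiv.addRight (ξ - η)).summable_iff.2 h2
    refine h3.congr (fun v => ?_)
    simp only [Function.comp, Equiv.coe_addRight, hg]
    have e1 : η + (v + (ξ - η)) = ξ + v := by abel
    rw [e1, hK.herm a (ξ + v) η]
    simp
  set F : ℤ → E → ℂ := fun x v => P x ξ (ξ + v) * P a (ξ + v) η with hF
  have hFb : ∀ x v, ‖F x v‖ ≤ s x * g v := by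
    intro x v
    rw [hF, hg]
    simp only [norm_mul]
    exact mul_le_mul_of_nonneg_right (hsb x _) (norm_nonneg _)
  have hFx : ∀ x v, F x v ≠ 0 → v ∈ Γ x := by
    intro x v hne
    have := hK.supp x ξ (ξ + v) (left_ne_zero_of_mul hne)
    rwa [add_sub_cancel_left] at this
  have hFa : ∀ x v, F x v ≠ 0 → v ∈ Γ a := by
    intro x v hne
    have h2 := hK.supp a (ξ + v) η (right_ne_zero_of_mul hne)
    have e1 : v = (η - ξ) - (η - (ξ + v)) := by abel
    rw [e1]
    exact (Γ a).sub_mem hηa h2
  have hidem : ∑' v, F a v = P a ξ η := by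
    rw [← hK.idem a ξ η]
    exact (OFF_tsum_sub (Γ a) (F a) (hFx a)).symm
  have horth : ∀ x, x ≠ a → ∑' v, F x v = 0 := by
    intro x hx
    rw [← hK.orth x a hx ξ η]
    exact (OFF_tsum_sub (Γ x) (F x) (hFx x)).symm
  have hFh : ∀ x, C x → x ≠ a → ∀ v, F x v ≠ 0 → h' v := by
    intro x hx hxa v hne
    refine ⟨hFa x v hne, ?_⟩
    rcases hx with h | h | h
    · exact absurd h hxa
    · refine ⟨1, one_pos, ?_⟩
      rw [one_smul, ← h]
      exact hFx x v hne
    · by_cases hxb : x = b
      · refine ⟨1, one_pos, ?_⟩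
        rw [one_smul, ← hxb]
        exact hFx x v hne
      · exact hal x a b hxa hxb hab h v (hFx x v hne) (hFa x v hne)
  -- the double sum
  set T : ℤ → E → ℂ := fun x v => if (C x ∧ x ≠ a) ∧ h' v then F x v else 0 with hT
  have hTs : Summable (Function.uncurry T) := by
    have h2 : Summable fun p : ℤ × E => s p.1 * g p.2 :=
      hs.mul_of_nonneg hgs hs0 (fun v => norm_nonneg _)
    refine Summable.of_norm_bounded h2 ?_
    rintro ⟨x, v⟩
    simp only [Function.uncurry, hT]
    split_ifs
    · exact hFb x v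
    · rw [norm_zero]
      exact mul_nonneg (hs0 x) (norm_nonneg _)
  have hcomm : ∑' v, ∑' x, T x v = ∑' x, ∑' v, T x v := hTs.tsum_comm
  have hRHS : ∑' x, ∑' v, T x v = 0 := by
    have h2 : ∀ x, ∑' v, T x v = 0 := by
      intro x
      by_cases hx : C x ∧ x ≠ a
      · rw [← horth x hx.2]
        apply tsum_congr
        intro v
        simp only [hT]
        split_ifs with h3
        · rfl
        · by_contra hne
          exact h3 ⟨hx, hFh x hx.1 hx.2 v (fun h0 => hne h0.symm)⟩
      · rw [← tsum_zero (β := E) (α := ℂ)]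
        apply tsum_congr
        intro v
        simp only [hT]
        rw [if_neg (fun h3 => hx h3.1)]
    simp only [h2, tsum_zero]
  have hLHS : ∀ v, ∑' x, T x v = (if v = 0 then D * P a ξ η else 0) -
      (if h' v then F a v else 0) := by
    intro v
    by_cases hv : h' v
    · have h2 : ∀ x, T x v = (if C x ∧ x ≠ a then P x ξ (ξ + v) else 0) * P a (ξ + v) η := by
        intro x
        simp only [hT, hF]
        by_cases hx : C x ∧ x ≠ a
        · rw [if_pos ⟨hx, hv⟩, if_pos hx]
        · rw [if_neg (fun h => hx h.1), if_neg hx, zero_mul]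
      have h3 : ∑' x, (if C x ∧ x ≠ a then P x ξ (ξ + v) else 0) =
          (if v = 0 then D else 0) - P a ξ (ξ + v) := by
        have h4 := (hsumC (ξ + v)).tsum_eq_add_tsum_ite a
        rw [h1' v hv] at h4
        have h5 : C a := Or.inl rfl
        rw [if_pos h5] at h4
        rw [h4, add_sub_cancel_left]
        apply tsum_congr
        intro x
        by_cases hxa : x = a
        · rw [if_pos hxa, if_neg (fun h => h.2 hxa)]
        · rw [if_neg hxa]
          by_cases hx : C x
          · rw [if_pos hx, if_pos ⟨hx, hxa⟩]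
          · rw [if_neg hx, if_neg (fun h => hx h.1)]
      rw [tsum_congr h2, tsum_mul_right, h3, if_pos hv]
      by_cases hv0 : v = 0
      · rw [if_pos hv0, if_pos hv0, hv0]
        simp only [hF, add_zero]
        ring
      · rw [if_neg hv0, if_neg hv0]
        simp only [hF]
        ring
    · have hv0 : v ≠ 0 := by
        rintro rfl
        exact hv ⟨(Γ a).zero_mem, 1, one_pos, by rw [smul_zero]; exact (Γ b).zero_mem⟩
      rw [if_neg hv, if_neg hv0, sub_zero, ← tsum_zero (β := ℤ) (α := ℂ)]
      apply tsum_congr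
      intro x
      simp only [hT]
      rw [if_neg (fun h => hv h.2)]
  have hFas : Summable (F a) :=
    Summable.of_norm_bounded (hgs.mul_left (s a)) (fun v => hFb a v)
  have hFhs : Summable fun v => if h' v then F a v else 0 :=
    Summable.of_norm_bounded (hgs.mul_left (s a)) (fun v => by
      split_ifs
      · exact hFb a v
      · rw [norm_zero]
        exact mul_nonneg (hs0 a) (norm_nonneg _))
  have hsing : Summable fun v : E => if v = 0 then D * P a ξ η else 0 :=
    (hasSum_ite_eq (0 : E) (D * P a ξ η)).summable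
  have hSH : ∑' v, (if h' v then F a v else 0) = D * P a ξ η := by
    have h2 : ∑' v, ((if v = 0 then D * P a ξ η else 0) - (if h' v then F a v else 0)) = 0 :=
      (tsum_congr hLHS).symm.trans (hcomm.trans hRHS)
    rw [hsing.tsum_sub hFhs, tsum_ite_eq] at h2
    exact (sub_eq_zero.1 h2).symm
  have hN : ∑' v, (if h' v then 0 else F a v) ≠ 0 := by
    intro h0
    have h2 : ∑' v, F a v = ∑' v, (if h' v then F a v else 0) + ∑' v, (if h' v then 0 else F a v) := by
      rw [← hFhs.tsum_add]
      · apply tsum_congr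
        intro v
        split_ifs <;> simp
      · exact Summable.of_norm_bounded (hgs.mul_left (s a)) (fun v => by
          split_ifs
          · rw [norm_zero]
            exact mul_nonneg (hs0 a) (norm_nonneg _)
          · exact hFb a v)
    rw [hidem, hSH, h0, add_zero] at h2
    have h3 : (1 - D) * P a ξ η = 0 := by
      rw [sub_mul, one_mul]
      exact sub_eq_zero.2 h2
    rcases mul_eq_zero.1 h3 with h | h
    · exact hD1 (sub_eq_zero.1 h).symm
    · exact hP h
  have hex : ∃ v, (if h' v then 0 else F a v) ≠ 0 := by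
    by_contra hcon
    push Not at hcon
    exact hN (by simp only [hcon, tsum_zero])
  obtain ⟨v, hv⟩ := hex
  have hnv : ¬ h' v := by
    intro h
    rw [if_pos h] at hv
    exact hv rfl
  rw [if_neg hnv] at hv
  have hva := hFa a v hv
  refine ⟨ξ + v, by rw [add_sub_cancel_left]; exact hva, ?_, left_ne_zero_of_mul hv,
    right_ne_zero_of_mul hv⟩
  intro m hm hmb
  rw [add_sub_cancel_left] at hmb
  exact hnv ⟨hva, m, hm, hmb⟩

end Pool.Agent.Helper56.WV
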