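import Pool.Agent.Helper56.WV.St
import Pool.Agent.Helper54.Wav.Reduce

/-!
# Project WV (MP_d629b1_an): module PP, Parseval on the torus for one generator and one scale
-/

set_option autoImplicit false

open MeasureTheory Matrix Set
open scoped ComplexConjugate ContDiff ENNReal

noncomputable section

namespace Pool.Agent.Helper56.WV

open Pool.Agent.Helper54.Wav in
/-- polarization on the cube -/
theorem pp_cube {n : ℕ} {P Q : (Fin n → ℝ) → ℂ}
    (hP : Measurable P) (hQ : Measurable Q) {C D : ℝ} (hC : ∀ x, ‖P x‖ ≤ C) (hD : ∀ x, ‖Q x‖ ≤ D) :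
    HasSum (fun k : Fin n → ℤ => conj (∫ x in _root_.Wav.cube (Fin n), _root_.Wav.chr k x * Q x) *
      ∫ x in _root_.Wav.cube (Fin n), _root_.Wav.chr k x * P x)
      (∫ x in _root_.Wav.cube (Fin n), conj (Q x) * P x) := by
  have fin : IsFiniteMeasure (volume.restrict (_root_.Wav.cube (Fin n))) := finite_cube
  have hPm : MemLp P 2 (volume.restrict (_root_.Wav.cube (Fin n))) :=
    MemLp.of_bound hP.aestronglyMeasurable C (Filter.Eventually.of_forall hC)
  have hQm : MemLp Q 2 (volume.restrict (_root_.Wav.cube (Fin n))) :=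
    MemLp.of_bound hQ.aestronglyMeasurable D (Filter.Eventually.of_forall hD)
  have hPi : Integrable P (volume.restrict (_root_.Wav.cube (Fin n))) :=
    hPm.integrable (by norm_num)
  have hQi : Integrable Q (volume.restrict (_root_.Wav.cube (Fin n))) :=
    hQm.integrable (by norm_num)
  have key : ∀ c : ℂ, HasSum (fun k : Fin n → ℤ =>
      ((‖(∫ x in _root_.Wav.cube (Fin n), _root_.Wav.chr k x * P x) +
        c * ∫ x in _root_.Wav.cube (Fin n), _root_.Wav.chr k x * Q x‖ ^ 2 : ℝ) : ℂ))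
      (∫ x in _root_.Wav.cube (Fin n), ((‖P x + c * Q x‖ ^ 2 : ℝ) : ℂ)) := by
    intro c
    have h := _root_.Wav.parseval_cube (P := fun x => P x + c * Q x) (hPm.add (hQm.const_mul c))
    rw [integral_complex_ofReal]
    refine (Complex.hasSum_ofReal).2 ?_
    convert h using 1
    funext k
    congr 2
    rw [← integral_const_mul, ← integral_add]
    · refine integral_congr_ae (Filter.Eventually.of_forall fun x => ?_)
      simp only
      ring
    · exact hPi.bdd_mul (c := 1) (_root_.Wav.continuous_chr k).aestronglyMeasurable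
        (Filter.Eventually.of_forall fun x => (_root_.Wav.norm_chr k x).le)
    · exact (hQi.bdd_mul (c := 1) (_root_.Wav.continuous_chr k).aestronglyMeasurable
        (Filter.Eventually.of_forall fun x => (_root_.Wav.norm_chr k x).le)).const_mul c
  have pol : ∀ a b : ℂ, conj b * a = (1 / 4) * (((‖a + 1 * b‖ ^ 2 : ℝ) : ℂ) +
      (-1) * ((‖a + (-1) * b‖ ^ 2 : ℝ) : ℂ) + Complex.I * ((‖a + Complex.I * b‖ ^ 2 : ℝ) : ℂ) +
      (-Complex.I) * ((‖a + (-Complex.I) * b‖ ^ 2 : ℝ) : ℂ)) := by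
    intro a b
    have h : ∀ z : ℂ, ((‖z‖ ^ 2 : ℝ) : ℂ) = z * conj z := by
      intro z
      rw [Complex.mul_conj, Complex.normSq_eq_norm_sq]
    simp only [h, map_add, map_mul, map_neg, map_one, Complex.conj_I]
    have hI : Complex.I ^ 2 = -1 := Complex.I_sq
    linear_combination ((1 / 2) * conj b * a - (1 / 2) * b * conj a) * hI
  have h4 := ((((key 1).add ((key (-1)).mul_left (-1))).add ((key Complex.I).mul_left Complex.I)).add
    ((key (-Complex.I)).mul_left (-Complex.I))).mul_left (1 / 4 : ℂ)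
  have hfun : (fun k : Fin n → ℤ =>
      conj (∫ x in _root_.Wav.cube (Fin n), _root_.Wav.chr k x * Q x) *
      ∫ x in _root_.Wav.cube (Fin n), _root_.Wav.chr k x * P x) = _ :=
    funext fun k => pol (∫ x in _root_.Wav.cube (Fin n), _root_.Wav.chr k x * P x)
      (∫ x in _root_.Wav.cube (Fin n), _root_.Wav.chr k x * Q x)
  rw [hfun]
  refine (congrArg (HasSum _) ?_).mpr h4
  · have hi : ∀ c : ℂ, Integrable (fun x => ((‖P x + c * Q x‖ ^ 2 : ℝ) : ℂ))
        (volume.restrict (_root_.Wav.cube (Fin n))) := by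
      intro c
      have hm : Measurable fun x => ((‖P x + c * Q x‖ ^ 2 : ℝ) : ℂ) :=
        Complex.measurable_ofReal.comp ((hP.add (hQ.const_mul c)).norm.pow_const 2)
      refine Integrable.of_bound hm.aestronglyMeasurable ((C + ‖c‖ * D) ^ 2)
        (Filter.Eventually.of_forall fun x => ?_)
      rw [Complex.norm_real, Real.norm_eq_abs, abs_of_nonneg (by positivity)]
      refine pow_le_pow_left₀ (norm_nonneg _) ?_ 2
      refine (norm_add_le _ _).trans (add_le_add (hC x) ?_)
      rw [norm_mul]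
      exact mul_le_mul_of_nonneg_left (hD x) (norm_nonneg _)
    rw [← integral_const_mul, ← integral_const_mul, ← integral_const_mul, ← integral_add,
      ← integral_add, ← integral_add, ← integral_const_mul]
    · refine integral_congr_ae (Filter.Eventually.of_forall fun x => ?_)
      exact pol (P x) (Q x)
    · exact ((hi 1).add ((hi (-1)).const_mul _)).add ((hi _).const_mul _)
    · exact (hi _).const_mul _
    · exact (hi 1).add ((hi (-1)).const_mul _)
    · exact (hi _).const_mul _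
    · exact hi 1
    · exact (hi _).const_mul _

open Pool.Agent.Helper54.Wav in
/-- bilinear Parseval identity for periodizations -/
theorem pp_nice {n : ℕ} {F G : (Fin n → ℝ) → ℂ} (hF : Nice F) (hG : Nice G) :
    HasSum (fun k : Fin n → ℤ => conj (∫ x, G x * ee (∑ i, (k i : ℝ) * x i)) *
      ∫ x, F x * ee (∑ i, (k i : ℝ) * x i)) (∫ x, conj (G x) * _root_.Wav.per F x) := by
  obtain ⟨C, hC⟩ := per_bdd hF
  obtain ⟨D, hD⟩ := per_bdd hG
  have h := pp_cube (per_meas hF) (per_meas hG) hC hD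
  have e1 : ∀ {F : (Fin n → ℝ) → ℂ} (_ : Nice F) (k : Fin n → ℤ),
      ∫ x in _root_.Wav.cube (Fin n), _root_.Wav.chr k x * _root_.Wav.per F x =
        ∫ x, F x * ee (∑ i, (k i : ℝ) * x i) := by
    intro F hF k
    rw [_root_.Wav.integral_per_mul hF.integrable (_root_.Wav.continuous_chr k)
      (fun x => (_root_.Wav.norm_chr k x).le) (_root_.Wav.chr_periodic k)]
    refine integral_congr_ae (Filter.Eventually.of_forall fun x => ?_)
    simp only [chr_eq_ee, mul_comm]
  have e2 : ∫ x in _root_.Wav.cube (Fin n), conj (_root_.Wav.per G x) * _root_.Wav.per F x =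
      ∫ x, conj (G x) * _root_.Wav.per F x := by
    have hG' : Nice (fun x => conj (G x)) := by
      obtain ⟨h1, ⟨C', h2⟩, ⟨R, h3⟩⟩ := hG
      refine ⟨Complex.continuous_conj.measurable.comp h1, ⟨C', fun x => by simpa using h2 x⟩,
        ⟨R, fun x hx => by simp only [h3 x hx, map_zero]⟩⟩
    have h5 := integral_cube_mul_per hG'.integrable (e := _root_.Wav.per F) (C := C)
      (per_meas hF).aestronglyMeasurable hC (fun x m => per_per F x m)
    have h6 : ∀ x, _root_.Wav.per (fun x => conj (G x)) x = conj (_root_.Wav.per G x) := by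
      intro x
      unfold _root_.Wav.per
      exact (Complex.conj_tsum _).symm
    rw [← integral_congr_ae (Filter.Eventually.of_forall fun x => ?_), h5]
    · refine integral_congr_ae (Filter.Eventually.of_forall fun x => ?_)
      exact mul_comm _ _
    · simp only [h6, mul_comm]
  rw [e2] at h
  convert h using 1
  funext k
  rw [e1 hF k, e1 hG k]

/-- the indicator function in coordinates -/
def pp_f {n : ℕ} (S : Set (_root_.Wav.E n)) (x : Fin n → ℝ) : ℂ :=
  S.indicator (fun _ => (1 : ℂ)) (WithLp.toLp 2 x)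

/-- the transplanted function -/
def pp_F {n : ℕ} (B : Matrix (Fin n) (Fin n) ℝ) (g : (Fin n → ℝ) → ℂ) (S : Set (_root_.Wav.E n))
    (j : ℤ) (η : Fin n → ℝ) : ℂ :=
  ((|B.det| ^ ((j : ℝ) / 2) : ℝ) : ℂ) * conj (g η) * pp_f S ((B ^ j) *ᵥ η)

theorem pp_f_conj {n : ℕ} (S : Set (_root_.Wav.E n)) (x : Fin n → ℝ) :
    conj (pp_f S x) = pp_f S x := by
  unfold pp_f
  by_cases h : (WithLp.toLp 2 x : _root_.Wav.E n) ∈ S
  · rw [Set.indicator_of_mem h]; exact map_one _
  · rw [Set.indicator_of_notMem h]; exact map_zero _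

theorem pp_f_meas {n : ℕ} {S : Set (_root_.Wav.E n)} (hS : MeasurableSet S) :
    Measurable (pp_f S) := by
  unfold pp_f
  exact (measurable_const.indicator hS).comp
    (EuclideanSpace.equiv (Fin n) ℝ).symm.continuous.measurable

theorem pp_f_bd {n : ℕ} (S : Set (_root_.Wav.E n)) (x : Fin n → ℝ) : ‖pp_f S x‖ ≤ 1 := by
  unfold pp_f
  by_cases h : (WithLp.toLp 2 x : _root_.Wav.E n) ∈ S
  · rw [Set.indicator_of_mem h]; simp
  · rw [Set.indicator_of_notMem h]; simp

open Pool.Agent.Helper54.Wav in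
theorem pp_F_nice {n : ℕ} (B : Matrix (Fin n) (Fin n) ℝ) (hB : B.det ≠ 0) {g : (Fin n → ℝ) → ℂ}
    (hg : Continuous g) {K : ℝ} (hK : ∀ x, ‖g x‖ ≤ K) {S : Set (_root_.Wav.E n)}
    (hS : MeasurableSet S) (hSb : Bornology.IsBounded S) (j : ℤ) : Nice (pp_F B g S j) := by
  have hmeas : Measurable fun η : Fin n → ℝ => (B ^ j) *ᵥ η :=
    (Matrix.toLin' (B ^ j)).continuous_of_finiteDimensional.measurable
  refine ⟨?_, ?_, ?_⟩
  · exact (measurable_const.mul (Complex.continuous_conj.measurable.comp hg.measurable)).mul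
      ((pp_f_meas hS).comp hmeas)
  · refine ⟨|B.det| ^ ((j : ℝ) / 2) * K * 1, fun x => ?_⟩
    have h0 : ‖|B.det| ^ ((j : ℝ) / 2)‖ = |B.det| ^ ((j : ℝ) / 2) := by
      rw [Real.norm_eq_abs, abs_of_nonneg (by positivity)]
    simp only [pp_F, norm_mul, Complex.norm_real, RCLike.norm_conj]
    rw [h0]
    have h1 := hK x
    have h2 := pp_f_bd S ((B ^ j) *ᵥ x)
    have h3 : 0 ≤ K := (norm_nonneg _).trans h1
    gcongr
  · obtain ⟨R, hR⟩ := hSb.subset_closedBall 0
    have hc : Continuous fun ξ : _root_.Wav.E n => (B ^ (-j)) *ᵥ ξ.ofLp :=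
      (Matrix.toLin' (B ^ (-j))).continuous_of_finiteDimensional.comp
        (EuclideanSpace.equiv (Fin n) ℝ).continuous
    obtain ⟨R', hR'⟩ := ((isCompact_closedBall (0 : _root_.Wav.E n) R).image hc).isBounded.subset_closedBall 0
    refine ⟨R' + 1, fun x hx => ?_⟩
    have h0 : pp_f S ((B ^ j) *ᵥ x) = 0 := by
      unfold pp_f
      refine Set.indicator_of_notMem ?_ _
      intro hmem
      have h1 : (B ^ (-j)) *ᵥ ((B ^ j) *ᵥ x) ∈ Metric.closedBall (0 : Fin n → ℝ) R' :=
        hR' ⟨_, hR hmem, rfl⟩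
      rw [zpow_mulVec_neg B hB, mem_closedBall_zero_iff] at h1
      linarith
    simp only [pp_F, h0, mul_zero]

open Pool.Agent.Helper54.Wav in
theorem p_PP : St_PP := by
  intro n L A Ψ N hW S T hS hT hSb hTb j l
  have hA : A.det ≠ 0 := _root_.Wav.expansive_det hW.exp
  have hB : Aᵀ.det ≠ 0 := by rwa [Matrix.det_transpose]
  set B := Aᵀ with hBd
  set g : (Fin n → ℝ) → ℂ := fun x => Ψ l (WithLp.toLp 2 x) with hg
  have hup : Ψ l = up g := rfl
  have hgc : Continuous g :=
    (hW.smooth l).continuous.comp (EuclideanSpace.equiv (Fin n) ℝ).symm.continuous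
  obtain ⟨K, hK0, hK⟩ := hW.bound
  have hN : 0 < N := by
    have := hW.hN
    have h2 : (0 : ℝ) ≤ n := Nat.cast_nonneg _
    linarith
  have hgb : ∀ x, ‖g x‖ ≤ K := by
    intro x
    refine (hK l _).trans ?_
    have h1 : (1 + ‖(WithLp.toLp 2 x : _root_.Wav.E n)‖) ^ (-N) ≤ 1 :=
      Real.rpow_le_one_of_one_le_of_nonpos (by linarith [norm_nonneg (WithLp.toLp 2 x : _root_.Wav.E n)])
        (by linarith)
    calc K * (1 + ‖(WithLp.toLp 2 x : _root_.Wav.E n)‖) ^ (-N) ≤ K * 1 :=
          mul_le_mul_of_nonneg_left h1 hK0.le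
      _ = K := mul_one K
  have hFS := pp_F_nice B hB hgc hgb hS hSb j
  have hFT := pp_F_nice B hB hgc hgb hT hTb j
  have h1 := pp_nice hFS hFT
  -- the coefficients
  have hco : ∀ (S : Set (_root_.Wav.E n)), MeasurableSet S → ∀ k : Fin n → ℤ,
      ∫ ξ in S, conj (_root_.Wav.faff A (Ψ l) j k ξ) =
        ∫ x, pp_F B g S j x * ee (∑ i, (k i : ℝ) * x i) := by
    intro S hS k
    rw [← integral_indicator hS]
    have e1 : (S.indicator fun ξ => conj (_root_.Wav.faff A (Ψ l) j k ξ)) =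
        fun ξ : _root_.Wav.E n => (fun x => conj (fdil B g j k x) * pp_f S x) ξ.ofLp := by
      funext ξ
      rw [hup]
      simp only
      by_cases h : ξ ∈ S
      · rw [Set.indicator_of_mem h, faff_up]
        have : pp_f S ξ.ofLp = 1 := by
          unfold pp_f
          exact Set.indicator_of_mem (show (WithLp.toLp 2 ξ.ofLp : _root_.Wav.E n) ∈ S from h) _
        rw [this, mul_one]
      · rw [Set.indicator_of_notMem h]
        have : pp_f S ξ.ofLp = 0 := by
          unfold pp_f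
          exact Set.indicator_of_notMem (show (WithLp.toLp 2 ξ.ofLp : _root_.Wav.E n) ∉ S from h) _
        rw [this, mul_zero]
    rw [e1, integral_up, integral_fdil B hB]
    rfl
  have hfun : (fun k : Fin n → ℤ => conj (∫ ξ in T, conj (_root_.Wav.faff A (Ψ l) j k ξ)) *
      ∫ ξ in S, conj (_root_.Wav.faff A (Ψ l) j k ξ)) = fun k : Fin n → ℤ =>
        conj (∫ x, pp_F B g T j x * ee (∑ i, (k i : ℝ) * x i)) *
          ∫ x, pp_F B g S j x * ee (∑ i, (k i : ℝ) * x i) := by
    funext k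
    rw [hco S hS, hco T hT]
  rw [hfun]
  refine (congrArg (HasSum _) ?_).mpr h1
  -- the value
  set Kf : (Fin n → ℝ) → ℂ := fun x => pp_f T x * (g ((B ^ (-j)) *ᵥ x) * ∑' p : Fin n → ℤ,
    pp_f S (x + (B ^ j) *ᵥ zv p) * conj (g ((B ^ (-j)) *ᵥ (x + (B ^ j) *ᵥ zv p)))) with hKf
  rw [← integral_indicator hT]
  have e2 : (T.indicator fun ξ => sc A Ψ j l ξ * ∑' p : Fin n → ℤ,
      S.indicator (fun ζ => conj (sc A Ψ j l ζ)) (ξ + _root_.Wav.act (B ^ j) (_root_.Wav.ivec p))) =
      fun ξ : _root_.Wav.E n => Kf ξ.ofLp := by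
    funext ξ
    have e3 : sc A Ψ j l ξ * ∑' p : Fin n → ℤ,
      S.indicator (fun ζ => conj (sc A Ψ j l ζ)) (ξ + _root_.Wav.act (B ^ j) (_root_.Wav.ivec p)) =
        g ((B ^ (-j)) *ᵥ ξ.ofLp) * ∑' p : Fin n → ℤ,
    pp_f S (ξ.ofLp + (B ^ j) *ᵥ zv p) * conj (g ((B ^ (-j)) *ᵥ (ξ.ofLp + (B ^ j) *ᵥ zv p))) := by
      congr 1
      refine tsum_congr fun p => ?_
      by_cases h : (ξ + _root_.Wav.act (B ^ j) (_root_.Wav.ivec p)) ∈ S
      · rw [Set.indicator_of_mem h]
        have : pp_f S (ξ.ofLp + (B ^ j) *ᵥ zv p) = 1 := by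
          unfold pp_f
          exact Set.indicator_of_mem (show (WithLp.toLp 2 (ξ.ofLp + (B ^ j) *ᵥ zv p) :
            _root_.Wav.E n) ∈ S from h) _
        rw [this, one_mul]
        rfl
      · rw [Set.indicator_of_notMem h]
        have : pp_f S (ξ.ofLp + (B ^ j) *ᵥ zv p) = 0 := by
          unfold pp_f
          exact Set.indicator_of_notMem (show (WithLp.toLp 2 (ξ.ofLp + (B ^ j) *ᵥ zv p) :
            _root_.Wav.E n) ∉ S from h) _
        rw [this, zero_mul]
    simp only [hKf]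
    by_cases h : ξ ∈ T
    · rw [Set.indicator_of_mem h]
      have : pp_f T ξ.ofLp = 1 := by
        unfold pp_f
        exact Set.indicator_of_mem (show (WithLp.toLp 2 ξ.ofLp : _root_.Wav.E n) ∈ T from h) _
      rw [this, one_mul, e3]
    · rw [Set.indicator_of_notMem h]
      have : pp_f T ξ.ofLp = 0 := by
        unfold pp_f
        exact Set.indicator_of_notMem (show (WithLp.toLp 2 ξ.ofLp : _root_.Wav.E n) ∉ T from h) _
      rw [this, zero_mul]
  rw [e2, integral_up, ← integral_comp_mulVec' (B ^ j) (det_zpow_ne B hB j), ← integral_smul]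
  refine integral_congr_ae (Filter.Eventually.of_forall fun η => ?_)
  have hpos : 0 < |B.det| := abs_pos.2 hB
  have e4 : ((|(B ^ j).det| : ℝ) : ℂ) = ((|B.det| ^ ((j : ℝ) / 2) : ℝ) : ℂ) *
      ((|B.det| ^ ((j : ℝ) / 2) : ℝ) : ℂ) := by
    rw [abs_det_zpow B hB, ← Complex.ofReal_mul, ← Real.rpow_add hpos, add_halves]
  have e5 : _root_.Wav.per (pp_F B g S j) η = ((|B.det| ^ ((j : ℝ) / 2) : ℝ) : ℂ) *
      ∑' p : Fin n → ℤ, pp_f S ((B ^ j) *ᵥ η + (B ^ j) *ᵥ zv p) *
        conj (g ((B ^ (-j)) *ᵥ ((B ^ j) *ᵥ η + (B ^ j) *ᵥ zv p))) := by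
    unfold _root_.Wav.per
    rw [← tsum_mul_left]
    refine tsum_congr fun p => ?_
    simp only [pp_F]
    rw [← Matrix.mulVec_add, zpow_mulVec_neg B hB, ← zv_eq]
    ring
  simp only [hKf]
  rw [e5, Complex.real_smul, e4, zpow_mulVec_neg B hB]
  simp only [pp_F, map_mul, Complex.conj_conj, Complex.conj_ofReal, pp_f_conj]
  ring

end Pool.Agent.Helper56.WV
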