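import Pool.Agent.Helper56.WV.St
import Pool.Agent.Helper79.Wav.Lat
import Pool.Agent.Helper30.CovPoisson

/-!
# Project WV: module PZ (Poisson summation with vanishing coefficients), by helper90
-/

set_option autoImplicit false

open MeasureTheory TopologicalSpace
open scoped FourierTransform RealInnerProductSpace Matrix ComplexConjugate

noncomputable section

namespace Pool.Agent.Helper56.WV

open Wav

private lemma PZ_ze {n : ℕ} (k : Fin n → ℤ) :
    (Pool.Agent.Helper30.Cov.ze k : E n) = ivec k := rfl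

private lemma PZ_shift {n : ℕ} (N R : ℝ) (hN : 0 < N) (y m : E n) (hy : ‖y‖ ≤ R) :
    (1 + ‖y + m‖) ^ (-N) ≤ (1 + R) ^ N * (1 + ‖m‖) ^ (-N) := by
  have hR : 0 ≤ R := (norm_nonneg y).trans hy
  have h1 : ‖m‖ ≤ ‖y + m‖ + R := by
    have h2 : m = (y + m) - y := by abel
    calc ‖m‖ = ‖(y + m) - y‖ := by rw [← h2]
      _ ≤ ‖y + m‖ + ‖y‖ := norm_sub_le _ _
      _ ≤ _ := by linarith
  have h3 : 1 + ‖m‖ ≤ (1 + R) * (1 + ‖y + m‖) := by
    have := mul_nonneg hR (norm_nonneg (y + m))
    nlinarith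
  have hm : 0 < 1 + ‖m‖ := by positivity
  have hym : 0 < 1 + ‖y + m‖ := by positivity
  have h4 : (1 + ‖m‖) ^ N ≤ (1 + R) ^ N * (1 + ‖y + m‖) ^ N := by
    rw [← Real.mul_rpow (by positivity) hym.le]
    exact Real.rpow_le_rpow hm.le h3 hN.le
  rw [Real.rpow_neg hym.le, Real.rpow_neg hm.le, ← div_eq_mul_inv,
    le_div_iff₀ (Real.rpow_pos_of_pos hm N), inv_mul_eq_div,
    div_le_iff₀ (Real.rpow_pos_of_pos hym N)]
  exact h4

theorem p_PZ : St_PZ := by
  intro n N K G c hN hG hb hF ξ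
  have hN0 : 0 < N := lt_of_le_of_lt (Nat.cast_nonneg n) hN
  have hK : 0 ≤ K := by
    have h := (norm_nonneg _).trans (hb 0)
    rw [norm_zero, add_zero, Real.one_rpow, mul_one] at h
    exact h
  let f : C(Fin n → ℝ, ℂ) :=
    ⟨fun x => G (WithLp.toLp 2 x), hG.comp (PiLp.continuous_toLp 2 _)⟩
  have hf : ∀ x, f x = G (WithLp.toLp 2 x) := fun x => rfl
  obtain ⟨C, hC⟩ := lattice_sum n N hN
  have hs0 : Summable fun k : Fin n → ℤ => (1 + ‖(ivec k : E n)‖) ^ (-N) := by
    have := (hC 0).1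
    simpa using this
  have htolp : ∀ (y : Fin n → ℝ) (m : Fin n → ℤ),
      (WithLp.toLp 2 (y + Pool.Agent.Helper30.Cov.zr m) : E n) = WithLp.toLp 2 y + ivec m := by
    intro y m; rfl
  have hloc : ∀ Kc : Compacts (Fin n → ℝ),
      Summable fun m : Fin n → ℤ =>
        ‖(f.comp (ContinuousMap.addRight (Pool.Agent.Helper30.Cov.zr m))).restrict Kc‖ := by
    intro Kc
    obtain ⟨R, hR⟩ : ∃ R : ℝ, ∀ y ∈ (Kc : Set (Fin n → ℝ)), ‖(WithLp.toLp 2 y : E n)‖ ≤ R := by
      have hcont : Continuous (fun y : Fin n → ℝ => (WithLp.toLp 2 y : E n)) :=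
        PiLp.continuous_toLp 2 _
      exact Kc.isCompact.exists_bound_of_continuousOn hcont.continuousOn
    refine Summable.of_nonneg_of_le (fun m => norm_nonneg _) (fun m => ?_)
      (hs0.mul_left (K * (1 + max R 0) ^ N))
    have hR0 : 0 ≤ max R 0 := le_max_right _ _
    rw [ContinuousMap.norm_le _ (by positivity)]
    rintro ⟨y, hy⟩
    have h1 : ((f.comp (ContinuousMap.addRight (Pool.Agent.Helper30.Cov.zr m))).restrict
        (Kc : Set (Fin n → ℝ))) ⟨y, hy⟩ = G (WithLp.toLp 2 y + ivec m) := rfl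
    rw [h1]
    refine (hb _).trans ?_
    rw [mul_assoc]
    exact mul_le_mul_of_nonneg_left
      (PZ_shift N (max R 0) hN0 _ _ ((hR y hy).trans (le_max_left _ _))) hK
  have hGint : Integrable G := by
    have h1 : Integrable (fun x : E n => K * (1 + ‖x‖) ^ (-N)) :=
      (integrable_one_add_norm (by rw [finrank_euclideanSpace_fin]; exact hN)).const_mul K
    exact h1.mono' hG.aestronglyMeasurable (Filter.Eventually.of_forall hb)
  have hint : Integrable f :=
    ((PiLp.volume_preserving_toLp (Fin n)).integrable_comp_emb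
        (MeasurableEquiv.toLp 2 (Fin n → ℝ)).measurableEmbedding).2 hGint
  have hcoef : ∀ w : Fin n → ℤ,
      ∫ x, UnitAddTorus.mFourier (-w) (Pool.Agent.Helper30.Cov.tq x) * f x
        = if w = 0 then c else 0 := by
    intro w
    have h1 : ∫ x, UnitAddTorus.mFourier (-w) (Pool.Agent.Helper30.Cov.tq x) * f x
        = ∫ x : Fin n → ℝ, (fun η : E n => G η * ee ⟪ivec (-w), η⟫) (WithLp.toLp 2 x) := by
      refine integral_congr_ae (Filter.Eventually.of_forall fun x => ?_)
      simp only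
      rw [Pool.Agent.Helper30.Cov.mFourier_tq, hf, mul_comm, PZ_ze, ee]
    have h2 := (PiLp.volume_preserving_toLp (Fin n)).integral_comp
        (MeasurableEquiv.toLp 2 (Fin n → ℝ)).measurableEmbedding
        (fun η : E n => G η * ee ⟪ivec (-w), η⟫)
    rw [h1]
    refine h2.trans ?_
    rw [hF (-w)]
    by_cases hw : w = 0
    · rw [if_pos hw, if_pos (by rw [hw, neg_zero])]
    · rw [if_neg hw, if_neg (fun h => hw (neg_eq_zero.mp h))]
  have hsum : Summable fun w : Fin n → ℤ =>
      ∫ x, UnitAddTorus.mFourier (-w) (Pool.Agent.Helper30.Cov.tq x) * f x := by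
    simp_rw [hcoef]
    exact summable_of_ne_finset_zero (s := {0}) fun w hw => if_neg (by simpa using hw)
  have hP := Pool.Agent.Helper30.Cov.poisson f hloc hint hsum (WithLp.ofLp ξ)
  simp_rw [hcoef] at hP
  have h3 : HasSum (fun w : Fin n → ℤ => (if w = 0 then c else 0) *
      UnitAddTorus.mFourier w (Pool.Agent.Helper30.Cov.tq (WithLp.ofLp ξ))) c := by
    have h4 := hasSum_single (f := fun w : Fin n → ℤ => (if w = 0 then c else 0) *
      UnitAddTorus.mFourier w (Pool.Agent.Helper30.Cov.tq (WithLp.ofLp ξ))) 0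
      (fun w hw => by simp only [if_neg hw, zero_mul])
    have h5 : UnitAddTorus.mFourier (0 : Fin n → ℤ)
        (Pool.Agent.Helper30.Cov.tq (WithLp.ofLp ξ)) = 1 := by
      rw [UnitAddTorus.mFourier_zero]; rfl
    simp only [if_true, h5, mul_one] at h4
    exact h4
  have h6 := hP.unique h3
  rw [← h6]
  rfl

end Pool.Agent.Helper56.WV
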