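import Pool.Agent.Helper56.WV.St

/-!
# Project WV (MP_d629b1_an): module R2, lattices in the plane
-/

set_option autoImplicit false

open MeasureTheory
open scoped FourierTransform RealInnerProductSpace Matrix ComplexConjugate

noncomputable section

namespace Pool.Agent.Helper56.WV

open Wav

theorem p_R2 (hRR : St_RR) : St_R2 := by
  rintro A hA hnr a b c hab hac hbc ⟨v, hv0, hva, hvb, hvc⟩ u hua hub
  obtain ⟨d, hd0, hd⟩ := hRR 2 A hA hnr a b hab
  have hdu := hd u hua hub
  have hdv := hd v hva hvb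
  simp only [PiLp.inner_apply, Fin.sum_univ_two, RCLike.inner_apply, conj_trivial] at hdu hdv
  obtain ⟨p, hp⟩ := mem_Gam'.1 hua
  obtain ⟨q, hq⟩ := mem_Gam'.1 hva
  set M := Aᵀ ^ a with hM
  have hdet : M.det ≠ 0 := by
    have h1 : IsUnit (Aᵀ).det := by
      rw [Matrix.det_transpose]
      exact isUnit_iff_ne_zero.2 (expansive_det hA)
    exact (Matrix.isUnit_det_zpow_iff.2 (Or.inl h1)).ne_zero
  -- the cross product vanishes
  have hcross : u.ofLp 0 * v.ofLp 1 - u.ofLp 1 * v.ofLp 0 = 0 := by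
    by_contra hne
    have h0 : d.ofLp 0 = 0 := by
      have : d.ofLp 0 * (u.ofLp 0 * v.ofLp 1 - u.ofLp 1 * v.ofLp 0) = 0 := by
        linear_combination v.ofLp 1 * hdu - u.ofLp 1 * hdv
      exact (mul_eq_zero.1 this).resolve_right hne
    have h1 : d.ofLp 1 = 0 := by
      have : d.ofLp 1 * (u.ofLp 0 * v.ofLp 1 - u.ofLp 1 * v.ofLp 0) = 0 := by
        linear_combination u.ofLp 0 * hdv - v.ofLp 0 * hdu
      exact (mul_eq_zero.1 this).resolve_right hne
    apply hd0
    ext i
    fin_cases i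
    · exact h0
    · exact h1
  have hu : ∀ i, u.ofLp i = M i 0 * p 0 + M i 1 * p 1 := by
    intro i
    rw [← hp]
    fin_cases i <;> simp [act, ivec]
  have hv : ∀ i, v.ofLp i = M i 0 * q 0 + M i 1 * q 1 := by
    intro i
    rw [← hq]
    fin_cases i <;> simp [act, ivec]
  have hz : (p 0 : ℝ) * q 1 - p 1 * q 0 = 0 := by
    have h1 : M.det * ((p 0 : ℝ) * q 1 - p 1 * q 0) = 0 := by
      rw [Matrix.det_fin_two]
      rw [hu 0, hu 1, hv 0, hv 1] at hcross
      linear_combination hcross
    exact (mul_eq_zero.1 h1).resolve_left hdet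
  have hex : ∃ i, q i ≠ 0 := by
    by_contra hcon
    push Not at hcon
    apply hv0
    ext i
    rw [hv i, hcon 0, hcon 1]
    simp
  obtain ⟨i, hi⟩ := hex
  have hrel : q i • u = p i • v := by
    ext j
    simp only [PiLp.smul_apply, zsmul_eq_mul]
    rw [hu j, hv j]
    fin_cases i
    · simp only [Fin.zero_eta]
      linear_combination (-(M j 1)) * hz
    · simp only [Fin.mk_one]
      linear_combination (M j 0) * hz
  have hmem : q i • u ∈ Gam A c := by
    rw [hrel]
    exact (Gam A c).zsmul_mem hvc _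
  refine ⟨(q i).natAbs, Int.natAbs_pos.2 hi, ?_⟩
  have h2 : ((q i).natAbs : ℤ) • u ∈ Gam A c := by
    rcases Int.natAbs_eq (q i) with h | h
    · rw [← h]; exact hmem
    · have h3 : ((q i).natAbs : ℤ) = - q i := by omega
      rw [h3, neg_smul]
      exact (Gam A c).neg_mem hmem
  rwa [natCast_zsmul] at h2

end Pool.Agent.Helper56.WV
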