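import Pool.Agent.Helper56.WV.St

/-!
# Project WV (MP_d629b1_an): module RR

If the common vectors of two of the lattices span, a power of `A` is rational.
-/

set_option autoImplicit false

open MeasureTheory
open scoped FourierTransform RealInnerProductSpace Matrix ComplexConjugate

noncomputable section

namespace Pool.Agent.Helper56.WV

open Wav

theorem RR_span {n : ℕ} {A : Matrix (Fin n) (Fin n) ℝ} {i j : ℤ}
    (h : ¬ ∃ d : E n, d ≠ 0 ∧ ∀ γ : E n, γ ∈ Gam A i → γ ∈ Gam A j → ⟪d, γ⟫ = 0) :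
    ∃ v : Fin n → E n, (∀ k, v k ∈ Gam A i ∧ v k ∈ Gam A j) ∧ LinearIndependent ℝ v := by
  set S : Set (E n) := {γ | γ ∈ Gam A i ∧ γ ∈ Gam A j} with hS
  have hspan : Submodule.span ℝ S = ⊤ := by
    by_contra hne
    have h1 : (Submodule.span ℝ S)ᗮ ≠ ⊥ := by
      intro h0
      exact hne ((Submodule.orthogonal_eq_bot_iff).1 h0)
    obtain ⟨d, hd, hd0⟩ := Submodule.exists_mem_ne_zero_of_ne_bot h1
    refine h ⟨d, hd0, fun γ h1 h2 => ?_⟩
    rw [Submodule.mem_orthogonal'] at hd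
    exact hd γ (Submodule.subset_span ⟨h1, h2⟩)
  obtain ⟨f, hf1, -, hf3⟩ := Submodule.exists_fun_fin_finrank_span_eq ℝ S
  have hn : Module.finrank ℝ (Submodule.span ℝ S) = n := by
    rw [hspan, finrank_top, finrank_euclideanSpace_fin]
  refine ⟨f ∘ Fin.cast hn.symm, fun k => hf1 _, ?_⟩
  exact hf3.comp _ (Fin.cast_injective _)

theorem RR_aux {n : ℕ} {A : Matrix (Fin n) (Fin n) ℝ} (hA : A.det ≠ 0) {i j : ℤ} (hij : i < j)
    {v : Fin n → E n} (hv : ∀ k, v k ∈ Gam A i ∧ v k ∈ Gam A j) (hli : LinearIndependent ℝ v) :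
    Pool.Agent.Helper54.WavS.HasRationalPower A := by
  choose p hp using fun k => mem_Gam'.1 (hv k).1
  choose q hq using fun k => mem_Gam'.1 (hv k).2
  have hAt : Aᵀ.det ≠ 0 := by rw [Matrix.det_transpose]; exact hA
  have hu : IsUnit Aᵀ.det := isUnit_iff_ne_zero.2 hAt
  set V : Matrix (Fin n) (Fin n) ℝ := Matrix.of fun a k => (v k) a with hV
  set P0 : Matrix (Fin n) (Fin n) ℚ := Matrix.of fun a k => (p k a : ℚ) with hP0
  set Q0 : Matrix (Fin n) (Fin n) ℚ := Matrix.of fun a k => (q k a : ℚ) with hQ0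
  set P : Matrix (Fin n) (Fin n) ℝ := P0.map (algebraMap ℚ ℝ) with hP
  set Q : Matrix (Fin n) (Fin n) ℝ := Q0.map (algebraMap ℚ ℝ) with hQ
  have h1 : V = Aᵀ ^ i * P := by
    ext a k
    have : v k = act (Aᵀ ^ i) (ivec (p k)) := (hp k).symm
    rw [hV, Matrix.of_apply, this]
    simp [act, ivec, Matrix.mul_apply, Matrix.mulVec, dotProduct, hP, hP0]
  have h2 : V = Aᵀ ^ j * Q := by
    ext a k
    have : v k = act (Aᵀ ^ j) (ivec (q k)) := (hq k).symm
    rw [hV, Matrix.of_apply, this]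
    simp [act, ivec, Matrix.mul_apply, Matrix.mulVec, dotProduct, hQ, hQ0]
  have hVdet : V.det ≠ 0 := by
    have h3 : LinearIndependent ℝ (fun k => (v k).ofLp) := by
      have := hli.map' (WithLp.linearEquiv 2 ℝ (Fin n → ℝ)).toLinearMap
        (LinearMap.ker_eq_bot.2 (WithLp.linearEquiv 2 ℝ (Fin n → ℝ)).injective)
      exact this
    have h4 : LinearIndependent ℝ (Vᵀ).row := h3
    have h5 : IsUnit Vᵀ := (Matrix.linearIndependent_rows_iff_isUnit).1 h4
    have h6 := (Matrix.isUnit_iff_isUnit_det _).1 h5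
    rw [Matrix.det_transpose] at h6
    exact h6.ne_zero
  have hQdet : Q.det ≠ 0 := by
    intro h0
    apply hVdet
    rw [h2, Matrix.det_mul, h0, mul_zero]
  have hQ0det : Q0.det ≠ 0 := by
    intro h0
    apply hQdet
    have : Q.det = algebraMap ℚ ℝ Q0.det := (RingHom.map_det (algebraMap ℚ ℝ) Q0).symm
    rw [this, h0, map_zero]
  have h3 : P = Aᵀ ^ (j - i) * Q := by
    have h4 : Aᵀ ^ i * P = Aᵀ ^ i * (Aᵀ ^ (j - i) * Q) := by
      rw [← Matrix.mul_assoc, ← Matrix.zpow_add hu, ← h1, h2]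
      congr 2
      ring
    have h5 : IsUnit (Aᵀ ^ i) := by
      rw [Matrix.isUnit_iff_isUnit_det]
      exact hu.det_zpow i
    exact h5.mul_left_cancel h4
  obtain ⟨m, hm⟩ : ∃ m : ℕ, j - i = m := ⟨(j - i).toNat, by omega⟩
  have hm0 : 0 < m := by omega
  refine ⟨m, (P0 * Q0⁻¹)ᵀ, hm0, ?_⟩
  have h4 : Aᵀ ^ m = (P0 * Q0⁻¹).map (algebraMap ℚ ℝ) := by
    have h5 : Aᵀ ^ m * Q = (P0 * Q0⁻¹).map (algebraMap ℚ ℝ) * Q := by
      have h6 : (P0 * Q0⁻¹).map (algebraMap ℚ ℝ) * Q = P := by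
        rw [hQ, ← Matrix.map_mul, Matrix.mul_assoc, Matrix.nonsing_inv_mul _
          (isUnit_iff_ne_zero.2 hQ0det), Matrix.mul_one]
      rw [h6, h3, hm, zpow_natCast]
    have h7 : IsUnit Q := by
      rw [Matrix.isUnit_iff_isUnit_det]
      exact isUnit_iff_ne_zero.2 hQdet
    exact h7.mul_right_cancel h5
  have h5 := congrArg Matrix.transpose h4
  rw [Matrix.transpose_pow, Matrix.transpose_transpose] at h5
  rw [h5]
  rfl

theorem p_RR : St_RR := by
  intro n A hA hR i j hij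
  by_contra h
  have hdet : A.det ≠ 0 := Wav.expansive_det hA
  obtain ⟨v, hv, hli⟩ := RR_span h
  rcases lt_or_gt_of_ne hij with hlt | hlt
  · exact hR (RR_aux hdet hlt hv hli)
  · exact hR (RR_aux hdet hlt (fun k => ⟨(hv k).2, (hv k).1⟩) hli)

end Pool.Agent.Helper56.WV
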