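import Pool.Agent.Helper56.WV.St
import Pool.Agent.Helper40.Wav.NH

/-!
# Project WV, module SB: uniform bound for the sum over the scales
-/

set_option autoImplicit false

open MeasureTheory
open scoped FourierTransform RealInnerProductSpace Matrix ComplexConjugate

noncomputable section

namespace Pool.Agent.Helper56.WV

open Wav

/-- A two-sided geometric bound. -/
theorem SB_sum {f : ℤ → ℝ} (h0 : ∀ j, 0 ≤ f j) {a b r s : ℝ} (hr0 : 0 ≤ r) (hr1 : r < 1)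
    (hs0 : 0 ≤ s) (hs1 : s < 1) (j0 : ℤ)
    (h1 : ∀ m : ℕ, f (j0 + 1 + m) ≤ a * r ^ m) (h2 : ∀ m : ℕ, f (j0 - m) ≤ b * s ^ m) :
    Summable f ∧ ∑' j, f j ≤ a * (1 - r)⁻¹ + b * (1 - s)⁻¹ := by
  have g1 := (summable_geometric_of_lt_one hr0 hr1).mul_left a
  have g2 := (summable_geometric_of_lt_one hs0 hs1).mul_left b
  have s1 : Summable fun m : ℕ => f (j0 + 1 + m) := Summable.of_nonneg_of_le (fun m => h0 _) h1 g1
  have s2 : Summable fun m : ℕ => f (j0 - m) := Summable.of_nonneg_of_le (fun m => h0 _) h2 g2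
  set g : ℤ → ℝ := fun k => f (k + (j0 + 1)) with hg
  have s1' : HasSum (fun m : ℕ => g m) (∑' m : ℕ, f (j0 + 1 + m)) := by
    have : (fun m : ℕ => g m) = fun m : ℕ => f (j0 + 1 + m) := by
      funext m
      simp only [hg]
      rw [add_comm]
    rw [this]
    exact s1.hasSum
  have s2' : HasSum (fun m : ℕ => g (-((m : ℤ) + 1))) (∑' m : ℕ, f (j0 - m)) := by
    have : (fun m : ℕ => g (-((m : ℤ) + 1))) = fun m : ℕ => f (j0 - m) := by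
      funext m
      simp only [hg]
      congr 1
      ring
    rw [this]
    exact s2.hasSum
  have s3 := HasSum.of_nat_of_neg_add_one s1' s2'
  have e : g = f ∘ (Equiv.addRight (j0 + 1)) := rfl
  have s4 : HasSum f (∑' m : ℕ, f (j0 + 1 + m) + ∑' m : ℕ, f (j0 - m)) := by
    rw [e] at s3
    exact (Equiv.hasSum_iff (Equiv.addRight (j0 + 1))).1 s3
  refine ⟨s4.summable, ?_⟩
  rw [s4.tsum_eq]
  have t1 := s1.tsum_le_tsum h1 g1
  have t2 := s2.tsum_le_tsum h2 g2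
  rw [tsum_mul_left, tsum_geometric_of_lt_one hr0 hr1] at t1
  rw [tsum_mul_left, tsum_geometric_of_lt_one hs0 hs1] at t2
  linarith

theorem p_SB (hI0 : St_I0) : St_SB := by
  intro n L A Ψ N hW
  obtain ⟨C, ρ, hC, hρ, hpos⟩ := growth_pos hW.exp
  obtain ⟨c, ρ', hc, hρ', hneg⟩ := growth_neg hW.exp 0
  obtain ⟨K, hK, hKb⟩ := hW.bound
  obtain ⟨D, hD, hDb⟩ := hW.dbound
  have hN1 : 1 ≤ N := by
    have := hW.hN
    have h1 : (0 : ℝ) ≤ n := Nat.cast_nonneg n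
    linarith
  have hρ0 : 0 < ρ := by linarith
  have hρ'0 : 0 < ρ' := by linarith
  have hr0 : 0 ≤ ρ⁻¹ := by positivity
  have hr1 : ρ⁻¹ < 1 := inv_lt_one_of_one_lt₀ hρ
  have hs0 : 0 ≤ ρ'⁻¹ := by positivity
  have hs1 : ρ'⁻¹ < 1 := inv_lt_one_of_one_lt₀ hρ'
  have hR : 0 < (1 - ρ⁻¹)⁻¹ := inv_pos.2 (by linarith)
  have hS : 0 < (1 - ρ'⁻¹)⁻¹ := inv_pos.2 (by linarith)
  have hdet : Aᵀ.det ≠ 0 := expansive_det (expansive_transpose hW.exp)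
  have hadd : ∀ (i j : ℤ) (x : E n), act (Aᵀ ^ (i + j)) x = act (Aᵀ ^ i) (act (Aᵀ ^ j) x) := by
    intro i j x
    rw [Matrix.zpow_add (isUnit_iff_ne_zero.2 hdet), act_mul]
  refine ⟨D * C * (1 - ρ⁻¹)⁻¹ + K / c * (1 - ρ'⁻¹)⁻¹, by positivity, ?_⟩
  intro l ξ
  rcases eq_or_ne ξ 0 with rfl | hξ
  · have hz : (fun j : ℤ => ‖sc A Ψ j l 0‖) = fun _ => 0 := by
      funext j
      have : sc A Ψ j l 0 = Ψ l (act (Aᵀ ^ (-j)) 0) := rfl
      rw [this, act_zero, hI0 n L A Ψ N hW l, norm_zero]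
    rw [hz]
    refine ⟨summable_zero, ?_⟩
    rw [tsum_zero]
    positivity
  have hξ0 : 0 < ‖ξ‖ := norm_pos_iff.2 hξ
  -- the largest scale with `|B^(-j) ξ| ≥ 1`
  have hbdd : ∃ b : ℤ, ∀ z : ℤ, 1 ≤ ‖act (Aᵀ ^ (-z)) ξ‖ → z ≤ b := by
    obtain ⟨M, hM⟩ := pow_unbounded_of_one_lt (C * ‖ξ‖) hρ
    refine ⟨M, fun z hz => ?_⟩
    by_contra hcon
    push Not at hcon
    obtain ⟨m, rfl⟩ := Int.eq_ofNat_of_zero_le (show (0 : ℤ) ≤ z by omega)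
    have h1 := hz.trans (hpos m (by omega) ξ)
    rw [zpow_neg, zpow_natCast] at h1
    have h2 : ρ ^ M ≤ ρ ^ m := pow_le_pow_right₀ hρ.le (by omega)
    have h3 : 0 < ρ ^ m := by positivity
    have h4 : ρ ^ m ≤ C * ‖ξ‖ := by
      have := mul_le_mul_of_nonneg_right h1 h3.le
      rw [one_mul] at this
      calc ρ ^ m ≤ C * (ρ ^ m)⁻¹ * ‖ξ‖ * ρ ^ m := this
        _ = C * ‖ξ‖ := by field_simp
    linarith
  have hex : ∃ z : ℤ, 1 ≤ ‖act (Aᵀ ^ (-z)) ξ‖ := by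
    obtain ⟨M, hM⟩ := pow_unbounded_of_one_lt (1 / (c * ‖ξ‖)) hρ'
    refine ⟨-(M : ℤ), ?_⟩
    have h1 := hneg (-(M : ℤ)) (by omega) ξ
    rw [neg_neg, zpow_natCast] at h1
    rw [neg_neg]
    refine le_trans ?_ h1
    rw [div_lt_iff₀ (by positivity)] at hM
    calc (1 : ℝ) ≤ ρ' ^ M * (c * ‖ξ‖) := hM.le
      _ = c * ρ' ^ M * ‖ξ‖ := by ring
  obtain ⟨j0, hj0, hmax⟩ := Int.exists_greatest_of_bdd hbdd hex
  have hnext : ‖act (Aᵀ ^ (-(j0 + 1))) ξ‖ ≤ 1 := by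
    by_contra hcon
    push Not at hcon
    have := hmax (j0 + 1) hcon.le
    omega
  refine SB_sum (fun j => norm_nonneg _) hr0 hr1 hs0 hs1 j0 ?_ ?_
  · intro m
    have e1 : act (Aᵀ ^ (-(j0 + 1 + m))) ξ = act (Aᵀ ^ (-(m : ℤ))) (act (Aᵀ ^ (-(j0 + 1))) ξ) := by
      rw [← hadd]
      congr 2
      ring
    set y : E n := act (Aᵀ ^ (-(j0 + 1 + m))) ξ with hy
    have h1 := hpos m (by omega) (act (Aᵀ ^ (-(j0 + 1))) ξ)
    rw [← e1, zpow_neg, zpow_natCast] at h1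
    have h2 : ‖Ψ l y‖ ≤ D * ‖y‖ := by
      have h3 := Convex.norm_image_sub_le_of_norm_fderiv_le (𝕜 := ℝ) (f := Ψ l) (C := D)
        (s := Set.univ) (x := 0) (y := y)
        (fun x _ => ((hW.smooth l).differentiable one_ne_zero) x)
        (fun x _ => hDb l x) convex_univ (Set.mem_univ _) (Set.mem_univ _)
      rw [hI0 n L A Ψ N hW l, sub_zero, sub_zero] at h3
      exact h3
    have h3 : ‖y‖ ≤ C * (ρ ^ m)⁻¹ := by
      refine h1.trans ?_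
      have : 0 ≤ C * (ρ ^ m)⁻¹ := by positivity
      calc C * (ρ ^ m)⁻¹ * ‖act (Aᵀ ^ (-(j0 + 1))) ξ‖ ≤ C * (ρ ^ m)⁻¹ * 1 :=
            mul_le_mul_of_nonneg_left hnext this
        _ = _ := mul_one _
    change ‖Ψ l y‖ ≤ _
    calc ‖Ψ l y‖ ≤ D * ‖y‖ := h2
      _ ≤ D * (C * (ρ ^ m)⁻¹) := mul_le_mul_of_nonneg_left h3 hD.le
      _ = D * C * ρ⁻¹ ^ m := by rw [inv_pow]; ring
  · intro m
    have e1 : act (Aᵀ ^ (-(j0 - m))) ξ = act (Aᵀ ^ (-(-(m : ℤ)))) (act (Aᵀ ^ (-j0)) ξ) := by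
      rw [← hadd]
      congr 2
      ring
    set y : E n := act (Aᵀ ^ (-(j0 - m))) ξ with hy
    have h1 := hneg (-(m : ℤ)) (by omega) (act (Aᵀ ^ (-j0)) ξ)
    rw [← e1, neg_neg, zpow_natCast] at h1
    have hlow : c * ρ' ^ m ≤ ‖y‖ := by
      refine le_trans ?_ h1
      have : 0 ≤ c * ρ' ^ m := by positivity
      calc c * ρ' ^ m = c * ρ' ^ m * 1 := (mul_one _).symm
        _ ≤ c * ρ' ^ m * ‖act (Aᵀ ^ (-j0)) ξ‖ := mul_le_mul_of_nonneg_left hj0 this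
    have hlow0 : 0 < c * ρ' ^ m := by positivity
    have h2 : (1 + ‖y‖) ^ (-N) ≤ (c * ρ' ^ m)⁻¹ := by
      have hy0 : 0 ≤ ‖y‖ := norm_nonneg y
      calc (1 + ‖y‖) ^ (-N) ≤ (1 + ‖y‖) ^ (-1 : ℝ) :=
            Real.rpow_le_rpow_of_exponent_le (by linarith) (by linarith)
        _ = (1 + ‖y‖)⁻¹ := by rw [Real.rpow_neg_one]
        _ ≤ (c * ρ' ^ m)⁻¹ := by
            apply inv_anti₀ hlow0
            linarith
    change ‖Ψ l y‖ ≤ _
    calc ‖Ψ l y‖ ≤ K * (1 + ‖y‖) ^ (-N) := hKb l y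
      _ ≤ K * (c * ρ' ^ m)⁻¹ := mul_le_mul_of_nonneg_left h2 hK.le
      _ = K / c * ρ'⁻¹ ^ m := by rw [mul_inv, inv_pow]; ring

end Pool.Agent.Helper56.WV
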