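import Pool.Agent.Helper56.WV.St
import Pool.Agent.Helper40.Wav.NH

/-!
# Project WV, module SU: locally uniform summability over the scales away from the origin
-/

set_option autoImplicit false

open MeasureTheory
open scoped FourierTransform RealInnerProductSpace Matrix ComplexConjugate

noncomputable section

namespace Pool.Agent.Helper56.WV

open Wav

theorem SU_summable {r : ℝ} (h0 : 0 ≤ r) (h1 : r < 1) : Summable fun j : ℤ => r ^ j.natAbs := by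
  have h := summable_geometric_of_lt_one h0 h1
  refine Summable.of_nat_of_neg (f := fun j : ℤ => r ^ j.natAbs) ?_ ?_
  · simpa using h
  · simpa using h

theorem p_SU (hI0 : St_I0) : St_SU := by
  intro n L A Ψ N hW ξ hξ
  obtain ⟨C, ρ, hC, hρ, hpos⟩ := growth_pos hW.exp
  obtain ⟨c, ρ', hc, hρ', hneg⟩ := growth_neg hW.exp 0
  obtain ⟨K, hK, hKb⟩ := hW.bound
  obtain ⟨D, hD, hDb⟩ := hW.dbound
  have hN1 : 1 ≤ N := by
    have := hW.hN
    have h1 : (0 : ℝ) ≤ n := Nat.cast_nonneg n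
    linarith
  have hξ0 : 0 < ‖ξ‖ := norm_pos_iff.2 hξ
  have hρ0 : 0 < ρ := by linarith
  have hρ'0 : 0 < ρ' := by linarith
  set r : ℝ := max ρ⁻¹ ρ'⁻¹ with hr
  have hr0 : 0 < r := lt_max_of_lt_left (inv_pos.2 hρ0)
  have hr1 : r < 1 := max_lt (inv_lt_one_of_one_lt₀ hρ) (inv_lt_one_of_one_lt₀ hρ')
  set M : ℝ := max (D * (C * (2 * ‖ξ‖))) (K / (c * (‖ξ‖ / 2))) with hM
  have hM0 : 0 ≤ M := le_max_of_le_left (by positivity)
  refine ⟨‖ξ‖ / 2, by positivity, fun j => M * r ^ j.natAbs, (SU_summable hr0.le hr1).mul_left M, ?_⟩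
  intro j l ζ hζ
  rw [Metric.mem_ball, dist_eq_norm] at hζ
  have hlo : ‖ξ‖ / 2 ≤ ‖ζ‖ := by
    have := norm_sub_norm_le ξ ζ
    rw [norm_sub_rev] at this
    linarith
  have hhi : ‖ζ‖ ≤ 2 * ‖ξ‖ := by
    have := norm_sub_norm_le ζ ξ
    linarith
  have hsc : sc A Ψ j l ζ = Ψ l (act (Aᵀ ^ (-j)) ζ) := rfl
  rw [hsc]
  set y : E n := act (Aᵀ ^ (-j)) ζ with hy
  rcases le_or_gt 0 j with hj | hj
  · have h1 := hpos j hj ζ
    have h2 : ‖Ψ l y‖ ≤ D * ‖y‖ := by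
      have h3 := Convex.norm_image_sub_le_of_norm_fderiv_le (𝕜 := ℝ) (f := Ψ l) (C := D)
        (s := Set.univ) (x := 0) (y := y)
        (fun x _ => ((hW.smooth l).differentiable one_ne_zero) x)
        (fun x _ => hDb l x) convex_univ (Set.mem_univ _) (Set.mem_univ _)
      rw [hI0 n L A Ψ N hW l, sub_zero, sub_zero] at h3
      exact h3
    obtain ⟨m, rfl⟩ := Int.eq_ofNat_of_zero_le hj
    have h4 : ρ ^ (-(m : ℤ)) ≤ r ^ m := by
      rw [zpow_neg, zpow_natCast, ← inv_pow]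
      exact pow_le_pow_left₀ (inv_nonneg.2 hρ0.le) (le_max_left _ _) m
    have h5 : ‖y‖ ≤ C * r ^ m * (2 * ‖ξ‖) := by
      refine h1.trans ?_
      refine mul_le_mul (mul_le_mul_of_nonneg_left h4 hC.le) hhi (norm_nonneg _) (by positivity)
    calc ‖Ψ l y‖ ≤ D * ‖y‖ := h2
      _ ≤ D * (C * r ^ m * (2 * ‖ξ‖)) := mul_le_mul_of_nonneg_left h5 hD.le
      _ = (D * (C * (2 * ‖ξ‖))) * r ^ m := by ring
      _ ≤ M * r ^ m := mul_le_mul_of_nonneg_right (le_max_left _ _) (by positivity)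
      _ = M * r ^ ((m : ℤ)).natAbs := by simp
  · have h1 := hneg j hj.le ζ
    obtain ⟨m, hm⟩ := Int.eq_ofNat_of_zero_le (neg_nonneg.2 hj.le)
    have hna : j.natAbs = m := by omega
    have hzp : ρ' ^ (-j) = ρ' ^ m := by rw [hm, zpow_natCast]
    rw [hzp] at h1
    change _ ≤ M * r ^ j.natAbs
    rw [hna]
    have hlow : c * (‖ξ‖ / 2) * ρ' ^ m ≤ ‖y‖ := by
      refine le_trans ?_ h1
      have := mul_le_mul_of_nonneg_left hlo (by positivity : 0 ≤ c * ρ' ^ m)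
      calc c * (‖ξ‖ / 2) * ρ' ^ m = c * ρ' ^ m * (‖ξ‖ / 2) := by ring
        _ ≤ _ := this
    have hlow0 : 0 < c * (‖ξ‖ / 2) * ρ' ^ m := by positivity
    have hy0 : 0 < ‖y‖ := lt_of_lt_of_le hlow0 hlow
    have h2 : (1 + ‖y‖) ^ (-N) ≤ (c * (‖ξ‖ / 2) * ρ' ^ m)⁻¹ := by
      calc (1 + ‖y‖) ^ (-N) ≤ (1 + ‖y‖) ^ (-1 : ℝ) :=
            Real.rpow_le_rpow_of_exponent_le (by linarith) (by linarith)
        _ = (1 + ‖y‖)⁻¹ := by rw [Real.rpow_neg_one]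
        _ ≤ (c * (‖ξ‖ / 2) * ρ' ^ m)⁻¹ := by
            apply inv_anti₀ hlow0
            linarith
    have h4 : (ρ' ^ m)⁻¹ ≤ r ^ m := by
      rw [← inv_pow]
      exact pow_le_pow_left₀ (inv_nonneg.2 hρ'0.le) (le_max_right _ _) m
    calc ‖Ψ l y‖ ≤ K * (1 + ‖y‖) ^ (-N) := hKb l y
      _ ≤ K * (c * (‖ξ‖ / 2) * ρ' ^ m)⁻¹ := mul_le_mul_of_nonneg_left h2 hK.le
      _ = K / (c * (‖ξ‖ / 2)) * (ρ' ^ m)⁻¹ := by rw [mul_inv]; ring
      _ ≤ K / (c * (‖ξ‖ / 2)) * r ^ m := mul_le_mul_of_nonneg_left h4 (by positivity)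
      _ ≤ M * r ^ m := mul_le_mul_of_nonneg_right (le_max_right _ _) (by positivity)

end Pool.Agent.Helper56.WV
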