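import Pool.Agent.Helper56.WV.St
import Pool.Agent.Helper22.Wav.Marg
import Pool.Agent.Helper26.Wav.N2

/-!
# Project WV, module T1: from a wavelet to the frequency side
-/

set_option autoImplicit false

open MeasureTheory
open scoped FourierTransform RealInnerProductSpace Matrix ComplexConjugate

noncomputable section

namespace Pool.Agent.Helper56.WV

open Wav

lemma t1_moment {n : ℕ} {N : ℝ} {ψ : E n → ℂ} (h : WellLocalized N ψ) (hN : (n : ℝ) + 1 < N) :
    Integrable (fun x => ‖x‖ * ‖ψ x‖) := by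
  have h1 : Integrable ψ := h.integrable (by linarith)
  have h2 := moment_integrable ψ h1 h.decay one_pos (by linarith)
  simpa only [Real.rpow_one] using h2

lemma t1_smooth {n : ℕ} {N : ℝ} {ψ : E n → ℂ} (h : WellLocalized N ψ) (hN : (n : ℝ) + 1 < N) :
    ContDiff ℝ 1 (𝓕 ψ) := by
  have h1 : Integrable ψ := h.integrable (by linarith)
  have h2 := t1_moment h hN
  have h3 : ContDiff ℝ ((1 : ℕ∞) : WithTop ℕ∞) (𝓕 ψ) := by
    apply Real.contDiff_fourier
    intro m hm
    have hm1 : m ≤ 1 := by exact_mod_cast hm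
    interval_cases m
    · simpa using h1.norm
    · simpa using h2
  exact h3

lemma t1_dbound {n : ℕ} {N : ℝ} {ψ : E n → ℂ} (h : WellLocalized N ψ) (hN : (n : ℝ) + 1 < N) :
    ∃ K : ℝ, 0 < K ∧ ∀ ξ : E n, ‖fderiv ℝ (𝓕 ψ) ξ‖ ≤ K := by
  have h1 : Integrable ψ := h.integrable (by linarith)
  have h2 := t1_moment h hN
  have h3 := Real.fderiv_fourier h1 h2
  have h0 : 0 ≤ ∫ v, ‖VectorFourier.fourierSMulRight (innerSL ℝ) ψ v‖ :=
    integral_nonneg fun v => norm_nonneg _
  refine ⟨(∫ v, ‖VectorFourier.fourierSMulRight (innerSL ℝ) ψ v‖) + 1, by linarith, fun ξ => ?_⟩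
  rw [h3]
  have h4 : ‖𝓕 (VectorFourier.fourierSMulRight (innerSL ℝ) ψ) ξ‖ ≤
      ∫ v, ‖VectorFourier.fourierSMulRight (innerSL ℝ) ψ v‖ :=
    VectorFourier.norm_fourierIntegral_le_integral_norm _ _ _ _ _
  linarith

theorem p_T1 : St_T1 := by
  intro n A N hn hA hN hW
  obtain ⟨L, ψ, hψ, hON⟩ := hW
  have hw : ∀ l, WellLocalized N (ψ l) := fun l => WavN.wellLocalized_of (hψ l)
  have hN' : (n : ℝ) < N := by linarith
  have hw2 : IsONWavelet A ψ := (Pool.Agent.Helper54.WavS.isONWavelet_iff _ _).1 hON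
  have hdet := expansive_det hA
  have h1 : ∀ l, Integrable (ψ l) := fun l => (hw l).integrable hN'
  have h2 : ∀ l, MemLp (ψ l) 2 volume := fun l => (hw l).memLp
  refine ⟨L, fun l => 𝓕 (ψ l), ?_⟩
  refine ⟨hn, hA, hN, fun l => t1_smooth (hw l) hN, ?_, ?_, ?_⟩
  · obtain ⟨C, hC0, hC⟩ := N2Aux.common_bound (Ψ := fun l => 𝓕 (ψ l)) (N := N)
      fun l => (hw l).fourier_bound hN'
    refine ⟨C + 1, by linarith, fun l ξ => (hC l ξ).trans ?_⟩
    exact mul_le_mul_of_nonneg_right (by linarith) (by positivity)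
  · choose K hK0 hK using fun l => t1_dbound (hw l) hN
    have hS : 0 ≤ ∑ l, K l := Finset.sum_nonneg fun l _ => (hK0 l).le
    refine ⟨(∑ l, K l) + 1, by linarith, fun l ξ => (hK l ξ).trans ?_⟩
    have := Finset.single_le_sum (f := K) (fun l _ => (hK0 l).le) (Finset.mem_univ l)
    linarith
  · exact (transfer hdet h1 h2).1 hw2

end Pool.Agent.Helper56.WV
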