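import Pool.Agent.Helper56.WV.St

/-!
# Project WV, module WW: properties of the diagonal `w = p_0`
-/

set_option autoImplicit false

open MeasureTheory
open scoped FourierTransform RealInnerProductSpace Matrix ComplexConjugate

noncomputable section

namespace Pool.Agent.Helper56.WV

open Wav

variable {n L : ℕ}

lemma ww_cont_act (M : Matrix (Fin n) (Fin n) ℝ) : Continuous (fun ζ : E n => act M ζ) := by
  have h : (fun ζ : E n => act M ζ) = act M := rfl
  rw [h, act_eq]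
  exact LinearMap.continuous_of_finiteDimensional _

lemma ww_sc_zero (A : Matrix (Fin n) (Fin n) ℝ) (Ψ : Fin L → E n → ℂ) (l : Fin L) (ζ : E n) :
    sc A Ψ 0 l ζ = Ψ l ζ := by
  unfold sc
  rw [neg_zero, zpow_zero, act_one]

lemma ww_dg_zero (A : Matrix (Fin n) (Fin n) ℝ) (Ψ : Fin L → E n → ℂ) :
    (fun ζ => dg A Ψ 0 ζ) = fun ζ => ∑ l, ‖Ψ l ζ‖ ^ 2 := by
  funext ζ
  unfold dg
  simp only [ww_sc_zero]

theorem p_WW (hBE : St_BE) : St_WW := by
  intro n L A Ψ N hW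
  obtain ⟨K, hK0, hK⟩ := hW.bound
  obtain ⟨K', hK'0, hK'⟩ := hW.dbound
  have hN : 0 < N := by
    have h1 := hW.hN
    have h2 : (0 : ℝ) ≤ n := Nat.cast_nonneg n
    linarith
  refine ⟨?_, ?_, ?_, ?_⟩
  · intro j
    unfold dg sc
    refine continuous_finsetSum _ fun l _ => ?_
    exact ((((hW.smooth l).continuous).comp (ww_cont_act _)).norm).pow 2
  · rw [ww_dg_zero]
    exact ContDiff.sum fun l _ => (hW.smooth l).norm_sq ℝ
  · intro ζ
    refine ⟨?_, ?_⟩
    · unfold dg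
      positivity
    · have h := hBE n L A Ψ N hW ζ {0}
      simpa using h
  · refine ⟨L * K ^ 2 + L * (2 * (K * K')), fun ζ => ?_⟩
    have hx : (0 : ℝ) < 1 + ‖ζ‖ := by positivity
    have hx1 : (1 : ℝ) ≤ 1 + ‖ζ‖ := by
      have := norm_nonneg ζ
      linarith
    set R : ℝ := (1 + ‖ζ‖) ^ (-N) with hR
    have hR0 : 0 < R := Real.rpow_pos_of_pos hx _
    have hR1 : R ≤ 1 := Real.rpow_le_one_of_one_le_of_nonpos hx1 (by linarith)
    refine ⟨?_, ?_⟩
    · have h0 : dg A Ψ 0 ζ = ∑ l, ‖Ψ l ζ‖ ^ 2 := congrFun (ww_dg_zero A Ψ) ζ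
      rw [h0]
      have h1 : ∀ l ∈ (Finset.univ : Finset (Fin L)), ‖Ψ l ζ‖ ^ 2 ≤ K ^ 2 * R := by
        intro l _
        have h2 := hK l ζ
        have h3 : ‖Ψ l ζ‖ ^ 2 ≤ (K * R) ^ 2 := pow_le_pow_left₀ (norm_nonneg _) h2 2
        have h4 : (K * R) ^ 2 ≤ K ^ 2 * R := by
          have h5 : R ^ 2 ≤ R := by nlinarith
          have h6 : 0 ≤ K ^ 2 := sq_nonneg K
          nlinarith
        exact h3.trans h4
      have h2 := Finset.sum_le_card_nsmul _ _ _ h1
      rw [Finset.card_univ, Fintype.card_fin, nsmul_eq_mul] at h2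
      have h3 : 0 ≤ (L : ℝ) * (2 * (K * K')) * R := by positivity
      nlinarith
    · rw [ww_dg_zero]
      have hd : ∀ l ∈ (Finset.univ : Finset (Fin L)),
          DifferentiableAt ℝ (fun ζ => ‖Ψ l ζ‖ ^ 2) ζ := by
        intro l _
        exact ((hW.smooth l).norm_sq ℝ).differentiable (by norm_num) ζ
      have h1 : ∀ l ∈ (Finset.univ : Finset (Fin L)),
          ‖fderiv ℝ (fun ζ => ‖Ψ l ζ‖ ^ 2) ζ‖ ≤ 2 * (K * K') * R := by
        intro l _
        have hl : HasFDerivAt (Ψ l) (fderiv ℝ (Ψ l) ζ) ζ :=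
          ((hW.smooth l).differentiable (by norm_num) ζ).hasFDerivAt
        have h2 := hl.norm_sq
        rw [h2.fderiv]
        refine ContinuousLinearMap.opNorm_le_bound _ (by positivity) fun v => ?_
        have h3 : ‖(2 • (innerSL ℝ (Ψ l ζ)).comp (fderiv ℝ (Ψ l) ζ)) v‖ ≤
            2 * (‖Ψ l ζ‖ * (‖fderiv ℝ (Ψ l) ζ‖ * ‖v‖)) := by
          simp only [ContinuousLinearMap.smul_apply, ContinuousLinearMap.comp_apply,
            innerSL_apply_apply]
          rw [nsmul_eq_mul, norm_mul]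
          have h4 : ‖(inner ℝ (Ψ l ζ) (fderiv ℝ (Ψ l) ζ v) : ℝ)‖ ≤
              ‖Ψ l ζ‖ * ‖fderiv ℝ (Ψ l) ζ v‖ := norm_inner_le_norm _ _
          have h5 : ‖fderiv ℝ (Ψ l) ζ v‖ ≤ ‖fderiv ℝ (Ψ l) ζ‖ * ‖v‖ :=
            ContinuousLinearMap.le_opNorm _ _
          have h6 : ‖((2 : ℕ) : ℝ)‖ = 2 := by norm_num
          rw [h6]
          have h7 := norm_nonneg (Ψ l ζ)
          nlinarith
        refine h3.trans ?_
        have h4 : ‖Ψ l ζ‖ * (‖fderiv ℝ (Ψ l) ζ‖ * ‖v‖) ≤ (K * R) * (K' * ‖v‖) :=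
          mul_le_mul (hK l ζ) (mul_le_mul_of_nonneg_right (hK' l ζ) (norm_nonneg _))
            (by positivity) (by positivity)
        nlinarith
      rw [fderiv_fun_sum hd]
      refine (norm_sum_le _ _).trans ?_
      have h2 := Finset.sum_le_card_nsmul _ _ _ h1
      rw [Finset.card_univ, Fintype.card_fin, nsmul_eq_mul] at h2
      have h3 : 0 ≤ (L : ℝ) * K ^ 2 * R := by positivity
      nlinarith

end Pool.Agent.Helper56.WV
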