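import Pool.Agent.Helper56.WV.Defs

/-!
# Project WV (MP_d629b1_an): module statements

Notation in the comments: `B = Aᵀ`, `Γ_j = B^j ℤⁿ`, `Ψ^j_l(ξ) = Ψ_l(B^(-j) ξ)` (`sc`),
`P_j(ξ,η) = ∑_l Ψ^j_l(ξ) conj Ψ^j_l(η)` if `η - ξ ∈ Γ_j`, else `0` (`ker`),
`p_j(ξ) = P_j(ξ,ξ)` (`dg`), `w = p_0`.
-/

set_option autoImplicit false

open MeasureTheory
open scoped FourierTransform RealInnerProductSpace Matrix ComplexConjugate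

noncomputable section

namespace Pool.Agent.Helper56.WV

open Wav

/-! ### Algebra -/

/-- **MT.** Two scales which are both present at `ξ` meet. -/
def St_MT : Prop := ∀ (E : Type) [AddCommGroup E] (Γ : ℤ → AddSubgroup E) (P : ℤ → E → E → ℂ),
  KSys Γ P → ∀ (a b : ℤ) (ξ : E), a ≠ b → P a ξ ξ ≠ 0 → P b ξ ξ ≠ 0 →
    ∃ η : E, η ≠ ξ ∧ P a ξ η ≠ 0 ∧ P b η ξ ≠ 0

/-- **OFF.** The off-coset identity. `H` is the set of `v ∈ Γ a` with a positive multiple in `Γ b`. -/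
def St_OFF : Prop := ∀ (E : Type) [AddCommGroup E] (Γ : ℤ → AddSubgroup E)
    (P : ℤ → E → E → ℂ), (∀ (m : ℕ) (x : E), 0 < m → m • x = 0 → x = 0) → KSys Γ P →
    Aligned Γ → ∀ (a b c : ℤ) (ξ η : E), a ≠ b → Meet Γ a b → η - ξ ∈ Γ a → η - ξ ∈ Γ b →
    P a ξ η ≠ 0 → c ≠ a → c ≠ b → ¬ Meet3 Γ a b c → P c ξ ξ ≠ 0 →
    ∃ z : E, z - ξ ∈ Γ a ∧ (∀ m : ℕ, 0 < m → m • (z - ξ) ∉ Γ b) ∧ P a ξ z ≠ 0 ∧ P a z η ≠ 0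

/-- **AL.** Without a tetrahedral configuration all the scales present at a point are aligned. -/
def St_AL : Prop := ∀ (E : Type) [AddCommGroup E] (Γ : ℤ → AddSubgroup E) (P : ℤ → E → E → ℂ),
  (∀ (m : ℕ) (x : E), 0 < m → m • x = 0 → x = 0) → KSys Γ P → Aligned Γ → ¬ Tetra Γ →
    ∀ (a b c : ℤ) (ξ : E), a ≠ b → P a ξ ξ ≠ 0 → P b ξ ξ ≠ 0 → P c ξ ξ ≠ 0 →
      c = a ∨ c = b ∨ Meet3 Γ a b c

/-! ### Lattices -/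

/-- **RR.** If no power of `A` is rational, the common vectors of two of the lattices do not span. -/
def St_RR : Prop := ∀ (n : ℕ) (A : Matrix (Fin n) (Fin n) ℝ), Expansive A →
  ¬ Pool.Agent.Helper54.WavS.HasRationalPower A → ∀ i j : ℤ, i ≠ j →
    ∃ d : E n, d ≠ 0 ∧ ∀ γ : E n, γ ∈ Gam A i → γ ∈ Gam A j → ⟪d, γ⟫ = 0

/-- **R2.** In dimension two, without a rational power, the lattices are aligned. -/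
def St_R2 : Prop := ∀ (A : Matrix (Fin 2) (Fin 2) ℝ), Expansive A →
  ¬ Pool.Agent.Helper54.WavS.HasRationalPower A → Aligned (Gam A)

/-! ### Fourier analysis -/

/-- **T1.** From a wavelet to the frequency side. -/
def St_T1 : Prop := ∀ (n : ℕ) (A : Matrix (Fin n) (Fin n) ℝ) (N : ℝ), 1 ≤ n → Expansive A →
  (n : ℝ) + 1 < N → WavN.HasWavelet N A →
    ∃ (L : ℕ) (Ψ : Fin L → E n → ℂ), WSys A Ψ N

/-- **LS.** Uniform bound for the sum over a lattice. -/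
def St_LS : Prop := ∀ (n L : ℕ) (A : Matrix (Fin n) (Fin n) ℝ) (Ψ : Fin L → E n → ℂ) (N : ℝ),
  WSys A Ψ N → ∃ K : ℝ, 0 < K ∧ ∀ (j : ℤ) (l : Fin L) (ξ : E n),
    Summable (fun p : Fin n → ℤ => ‖sc A Ψ j l (ξ + act (Aᵀ ^ j) (ivec p))‖) ∧
      ∑' p : Fin n → ℤ, ‖sc A Ψ j l (ξ + act (Aᵀ ^ j) (ivec p))‖ ≤ K

/-- **PP.** Parseval for one generator and one scale, tested with indicator functions:
`∑_k conj⟨b_k, 1_T⟩ ⟨b_k, 1_S⟩ = ⟨1_T, P 1_S⟩`. -/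
def St_PP : Prop := ∀ (n L : ℕ) (A : Matrix (Fin n) (Fin n) ℝ) (Ψ : Fin L → E n → ℂ) (N : ℝ),
  WSys A Ψ N → ∀ (S T : Set (E n)), MeasurableSet S → MeasurableSet T →
    Bornology.IsBounded S → Bornology.IsBounded T → ∀ (j : ℤ) (l : Fin L),
    HasSum (fun k : Fin n → ℤ => conj (∫ ξ in T, conj (faff A (Ψ l) j k ξ)) *
        ∫ ξ in S, conj (faff A (Ψ l) j k ξ))
      (∫ ξ in T, sc A Ψ j l ξ * ∑' p : Fin n → ℤ,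
        S.indicator (fun ζ => conj (sc A Ψ j l ζ)) (ξ + act (Aᵀ ^ j) (ivec p)))

/-- **BE.** Bessel inequality on the diagonal. -/
def St_BE : Prop := ∀ (n L : ℕ) (A : Matrix (Fin n) (Fin n) ℝ) (Ψ : Fin L → E n → ℂ) (N : ℝ),
  WSys A Ψ N → ∀ (ξ : E n) (F : Finset ℤ), ∑ j ∈ F, dg A Ψ j ξ ≤ 1

/-- **I0.** -/
def St_I0 : Prop := ∀ (n L : ℕ) (A : Matrix (Fin n) (Fin n) ℝ) (Ψ : Fin L → E n → ℂ) (N : ℝ),
  WSys A Ψ N → ∀ l : Fin L, Ψ l 0 = 0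

/-- **SB.** Uniform bound for the sum over the scales. -/
def St_SB : Prop := ∀ (n L : ℕ) (A : Matrix (Fin n) (Fin n) ℝ) (Ψ : Fin L → E n → ℂ) (N : ℝ),
  WSys A Ψ N → ∃ K : ℝ, 0 < K ∧ ∀ (l : Fin L) (ξ : E n),
    Summable (fun j : ℤ => ‖sc A Ψ j l ξ‖) ∧ ∑' j : ℤ, ‖sc A Ψ j l ξ‖ ≤ K

/-- **SU.** Locally uniform summability over the scales away from the origin. -/
def St_SU : Prop := ∀ (n L : ℕ) (A : Matrix (Fin n) (Fin n) ℝ) (Ψ : Fin L → E n → ℂ) (N : ℝ),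
  WSys A Ψ N → ∀ ξ : E n, ξ ≠ 0 → ∃ δ : ℝ, 0 < δ ∧ ∃ s : ℤ → ℝ, Summable s ∧
    ∀ (j : ℤ) (l : Fin L) (ζ : E n), ζ ∈ Metric.ball ξ δ → ‖sc A Ψ j l ζ‖ ≤ s j

/-- **GW.** Completeness of the affine system, pointwise: `∑_j P_j = 1`. -/
def St_GW : Prop := ∀ (n L : ℕ) (A : Matrix (Fin n) (Fin n) ℝ) (Ψ : Fin L → E n → ℂ) (N : ℝ),
  WSys A Ψ N → ∀ ξ η : E n, ξ ≠ 0 → η ≠ 0 →
    ∑' j : ℤ, ker A Ψ j ξ η = if ξ = η then 1 else 0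

/-- **PZ.** A continuous function with decay whose Fourier coefficients at the integer vectors
vanish, except at `0`, has constant periodization. -/
def St_PZ : Prop := ∀ (n : ℕ) (N K : ℝ) (G : E n → ℂ) (c : ℂ), (n : ℝ) < N → Continuous G →
  (∀ ξ, ‖G ξ‖ ≤ K * (1 + ‖ξ‖) ^ (-N)) →
  (∀ k : Fin n → ℤ, ∫ ξ, G ξ * ee ⟪ivec k, ξ⟫ = if k = 0 then c else 0) →
    ∀ ξ, ∑' p : Fin n → ℤ, G (ξ + ivec p) = c

/-- **I1.** Orthonormality of the translates at one scale, pointwise. -/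
def St_I1 : Prop := ∀ (n L : ℕ) (A : Matrix (Fin n) (Fin n) ℝ) (Ψ : Fin L → E n → ℂ) (N : ℝ),
  WSys A Ψ N → ∀ (l l' : Fin L) (ξ : E n),
    ∑' p : Fin n → ℤ, Ψ l (ξ + ivec p) * conj (Ψ l' (ξ + ivec p)) = if l = l' then 1 else 0

/-- **I2.** Orthogonality of two scales, pointwise. -/
def St_I2 : Prop := ∀ (n L : ℕ) (A : Matrix (Fin n) (Fin n) ℝ) (Ψ : Fin L → E n → ℂ) (N : ℝ),
  WSys A Ψ N → ∀ (i j : ℤ), i ≠ j → ∀ (l l' : Fin L) (ξ : E n),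
    Summable (fun γ : Cm A i j => ‖sc A Ψ i l (ξ + γ) * conj (sc A Ψ j l' (ξ + γ))‖) ∧
      ∑' γ : Cm A i j, sc A Ψ i l (ξ + γ) * conj (sc A Ψ j l' (ξ + γ)) = 0

/-- **KP.** The kernels form a system of projections. -/
def St_KP : Prop := ∀ (n L : ℕ) (A : Matrix (Fin n) (Fin n) ℝ) (Ψ : Fin L → E n → ℂ) (N : ℝ),
  WSys A Ψ N → KSys (Gam A) (ker A Ψ)

/-! ### Currents -/

/-- **DY.** The derivative of the orthonormality relation. -/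
def St_DY : Prop := ∀ (n L : ℕ) (A : Matrix (Fin n) (Fin n) ℝ) (Ψ : Fin L → E n → ℂ) (N : ℝ),
  WSys A Ψ N → ∀ (l l' : Fin L) (u ξ : E n),
    ∑' p : Fin n → ℤ, conj (Ψ l' (ξ + ivec p)) * fderiv ℝ (Ψ l) (ξ + ivec p) u =
      -conj (∑' p : Fin n → ℤ, conj (Ψ l (ξ + ivec p)) * fderiv ℝ (Ψ l') (ξ + ivec p) u)

/-- **B4.** Bound for the currents. -/
def St_B4 : Prop := ∀ (n L : ℕ) (A : Matrix (Fin n) (Fin n) ℝ) (Ψ : Fin L → E n → ℂ) (N : ℝ),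
  WSys A Ψ N → ∃ K : ℝ, 0 < K ∧ ∀ (u ξ : E n),
    Summable (fun j : ℤ => ‖fj A Ψ j u ξ‖) ∧
      ∑' j : ℤ, ‖fj A Ψ j u ξ‖ ≤ K * ‖u‖ * (1 + ‖ξ‖) ^ (-N)

/-- **B1.** The gradient of `w = p_0` is the sum of the currents. -/
def St_B1 : Prop := ∀ (n L : ℕ) (A : Matrix (Fin n) (Fin n) ℝ) (Ψ : Fin L → E n → ℂ) (N : ℝ),
  WSys A Ψ N → ∀ (u ξ : E n), ξ ≠ 0 →
    fderiv ℝ (fun ζ => dg A Ψ 0 ζ) ξ u = 2 * (∑' j : ℤ, fj A Ψ j u ξ).re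

/-- **B3.** The coset law. -/
def St_B3 : Prop := ∀ (n L : ℕ) (A : Matrix (Fin n) (Fin n) ℝ) (Ψ : Fin L → E n → ℂ) (N : ℝ),
  WSys A Ψ N → ∀ (j : ℤ) (u d : E n), (∀ γ : E n, γ ∈ Gam A 0 → γ ∈ Gam A j → ⟪d, γ⟫ = 0) →
    ∫ ξ, fj A Ψ j u ξ * ((⟪d, ξ⟫ : ℝ) : ℂ) = 0

/-- **MS.** Measurability of the currents. -/
def St_MS : Prop := ∀ (n L : ℕ) (A : Matrix (Fin n) (Fin n) ℝ) (Ψ : Fin L → E n → ℂ) (N : ℝ),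
  WSys A Ψ N → ∀ (j : ℤ) (u : E n), Continuous (fj A Ψ j u)

/-! ### The moment identity -/

/-- **MO.** The gradient of `w` on an open set `O` on whose boundary `w` is `0` or `1` has a scalar
moment matrix: its entries `(u, v)` with `u ⟂ v` vanish. -/
def St_MO : Prop := ∀ (n : ℕ) (N K : ℝ) (w : E n → ℝ) (O : Set (E n)), (n : ℝ) + 1 < N →
  ContDiff ℝ 1 w → (∀ ξ, 0 ≤ w ξ) → (∀ ξ, w ξ ≤ 1) → (∀ ξ, w ξ ≤ K * (1 + ‖ξ‖) ^ (-N)) →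
  (∀ ξ, ‖fderiv ℝ w ξ‖ ≤ K * (1 + ‖ξ‖) ^ (-N)) → IsOpen O → (∀ ξ ∈ O, 0 < w ξ ∧ w ξ < 1) →
  (∀ ξ ∈ closure O, ξ ∉ O → w ξ = 0 ∨ w ξ = 1) →
  ∀ u v : E n, ⟪u, v⟫ = 0 → ∫ ξ in O, fderiv ℝ w ξ u * ⟪v, ξ⟫ = 0

/-- **MQ.** Linear algebra: a bilinear form which vanishes on orthogonal pairs and in one direction
vanishes on the diagonal. -/
def St_MQ : Prop := ∀ (n : ℕ) (M : E n →ₗ[ℝ] E n →ₗ[ℝ] ℝ) (d : E n), d ≠ 0 →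
  (∀ u v : E n, ⟪u, v⟫ = 0 → M u v = 0) → (∀ u, M u d = 0) → ∀ u, M u u = 0

/-- **IB.** Integration by parts. -/
def St_IB : Prop := ∀ (n : ℕ) (N K : ℝ) (w : E n → ℝ), (n : ℝ) + 1 < N →
  ContDiff ℝ 1 w → (∀ ξ, |w ξ| ≤ K * (1 + ‖ξ‖) ^ (-N)) →
  (∀ ξ, ‖fderiv ℝ w ξ‖ ≤ K * (1 + ‖ξ‖) ^ (-N)) →
  ∀ u v : E n, ∫ ξ, fderiv ℝ w ξ u * ⟪v, ξ⟫ = -(⟪u, v⟫ * ∫ ξ, w ξ)

/-- **WW.** Properties of `w = p_0`. -/
def St_WW : Prop := ∀ (n L : ℕ) (A : Matrix (Fin n) (Fin n) ℝ) (Ψ : Fin L → E n → ℂ) (N : ℝ),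
  WSys A Ψ N → (∀ j : ℤ, Continuous (fun ζ => dg A Ψ j ζ)) ∧
    ContDiff ℝ 1 (fun ζ => dg A Ψ 0 ζ) ∧ (∀ ζ, 0 ≤ dg A Ψ 0 ζ ∧ dg A Ψ 0 ζ ≤ 1) ∧
    ∃ K : ℝ, ∀ ζ, dg A Ψ 0 ζ ≤ K * (1 + ‖ζ‖) ^ (-N) ∧
      ‖fderiv ℝ (fun ζ => dg A Ψ 0 ζ) ζ‖ ≤ K * (1 + ‖ζ‖) ^ (-N)

/-- **CL.** Assembly: no such system exists if no power of `A` is rational, the lattices are aligned
and there is no tetrahedral configuration. -/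
def St_CL : Prop := ∀ (n L : ℕ) (A : Matrix (Fin n) (Fin n) ℝ) (Ψ : Fin L → E n → ℂ) (N : ℝ),
  2 ≤ n → WSys A Ψ N →
  (∀ i j : ℤ, i ≠ j → ∃ d : E n, d ≠ 0 ∧ ∀ γ : E n, γ ∈ Gam A i → γ ∈ Gam A j → ⟪d, γ⟫ = 0) →
  Aligned (Gam A) → ¬ Tetra (Gam A) → False

end Pool.Agent.Helper56.WV
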