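import Pool.Agent.Helper56.WV.M_AL
import Pool.Agent.Helper56.WV.M_B1
import Pool.Agent.Helper56.WV.M_B3
import Pool.Agent.Helper56.WV.M_B4
import Pool.Agent.Helper56.WV.M_BE
import Pool.Agent.Helper56.WV.M_CL
import Pool.Agent.Helper56.WV.M_DY
import Pool.Agent.Helper56.WV.M_GW
import Pool.Agent.Helper56.WV.M_I0
import Pool.Agent.Helper56.WV.M_I1
import Pool.Agent.Helper56.WV.M_I2
import Pool.Agent.Helper56.WV.M_IB
import Pool.Agent.Helper56.WV.M_KP
import Pool.Agent.Helper56.WV.M_LS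
import Pool.Agent.Helper56.WV.M_MO
import Pool.Agent.Helper56.WV.M_MQ
import Pool.Agent.Helper56.WV.M_MS
import Pool.Agent.Helper56.WV.M_MT
import Pool.Agent.Helper56.WV.M_OFF
import Pool.Agent.Helper56.WV.M_PP
import Pool.Agent.Helper56.WV.M_PZ
import Pool.Agent.Helper56.WV.M_R2
import Pool.Agent.Helper56.WV.M_RR
import Pool.Agent.Helper56.WV.M_SB
import Pool.Agent.Helper56.WV.M_SU
import Pool.Agent.Helper56.WV.M_T1
import Pool.Agent.Helper56.WV.M_WW

/-!
# Project WV: the final theorem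
-/

set_option autoImplicit false

noncomputable section

namespace Pool.Agent.Helper56.WV

theorem top_BE : St_BE := p_BE p_PP

theorem top_I0 : St_I0 := p_I0 top_BE

theorem top_SB : St_SB := p_SB top_I0

theorem top_SU : St_SU := p_SU top_I0

theorem top_GW : St_GW := p_GW p_PP p_LS top_SU top_I0

theorem top_I1 : St_I1 := p_I1 p_PZ

theorem top_I2 : St_I2 := p_I2 p_PZ p_LS

theorem top_KP : St_KP := p_KP top_I0 top_I1 top_I2 top_GW p_LS top_SU

theorem top_AL : St_AL := p_AL p_MT p_OFF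

theorem top_CL : St_CL :=
  p_CL top_AL top_KP top_GW (p_B1 top_GW (p_DY top_I1 p_LS) p_LS top_SB top_I0)
    (p_B3 top_I2 p_LS) (p_B4 p_LS top_SB) (p_MS p_LS) p_MO p_MQ p_IB (p_WW top_BE) top_I0

theorem tetra_of_aligned {n : ℕ} (hn : 2 ≤ n) {A : Matrix (Fin n) (Fin n) ℝ}
    (hA : Wav.Expansive A) (hr : ¬ Pool.Agent.Helper54.WavS.HasRationalPower A) {N : ℝ}
    (hN : (n : ℝ) + 1 < N) (hW : WavN.HasWavelet N A) (hal : Aligned (Gam A)) :
    Tetra (Gam A) := by
  by_contra hT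
  obtain ⟨L, Ψ, hS⟩ := p_T1 n A N (by omega) hA hN hW
  exact top_CL n L A Ψ N hn hS (p_RR n A hA hr) hal hT

theorem tetra_of_two {A : Matrix (Fin 2) (Fin 2) ℝ} (hA : Wav.Expansive A)
    (hr : ¬ Pool.Agent.Helper54.WavS.HasRationalPower A) {N : ℝ} (hN : (3 : ℝ) < N)
    (hW : WavN.HasWavelet N A) : Tetra (Gam A) :=
  tetra_of_aligned le_rfl hA hr (by norm_num; linarith) hW (p_R2 p_RR A hA hr)

end Pool.Agent.Helper56.WV
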